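import Pool.Agent.Lib.MP_545c5e_lc.Basic

/-! Comparison of the numbers of components and of the levels of two configurations. -/

namespace MP545

open Finset

private theorem abs_map {F F' : Cfg} {ψ : ℤ × ℤ → ℤ × ℤ}
    (ha : ∀ p q, F.Adj p q → F'.Reach (ψ p) (ψ q)) {x y : ℤ × ℤ} (h : F.Reach x y) :
    F'.Reach (ψ x) (ψ y) :=
  h.induct (P := fun z => F'.Reach (ψ x) (ψ z)) (fun _ _ _ hadj hz => hz.trans (ha _ _ hadj))
    (Cfg.Reach.refl' F' _)

theorem mono {G : Hist} {F F' : Cfg} (hF : G.Good F) (ψ : ℤ × ℤ → ℤ × ℤ)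
    (ha : ∀ p q, F.Adj p q → F'.Reach (ψ p) (ψ q))
    (hb : ∀ p', F'.deg p' ≠ 0 → ∃ p, F.deg p ≠ 0 ∧ F'.Reach (ψ p) p') :
    F'.c ≤ F.c ∧ ∀ p q, F.deg p ≠ 0 → F.deg q ≠ 0 → ¬ F.Reach p q → F'.Reach (ψ p) (ψ q) →
      F'.c < F.c := by
  classical
  obtain ⟨R, hRc, hR⟩ := hF.exists_rep
  constructor
  · have hrep : F'.Rep (R.image ψ) := by
      intro p' hp'
      obtain ⟨x, hx, hxp⟩ := hb p' hp'
      obtain ⟨r, hr, hrx⟩ := hR x hx
      exact ⟨ψ r, Finset.mem_image_of_mem _ hr, (abs_map ha hrx).trans hxp⟩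
    calc F'.c ≤ (R.image ψ).card := Cfg.c_le hrep
      _ ≤ R.card := Finset.card_image_le
      _ = F.c := hRc
  · intro p q hp hq hpq hpq'
    obtain ⟨r1, hr1, hr1p⟩ := hR p hp
    obtain ⟨r2, hr2, hr2q⟩ := hR q hq
    have hne : r1 ≠ r2 := by
      intro h
      subst h
      exact hpq (hr1p.symm.trans hr2q)
    have hrep : F'.Rep ((R.erase r2).image ψ) := by
      intro p' hp'
      obtain ⟨x, hx, hxp⟩ := hb p' hp'
      obtain ⟨r, hr, hrx⟩ := hR x hx
      by_cases h : r = r2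
      · subst h
        refine ⟨ψ r1, Finset.mem_image_of_mem _ (Finset.mem_erase.2 ⟨hne, hr1⟩), ?_⟩
        exact (((abs_map ha hr1p).trans hpq').trans (abs_map ha hr2q).symm).trans
          ((abs_map ha hrx).trans hxp)
      · exact ⟨ψ r, Finset.mem_image_of_mem _ (Finset.mem_erase.2 ⟨h, hr⟩),
          (abs_map ha hrx).trans hxp⟩
    calc F'.c ≤ ((R.erase r2).image ψ).card := Cfg.c_le hrep
      _ ≤ (R.erase r2).card := Finset.card_image_le
      _ < R.card := Finset.card_erase_lt_of_mem hr2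
      _ = F.c := hRc

theorem mono_lev {G : Hist} {F F' : Cfg} (hF : G.Good F) (ψ : ℤ × ℤ → ℤ × ℤ)
    (ha : ∀ p q, F.Adj p q → F'.Reach (ψ p) (ψ q))
    (hb : ∀ p', F'.deg p' ≠ 0 → ∃ p, F.deg p ≠ 0 ∧ F'.Reach (ψ p) p')
    (hc : ∀ p, F.deg p ≠ 0 → F'.deg (ψ p) ≠ 0 ∧ (ψ p).1 ≤ p.1) :
    F'.c ≤ F.c ∧ (F'.c < F.c ∨ F'.lev ≤ F.lev) := by
  obtain ⟨h1, h2⟩ := mono hF ψ ha hb
  refine ⟨h1, ?_⟩
  by_cases hconn : F.Conn
  · right
    have hempty : {k : ℕ | ∃ p q : ℤ × ℤ, F'.deg p ≠ 0 ∧ F'.deg q ≠ 0 ∧ ¬ F'.Reach p q ∧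
        (max p.1 q.1).toNat = k} = ∅ := by
      rw [Set.eq_empty_iff_forall_notMem]
      rintro k ⟨p', q', hp', hq', hn, -⟩
      obtain ⟨x, hx, hxp⟩ := hb p' hp'
      obtain ⟨y, hy, hyq⟩ := hb q' hq'
      exact hn ((hxp.symm.trans (abs_map ha (hconn x y hx hy))).trans hyq)
    have : F'.lev = 0 := by
      unfold Cfg.lev
      rw [hempty, Nat.sInf_empty]
    rw [this]
    exact Nat.zero_le _
  · obtain ⟨p, q, hp, hq, hpq, hlev⟩ := Cfg.lev_spec hconn
    by_cases hr : F'.Reach (ψ p) (ψ q)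
    · left
      exact h2 p q hp hq hpq hr
    · right
      have h3 := Cfg.lev_le (hc p hp).1 (hc q hq).1 hr
      have h4 := (hc p hp).2
      have h5 := (hc q hq).2
      omega

private theorem abs_Q {F F' : Cfg} {ψ : ℤ × ℤ → ℤ × ℤ} {A p q : ℤ × ℤ}
    (ha : ∀ x y, F.Adj x y → F'.Reach (ψ x) (ψ y) ∨
      (F.Reach A x ∧ (F'.Reach p (ψ x) ∨ F'.Reach q (ψ x)) ∧
        (F'.Reach p (ψ y) ∨ F'.Reach q (ψ y))))
    (hQA : F'.Reach p (ψ A) ∨ F'.Reach q (ψ A)) {x : ℤ × ℤ} (hx : F.Reach A x) :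
    F'.Reach p (ψ x) ∨ F'.Reach q (ψ x) :=
  hx.induct (P := fun z => F'.Reach p (ψ z) ∨ F'.Reach q (ψ z)) (by
    intro z w _ hadj hz
    rcases ha z w hadj with h | ⟨-, -, h⟩
    · rcases hz with hz | hz
      · exact Or.inl (hz.trans h)
      · exact Or.inr (hz.trans h)
    · exact h) hQA

private theorem abs_away {F F' : Cfg} {ψ : ℤ × ℤ → ℤ × ℤ} {A p q : ℤ × ℤ}
    (ha : ∀ x y, F.Adj x y → F'.Reach (ψ x) (ψ y) ∨
      (F.Reach A x ∧ (F'.Reach p (ψ x) ∨ F'.Reach q (ψ x)) ∧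
        (F'.Reach p (ψ y) ∨ F'.Reach q (ψ y)))) {x y : ℤ × ℤ} (hx : ¬ F.Reach A x)
    (hxy : F.Reach x y) : F'.Reach (ψ x) (ψ y) :=
  hxy.induct (P := fun z => F'.Reach (ψ x) (ψ z)) (by
    intro z w hxz hadj hz
    rcases ha z w hadj with h | ⟨h, -, -⟩
    · exact hz.trans h
    · exact absurd (h.trans hxz.symm) hx) (Cfg.Reach.refl' F' _)

/-- The component of `A` is split into at most two parts, one containing `p`, one containing
`q`, and the component of `B` is joined to one of them (through a point `A'` of the component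
of `A`). -/
theorem split {G : Hist} {F F' : Cfg} (hF : G.Good F) (ψ : ℤ × ℤ → ℤ × ℤ) (A B p q : ℤ × ℤ)
    (hA : F.deg A ≠ 0) (hB : F.deg B ≠ 0) (hAB : ¬ F.Reach A B)
    (ha : ∀ x y, F.Adj x y → F'.Reach (ψ x) (ψ y) ∨
      (F.Reach A x ∧ (F'.Reach p (ψ x) ∨ F'.Reach q (ψ x)) ∧
        (F'.Reach p (ψ y) ∨ F'.Reach q (ψ y))))
    (hb : ∀ p', F'.deg p' ≠ 0 → ∃ x, F.deg x ≠ 0 ∧ F'.Reach (ψ x) p')
    (hQA : F'.Reach p (ψ A) ∨ F'.Reach q (ψ A)) (A' : ℤ × ℤ) (hA' : F.Reach A A')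
    (hBA : F'.Reach (ψ A') (ψ B)) :
    F'.c ≤ F.c ∧ (F'.Reach p q → F'.c < F.c) := by
  classical
  obtain ⟨R, hRc, hR⟩ := hF.exists_rep
  obtain ⟨rA, hrA, hrAA⟩ := hR A hA
  obtain ⟨rB, hrB, hrBB⟩ := hR B hB
  have hne : rB ≠ rA := by
    intro h
    subst h
    exact hAB (hrAA.symm.trans hrBB)
  have hrB' : rB ∈ R.erase rA := Finset.mem_erase.2 ⟨hne, hrB⟩
  have hcard : ((R.erase rA).erase rB).card + 2 = F.c := by
    rw [Finset.card_erase_of_mem hrB', Finset.card_erase_of_mem hrA, ← hRc]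
    have h1 : 0 < (R.erase rA).card := Finset.card_pos.2 ⟨rB, hrB'⟩
    rw [Finset.card_erase_of_mem hrA] at h1
    omega
  -- every point of positive degree is reached from p, from q or from an old representative
  have key : ∀ p', F'.deg p' ≠ 0 → (F'.Reach p p' ∨ F'.Reach q p') ∨
      ∃ r ∈ (R.erase rA).erase rB, F'.Reach (ψ r) p' := by
    intro p' hp'
    obtain ⟨x, hx, hxp⟩ := hb p' hp'
    by_cases hAx : F.Reach A x
    · left
      rcases abs_Q ha hQA hAx with h | h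
      · exact Or.inl (h.trans hxp)
      · exact Or.inr (h.trans hxp)
    · by_cases hBx : F.Reach B x
      · left
        have h1 : F'.Reach (ψ B) (ψ x) := abs_away ha hAB hBx
        rcases abs_Q ha hQA hA' with h | h
        · exact Or.inl (((h.trans hBA).trans h1).trans hxp)
        · exact Or.inr (((h.trans hBA).trans h1).trans hxp)
      · right
        obtain ⟨r, hr, hrx⟩ := hR x hx
        have h1 : r ≠ rA := by
          intro h
          subst h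
          exact hAx (hrAA.symm.trans hrx)
        have h2 : r ≠ rB := by
          intro h
          subst h
          exact hBx (hrBB.symm.trans hrx)
        have h3 : ¬ F.Reach A r := fun h => hAx (h.trans hrx)
        exact ⟨r, Finset.mem_erase.2 ⟨h2, Finset.mem_erase.2 ⟨h1, hr⟩⟩,
          (abs_away ha h3 hrx).trans hxp⟩
  constructor
  · have hrep : F'.Rep ({p, q} ∪ ((R.erase rA).erase rB).image ψ) := by
      intro p' hp'
      rcases key p' hp' with (h | h) | ⟨r, hr, h⟩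
      · exact ⟨p, by simp, h⟩
      · exact ⟨q, by simp, h⟩
      · exact ⟨ψ r, Finset.mem_union_right _ (Finset.mem_image_of_mem _ hr), h⟩
    have h1 := Cfg.c_le hrep
    have h2 := Finset.card_union_le {p, q} (((R.erase rA).erase rB).image ψ)
    have h3 : (((R.erase rA).erase rB).image ψ).card ≤ ((R.erase rA).erase rB).card :=
      Finset.card_image_le
    have h4 := Finset.card_le_two (a := p) (b := q)
    omega
  · intro hpq
    have hrep : F'.Rep ({p} ∪ ((R.erase rA).erase rB).image ψ) := by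
      intro p' hp'
      rcases key p' hp' with (h | h) | ⟨r, hr, h⟩
      · exact ⟨p, by simp, h⟩
      · exact ⟨p, by simp, hpq.trans h⟩
      · exact ⟨ψ r, Finset.mem_union_right _ (Finset.mem_image_of_mem _ hr), h⟩
    have h1 := Cfg.c_le hrep
    have h2 := Finset.card_union_le {p} (((R.erase rA).erase rB).image ψ)
    have h3 : (((R.erase rA).erase rB).image ψ).card ≤ ((R.erase rA).erase rB).card :=
      Finset.card_image_le
    have h4 : ({p} : Finset (ℤ × ℤ)).card = 1 := Finset.card_singleton p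
    omega

theorem split_lev {G : Hist} {F F' : Cfg} (hF : G.Good F) (hF' : G.Good F')
    (ψ : ℤ × ℤ → ℤ × ℤ) (A B p q : ℤ × ℤ)
    (hA : F.deg A ≠ 0) (hB : F.deg B ≠ 0) (hAB : ¬ F.Reach A B)
    (ha : ∀ x y, F.Adj x y → F'.Reach (ψ x) (ψ y) ∨
      (F.Reach A x ∧ (F'.Reach p (ψ x) ∨ F'.Reach q (ψ x)) ∧
        (F'.Reach p (ψ y) ∨ F'.Reach q (ψ y))))
    (hb : ∀ p', F'.deg p' ≠ 0 → ∃ x, F.deg x ≠ 0 ∧ F'.Reach (ψ x) p')
    (hQA : F'.Reach p (ψ A) ∨ F'.Reach q (ψ A)) (A' : ℤ × ℤ) (hA' : F.Reach A A')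
    (hBA : F'.Reach (ψ A') (ψ B))
    (hp : F'.deg p ≠ 0) (hq : F'.deg q ≠ 0) (hp1 : p.1 < F.lev) (hq1 : q.1 < F.lev) :
    F'.c < F.c ∨ (F'.c ≤ F.c ∧ F'.lev < F.lev) := by
  obtain ⟨h1, h2⟩ := split hF ψ A B p q hA hB hAB ha hb hQA A' hA' hBA
  by_cases hpq : F'.Reach p q
  · exact Or.inl (h2 hpq)
  · right
    refine ⟨h1, ?_⟩
    have h3 := Cfg.lev_le hp hq hpq
    have h4 := hF'.one_le hp
    omega

end MP545
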