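import Pool.Agent.Lib.MP_545c5e_lc.GDefs

/-! Visiting the remaining vertices. -/

namespace MP545

private theorem attach_step {α : Type*} [Finite α] (Γ : SimpleGraph α) (hΓ : Γ.Connected) (v : α)
    (w : Γ.Walk v v) (k : ℕ) (hk : {u | u ∉ w.support}.ncard = k + 1) :
    ∃ w' : Γ.Walk v v, w'.length = w.length + 2 ∧ {u | u ∉ w'.support}.ncard = k := by
  classical
  have hne : {u | u ∉ w.support}.Nonempty := by
    rw [← Set.ncard_pos (Set.toFinite _)]
    omega
  obtain ⟨u0, hu0⟩ := hne
  obtain ⟨q⟩ := hΓ.preconnected v u0
  obtain ⟨d, _, hd1, hd2⟩ := q.exists_boundary_dart {u | u ∈ w.support} w.start_mem_support hu0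
  have hd1' : d.fst ∈ w.support := hd1
  have hd2' : d.snd ∉ w.support := hd2
  have hadj : Γ.Adj d.fst d.snd := d.adj
  refine ⟨(w.takeUntil d.fst hd1').append
    (SimpleGraph.Walk.cons hadj (SimpleGraph.Walk.cons hadj.symm (w.dropUntil d.fst hd1'))), ?_, ?_⟩
  · have h1 := congrArg SimpleGraph.Walk.length (w.take_spec hd1')
    rw [SimpleGraph.Walk.length_append] at h1
    rw [SimpleGraph.Walk.length_append, SimpleGraph.Walk.length_cons,
      SimpleGraph.Walk.length_cons]
    omega
  · have hs : {u | u ∉ ((w.takeUntil d.fst hd1').append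
        (SimpleGraph.Walk.cons hadj (SimpleGraph.Walk.cons hadj.symm
          (w.dropUntil d.fst hd1')))).support} = {u | u ∉ w.support} \ {d.snd} := by
      ext u
      have h1 : u ∈ w.support ↔ u ∈ (w.takeUntil d.fst hd1').support ∨
          u ∈ (w.dropUntil d.fst hd1').support := by
        conv_lhs => rw [← w.take_spec hd1']
        rw [SimpleGraph.Walk.mem_support_append_iff]
      have h2 : d.fst ∈ (w.takeUntil d.fst hd1').support :=
        SimpleGraph.Walk.end_mem_support _
      simp only [Set.mem_setOf_eq, Set.mem_diff, Set.mem_singleton_iff,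
        SimpleGraph.Walk.mem_support_append_iff, SimpleGraph.Walk.support_cons, List.mem_cons,
        h1]
      constructor
      · intro h
        push Not at h
        refine ⟨?_, h.2.2.1⟩
        push Not
        exact ⟨h.1, h.2.2.2⟩
      · intro h
        push Not at h
        push Not
        refine ⟨h.1.1, ?_, h.2, h.1.2⟩
        rintro rfl
        exact h.1.1 h2
    rw [hs, Set.ncard_diff_singleton_of_mem (show d.snd ∈ {u | u ∉ w.support} from hd2'), hk]
    rfl

private theorem attach_aux {α : Type*} [Finite α] (Γ : SimpleGraph α) (hΓ : Γ.Connected) (v : α) :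
    ∀ (k : ℕ) (w : Γ.Walk v v), {u | u ∉ w.support}.ncard = k →
      IsTourLength Γ (w.length + 2 * k) := by
  intro k
  induction k with
  | zero =>
    intro w hw
    refine ⟨v, w, ?_, by simp⟩
    intro u
    by_contra hu
    have h0 : {u | u ∉ w.support} = ∅ := (Set.ncard_eq_zero (Set.toFinite _)).1 hw
    have : u ∈ {u | u ∉ w.support} := hu
    rw [h0] at this
    exact this
  | succ k ih =>
    intro w hw
    obtain ⟨w', h1, h2⟩ := attach_step Γ hΓ v w k hw
    have h3 := ih w' h2
    have e : w.length + 2 * (k + 1) = w'.length + 2 * k := by rw [h1]; ring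
    rw [e]
    exact h3

/-- In a connected graph a closed walk that misses `k` vertices can be extended to a closed walk
through all vertices that is longer by `2 k`: a missed vertex `u` adjacent to a visited vertex
`s` is inserted by the detour `s, u, s`. -/
theorem attach {α : Type*} [Finite α] (Γ : SimpleGraph α) (hΓ : Γ.Connected) (v : α)
    (w : Γ.Walk v v) : IsTourLength Γ (w.length + 2 * {u | u ∉ w.support}.ncard) :=
  attach_aux Γ hΓ v _ w rfl

end MP545
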