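import Pool.Agent.Lib.MP_545c5e_lc.Defs

/-! Basic facts on configurations and histograms. -/

namespace MP545

open Finset

namespace Cfg

theorem Adj.symm {F : Cfg} {p q : ℤ × ℤ} (h : F.Adj p q) : F.Adj q p := by
  rcases h with h | h | h | h
  · exact Or.inr (Or.inl h)
  · exact Or.inl h
  · exact Or.inr (Or.inr (Or.inr h))
  · exact Or.inr (Or.inr (Or.inl h))

theorem Reach.refl' (F : Cfg) (p : ℤ × ℤ) : F.Reach p p := Relation.ReflTransGen.refl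

theorem Reach.symm {F : Cfg} {p q : ℤ × ℤ} (h : F.Reach p q) : F.Reach q p := by
  induction h with
  | refl => exact Relation.ReflTransGen.refl
  | tail _ hbc ih => exact Relation.ReflTransGen.head hbc.symm ih

theorem Reach.trans {F : Cfg} {p q r : ℤ × ℤ} (h : F.Reach p q) (h' : F.Reach q r) :
    F.Reach p r := Relation.ReflTransGen.trans h h'

theorem Adj.reach {F : Cfg} {p q : ℤ × ℤ} (h : F.Adj p q) : F.Reach p q :=
  Relation.ReflTransGen.single h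

theorem adj_H {F : Cfg} {r x : ℤ} (h : F.H r x = true) : F.Adj (r, x) (r, x + 1) :=
  Or.inl ⟨h, rfl⟩

theorem adj_V {F : Cfg} {r x : ℤ} (h : F.V r x = true) : F.Adj (r, x) (r + 1, x) :=
  Or.inr (Or.inr (Or.inl ⟨h, rfl⟩))

theorem reach_H {F : Cfg} {r x : ℤ} (h : F.H r x = true) : F.Reach (r, x) (r, x + 1) :=
  (adj_H h).reach

theorem reach_V {F : Cfg} {r x : ℤ} (h : F.V r x = true) : F.Reach (r, x) (r + 1, x) :=
  (adj_V h).reach

theorem toNat_le_one (b : Bool) : b.toNat ≤ 1 := by cases b <;> simp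

theorem deg_le_four (F : Cfg) (p : ℤ × ℤ) : F.deg p ≤ 4 := by
  unfold deg
  have h1 := toNat_le_one (F.H p.1 (p.2 - 1))
  have h2 := toNat_le_one (F.H p.1 p.2)
  have h3 := toNat_le_one (F.V (p.1 - 1) p.2)
  have h4 := toNat_le_one (F.V p.1 p.2)
  omega

theorem deg_mk (F : Cfg) (r x : ℤ) : F.deg (r, x) =
    (F.H r (x - 1)).toNat + (F.H r x).toNat + (F.V (r - 1) x).toNat + (F.V r x).toNat := rfl

theorem deg_ne_of_H {F : Cfg} {r x : ℤ} (h : F.H r x = true) :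
    F.deg (r, x) ≠ 0 ∧ F.deg (r, x + 1) ≠ 0 := by
  constructor
  · rw [deg_mk, h]; simp
  · rw [deg_mk]
    have e : x + 1 - 1 = x := by ring
    rw [e, h]; simp

theorem deg_ne_of_V {F : Cfg} {r x : ℤ} (h : F.V r x = true) :
    F.deg (r, x) ≠ 0 ∧ F.deg (r + 1, x) ≠ 0 := by
  constructor
  · rw [deg_mk, h]; simp
  · rw [deg_mk]
    have e : r + 1 - 1 = r := by ring
    rw [e, h]; simp

theorem Adj.deg_ne {F : Cfg} {p q : ℤ × ℤ} (h : F.Adj p q) : F.deg p ≠ 0 ∧ F.deg q ≠ 0 := by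
  obtain ⟨r, x⟩ := p
  obtain ⟨r', x'⟩ := q
  rcases h with ⟨h, e⟩ | ⟨h, e⟩ | ⟨h, e⟩ | ⟨h, e⟩ <;> simp only [Prod.mk.injEq] at e h <;>
    obtain ⟨rfl, rfl⟩ := e
  · exact deg_ne_of_H h
  · exact (deg_ne_of_H h).symm
  · exact deg_ne_of_V h
  · exact (deg_ne_of_V h).symm

theorem Reach.deg_ne {F : Cfg} {p q : ℤ × ℤ} (h : F.Reach p q) (hp : F.deg p ≠ 0) :
    F.deg q ≠ 0 := by
  induction h with
  | refl => exact hp
  | tail _ hbc _ => exact hbc.deg_ne.2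

theorem Reach.eq_or_deg_ne {F : Cfg} {p q : ℤ × ℤ} (h : F.Reach p q) :
    p = q ∨ (F.deg p ≠ 0 ∧ F.deg q ≠ 0) := by
  rcases Relation.ReflTransGen.cases_head h with h | ⟨c, h1, h2⟩
  · exact Or.inl h
  · refine Or.inr ⟨h1.deg_ne.1, ?_⟩
    exact Reach.deg_ne (show F.Reach c q from h2) h1.deg_ne.2

/-- A property that is preserved along the edges is preserved by `Reach`. -/
theorem Reach.induct {F : Cfg} {P : ℤ × ℤ → Prop} {p q : ℤ × ℤ} (h : F.Reach p q)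
    (hP : ∀ x y, F.Reach p x → F.Adj x y → P x → P y) (hp : P p) : P q := by
  induction h with
  | refl => exact hp
  | tail hab hbc ih => exact hP _ _ hab hbc ih

theorem c_le {F : Cfg} {R : Finset (ℤ × ℤ)} (h : F.Rep R) : F.c ≤ R.card :=
  Nat.sInf_le ⟨R, rfl, h⟩

theorem lev_le {F : Cfg} {p q : ℤ × ℤ} (hp : F.deg p ≠ 0) (hq : F.deg q ≠ 0)
    (h : ¬ F.Reach p q) : F.lev ≤ (max p.1 q.1).toNat :=
  Nat.sInf_le ⟨p, q, hp, hq, h, rfl⟩

theorem lev_spec {F : Cfg} (h : ¬ F.Conn) : ∃ p q : ℤ × ℤ, F.deg p ≠ 0 ∧ F.deg q ≠ 0 ∧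
    ¬ F.Reach p q ∧ (max p.1 q.1).toNat = F.lev := by
  unfold Conn at h
  push Not at h
  obtain ⟨p, q, hp, hq, hpq⟩ := h
  exact Nat.sInf_mem (s := {k : ℕ | ∃ p q : ℤ × ℤ, F.deg p ≠ 0 ∧ F.deg q ≠ 0 ∧ ¬ F.Reach p q ∧
    (max p.1 q.1).toNat = k}) ⟨_, p, q, hp, hq, hpq, rfl⟩

end Cfg

namespace Hist

theorem h_nonneg (G : Hist) (x : ℤ) : 0 ≤ G.h x := by
  by_cases h1 : G.lo ≤ x
  · by_cases h2 : x ≤ G.hi
    · have := G.two x h1 h2; omega
    · rw [G.out x (Or.inr (by omega))]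
  · rw [G.out x (Or.inl (by omega))]

theorem col_of_pos (G : Hist) {x : ℤ} (h : 0 < G.h x) : G.lo ≤ x ∧ x ≤ G.hi := by
  by_contra hc
  have : G.h x = 0 := G.out x (by omega)
  omega

theorem two_le_of_pos (G : Hist) {x : ℤ} (h : 0 < G.h x) : 2 ≤ G.h x :=
  G.two x (G.col_of_pos h).1 (G.col_of_pos h).2

theorem in_mk (G : Hist) (r x : ℤ) : G.In (r, x) ↔ 1 ≤ r ∧ r ≤ G.h x := Iff.rfl

theorem In.col {G : Hist} {p : ℤ × ℤ} (h : G.In p) : G.lo ≤ p.2 ∧ p.2 ≤ G.hi :=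
  G.col_of_pos (by have := h.1; have := h.2; omega)

theorem mem_Vs (G : Hist) (p : ℤ × ℤ) : p ∈ G.Vs ↔ G.In p := by
  unfold Vs
  simp only [Finset.mem_image, Finset.mem_sigma, Finset.mem_Icc, Sigma.exists]
  constructor
  · rintro ⟨x, r, ⟨⟨h1, h2⟩, h3, h4⟩, rfl⟩
    exact ⟨h3, h4⟩
  · intro h
    exact ⟨p.2, p.1, ⟨h.col, h.1, h.2⟩, rfl⟩

theorem h_le_N (G : Hist) (x : ℤ) : G.h x ≤ G.N := by
  by_cases hx : G.lo ≤ x ∧ x ≤ G.hi
  · exact Finset.single_le_sum (f := fun x => G.h x) (fun i _ => G.h_nonneg i)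
      (Finset.mem_Icc.2 hx)
  · rw [G.out x (by omega)]
    exact Finset.sum_nonneg fun i _ => G.h_nonneg i

theorem In.le_N {G : Hist} {p : ℤ × ℤ} (h : G.In p) : p.1 ≤ G.N :=
  h.2.trans (G.h_le_N _)

theorem in_up {G : Hist} {r x r' : ℤ} (h : G.In (r, x)) (h1 : 1 ≤ r') (h2 : r' ≤ r) :
    G.In (r', x) := ⟨h1, by have := h.2; simp only at this ⊢; omega⟩

/-- a point that is not in the first row has a lateral neighbour -/
theorem side (G : Hist) {r x : ℤ} (h : G.In (r, x)) :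
    G.In (r, x - 1) ∨ G.In (r, x + 1) := by
  have h1 := G.two_conn x
  have h2 := h.1
  have h3 := h.2
  simp only at h2 h3
  rcases le_max_iff.1 h1 with h4 | h4
  · exact Or.inl ⟨h2, by simp only; omega⟩
  · exact Or.inr ⟨h2, by simp only; omega⟩

theorem Good.deg_out {G : Hist} {F : Cfg} (hF : G.Good F) {p : ℤ × ℤ} (h : ¬ G.In p) :
    F.deg p = 0 := by
  by_contra hc
  unfold Cfg.deg at hc
  have e2 : p.2 - 1 + 1 = p.2 := by ring
  have e1 : p.1 - 1 + 1 = p.1 := by ring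
  have h1 : F.H p.1 (p.2 - 1) = false := by
    by_contra h1
    simp only [Bool.not_eq_false] at h1
    have := (hF.H _ _ h1).2
    rw [e2] at this
    exact h this
  have h2 : F.H p.1 p.2 = false := by
    by_contra h1
    simp only [Bool.not_eq_false] at h1
    exact h (hF.H _ _ h1).1
  have h3 : F.V (p.1 - 1) p.2 = false := by
    by_contra h1
    simp only [Bool.not_eq_false] at h1
    have := (hF.V _ _ h1).2
    rw [e1] at this
    exact h this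
  have h4 : F.V p.1 p.2 = false := by
    by_contra h1
    simp only [Bool.not_eq_false] at h1
    exact h (hF.V _ _ h1).1
  rw [h1, h2, h3, h4] at hc
  simp at hc

theorem Good.in_of_deg {G : Hist} {F : Cfg} (hF : G.Good F) {p : ℤ × ℤ} (h : F.deg p ≠ 0) :
    G.In p := by
  by_contra hc
  exact h (hF.deg_out hc)

theorem Good.deg_cases {G : Hist} {F : Cfg} (hF : G.Good F) (p : ℤ × ℤ) :
    F.deg p = 0 ∨ F.deg p = 2 ∨ F.deg p = 4 := by
  have h1 := F.deg_le_four p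
  obtain ⟨k, hk⟩ := hF.even p
  omega

theorem Good.exists_rep {G : Hist} {F : Cfg} (hF : G.Good F) :
    ∃ R : Finset (ℤ × ℤ), R.card = F.c ∧ F.Rep R := by
  have : (G.Vs).card ∈ {k | ∃ R : Finset (ℤ × ℤ), R.card = k ∧ F.Rep R} :=
    ⟨G.Vs, rfl, fun p hp => ⟨p, (G.mem_Vs p).2 (hF.in_of_deg hp), Cfg.Reach.refl' F p⟩⟩
  exact Nat.sInf_mem (s := {k | ∃ R : Finset (ℤ × ℤ), R.card = k ∧ F.Rep R}) ⟨_, this⟩

theorem Good.one_le {G : Hist} {F : Cfg} (hF : G.Good F) {p : ℤ × ℤ} (h : F.deg p ≠ 0) :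
    1 ≤ p.1 := (hF.in_of_deg h).1

end Hist

end MP545
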