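import Pool.Agent.Lib.MP_545c5e_lc.Basic

/-! Existence of configurations of minimal potential and the ways in which minimality is used. -/

namespace MP545

open Finset

namespace Hist

/-- comparison of sums of two functions that differ only on `S` -/
theorem sum_le_of_change {α : Type*} [DecidableEq α] {V S : Finset α} (hS : S ⊆ V) {f g : α → ℕ}
    (hout : ∀ p ∈ V, p ∉ S → f p = g p) (h : ∑ p ∈ S, f p ≤ ∑ p ∈ S, g p) :
    ∑ p ∈ V, f p ≤ ∑ p ∈ V, g p := by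
  rw [← Finset.sum_sdiff hS, ← Finset.sum_sdiff hS]
  have : ∑ p ∈ V \ S, f p = ∑ p ∈ V \ S, g p :=
    Finset.sum_congr rfl fun p hp => hout p (Finset.mem_sdiff.mp hp).1 (Finset.mem_sdiff.mp hp).2
  omega

theorem sum_lt_of_change {α : Type*} [DecidableEq α] {V S : Finset α} (hS : S ⊆ V) {f g : α → ℕ}
    (hout : ∀ p ∈ V, p ∉ S → f p = g p) (h : ∑ p ∈ S, f p < ∑ p ∈ S, g p) :
    ∑ p ∈ V, f p < ∑ p ∈ V, g p := by
  rw [← Finset.sum_sdiff hS, ← Finset.sum_sdiff hS]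
  have : ∑ p ∈ V \ S, f p = ∑ p ∈ V \ S, g p :=
    Finset.sum_congr rfl fun p hp => hout p (Finset.mem_sdiff.mp hp).1 (Finset.mem_sdiff.mp hp).2
  omega

/-- The lexicographic order on the potentials is well founded; the empty configuration is
good. -/
theorem exists_minimal (G : Hist) : ∃ F, G.Minimal F := by
  have hne : ({x | ∃ F, G.Good F ∧ G.pot F = x} : Set (ℕ ×ₗ (ℕ ×ₗ (ℕ ×ₗ ℕ)))).Nonempty := by
    refine ⟨_, ⟨fun _ _ => false, fun _ _ => false⟩, ⟨?_, ?_, ?_⟩, rfl⟩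
    · intro r x h
      simp at h
    · intro r x h
      simp at h
    · intro p
      simp [Cfg.deg]
  obtain ⟨x, ⟨F, hF, rfl⟩, hx⟩ := (wellFounded_lt :
    WellFounded (α := ℕ ×ₗ (ℕ ×ₗ (ℕ ×ₗ ℕ))) (· < ·)).has_min _ hne
  exact ⟨F, hF, fun F' hF' => not_lt.mp (hx _ ⟨F', hF', rfl⟩)⟩

private theorem use_le_iff {G : Hist} {F F' : Cfg} : G.pot F ≤ G.pot F' ↔
    G.cost F < G.cost F' ∨ G.cost F = G.cost F' ∧ (F.c < F'.c ∨ F.c = F'.c ∧
      (F.lev < F'.lev ∨ F.lev = F'.lev ∧ G.W F ≤ G.W F')) := by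
  unfold pot
  rw [Prod.Lex.toLex_le_toLex]
  simp only
  rw [Prod.Lex.toLex_le_toLex]
  simp only
  rw [Prod.Lex.toLex_le_toLex]

theorem Minimal.cost_le {G : Hist} {F : Cfg} (hm : G.Minimal F) {F' : Cfg} (h : G.Good F') :
    G.cost F ≤ G.cost F' := by
  have := use_le_iff.mp (hm.min F' h)
  omega

theorem Minimal.use1 {G : Hist} {F : Cfg} (hm : G.Minimal F) {F' : Cfg} (h : G.Good F')
    (h1 : G.cost F' ≤ G.cost F) (h2 : F'.c < F.c) : False := by
  have := use_le_iff.mp (hm.min F' h)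
  omega

theorem Minimal.use2 {G : Hist} {F : Cfg} (hm : G.Minimal F) {F' : Cfg} (h : G.Good F')
    (h1 : G.cost F' ≤ G.cost F) (h2 : F'.c ≤ F.c) (h3 : F'.lev < F.lev) : False := by
  have := use_le_iff.mp (hm.min F' h)
  omega

theorem Minimal.use3 {G : Hist} {F : Cfg} (hm : G.Minimal F) {F' : Cfg} (h : G.Good F')
    (h1 : G.cost F' ≤ G.cost F) (h2 : F'.c ≤ F.c) (h3 : F'.c < F.c ∨ F'.lev ≤ F.lev)
    (h4 : G.W F' < G.W F) : False := by
  have := use_le_iff.mp (hm.min F' h)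
  omega

end Hist

end MP545
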