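import Pool.Agent.Lib.MP_545c5e_lc.Mirror1
import Pool.Agent.Lib.MP_545c5e_lc.Use

/-! Reflection of the columns, histograms. -/

namespace MP545

open Finset

namespace Hist

theorem mir_in (G : Hist) (p : ℤ × ℤ) : G.mir.In p ↔ G.In (p.1, -p.2) := Iff.rfl

theorem mir_good {G : Hist} {F : Cfg} (h : G.Good F) : G.mir.Good F.mir := by
  refine ⟨?_, ?_, ?_⟩
  · intro r x hx
    have h1 := h.H r (-x - 1) hx
    rw [mir_in, mir_in]
    have e : -x - 1 + 1 = -x := by ring
    have e' : -x - 1 = -(x + 1) := by ring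
    rw [e, e'] at h1
    exact ⟨h1.2, h1.1⟩
  · intro r x hx
    have h1 := h.V r (-x) hx
    rw [mir_in, mir_in]
    exact h1
  · intro p
    rw [Cfg.mir_deg]
    exact h.even _

private theorem Mirror_sum (G : Hist) (f : ℤ × ℤ → ℕ) :
    ∑ p ∈ G.mir.Vs, f (p.1, -p.2) = ∑ p ∈ G.Vs, f p := by
  refine Finset.sum_nbij' (fun p : ℤ × ℤ => (p.1, -p.2)) (fun p : ℤ × ℤ => (p.1, -p.2))
    ?_ ?_ ?_ ?_ ?_
  · intro p hp
    rw [mem_Vs] at hp ⊢
    exact (mir_in G p).1 hp
  · intro p hp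
    rw [mem_Vs] at hp ⊢
    rw [mir_in]
    simpa using hp
  · intro p _
    simp
  · intro p _
    simp
  · intro p _
    rfl

theorem mir_cost (G : Hist) (F : Cfg) : G.mir.cost F.mir = G.cost F := by
  unfold cost
  rw [← Mirror_sum G]
  refine Finset.sum_congr rfl fun p _ => ?_
  rw [Cfg.mir_deg]

private theorem Mirror_N (G : Hist) : G.mir.N = G.N := by
  unfold N
  refine Finset.sum_nbij' (fun x : ℤ => -x) (fun x : ℤ => -x) ?_ ?_ ?_ ?_ ?_
  · intro x hx
    rw [Finset.mem_Icc] at hx ⊢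
    have h1 : -G.hi ≤ x := hx.1
    have h2 : x ≤ -G.lo := hx.2
    constructor <;> omega
  · intro x hx
    rw [Finset.mem_Icc] at hx ⊢
    have h1 := hx.1
    have h2 := hx.2
    refine ⟨?_, ?_⟩
    · change -G.hi ≤ -x
      omega
    · change -x ≤ -G.lo
      omega
  · intro x _
    simp
  · intro x _
    simp
  · intro x _
    rfl

theorem mir_W (G : Hist) (F : Cfg) : G.mir.W F.mir = G.W F := by
  unfold W
  rw [← Mirror_sum G]
  refine Finset.sum_congr rfl fun p _ => ?_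
  rw [Cfg.mir_deg, Mirror_N]

private theorem Mirror_pot (G : Hist) (F : Cfg) : G.mir.pot F.mir = G.pot F := by
  unfold pot
  rw [mir_cost, mir_W, Cfg.mir_c, Cfg.mir_lev]

private theorem Mirror_mir (G : Hist) : G.mir.mir = G := by
  obtain ⟨lo, hi, h, a1, a2, a3, a4⟩ := G
  simp only [mir, neg_neg]

theorem Minimal.mir {G : Hist} {F : Cfg} (h : G.Minimal F) : G.mir.Minimal F.mir := by
  refine ⟨mir_good h.good, fun F' hF' => ?_⟩
  have h1 := mir_good hF'
  rw [Mirror_mir] at h1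
  have h2 := h.min _ h1
  rw [Mirror_pot]
  have h3 : G.pot F'.mir = G.mir.pot F' := by
    have h4 := Mirror_pot G.mir F'
    rw [Mirror_mir] at h4
    exact h4
  rw [← h3]
  exact h2

end Hist

theorem Ctx.mir {G : Hist} {F : Cfg} {a i : ℤ} (h : Ctx G F i a) :
    Ctx G.mir F.mir i (-(a + 1)) := by
  refine ⟨h.min.mir, ?_, ?_, h.three, ?_, ?_, ?_, h.lad.mir⟩
  · rw [Cfg.mir_conn]
    exact h.nconn
  · rw [Cfg.mir_lev]
    exact h.lev
  · intro p hp hd
    rw [Cfg.mir_deg] at hd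
    exact h.iso _ ((Hist.mir_in G p).1 hp) hd
  · intro p q hp hq hp1 hq1
    rw [Cfg.mir_deg] at hp hq
    rw [Cfg.mir_reach]
    exact h.above _ _ hp hq hp1 hq1
  · intro p hp hp1 hr
    rw [Cfg.mir_deg] at hp
    rw [Cfg.mir_reach] at hr
    simp only [neg_neg] at hr
    refine h.sep _ hp hp1 (hr.trans ?_)
    exact (Cfg.reach_H h.lad.capH).symm

end MP545
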