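import Pool.Agent.Lib.MP_545c5e_lc.Basic

/-! The configuration of the second stop. -/

namespace MP545

open Finset

theorem lad2_good {G : Hist} {F : Cfg} {a s i : ℤ} (hF : G.Good F) (hl : Lad F a s i)
    (hs : 3 ≤ s) (hH : F.H (s - 1) a = true) (h3 : F.deg (s - 1, a) = 2)
    (h4 : F.deg (s - 1, a + 1) = 2) (h5 : F.H (s - 2) a = true) :
    G.Good (F.lad2 a s i) ∧ ∀ p, (F.lad2 a s i).deg p = F.deg p := by
  have hsi := hl.lt
  have par := hl.par
  have e0 : s - 1 + 1 = s := by ring
  have e3 : s - 1 - 1 = s - 2 := by ring
  have v1 : F.V (s - 2) a = false := by
    rw [Cfg.deg_mk, hH, hl.T2 s le_rfl hsi par, e3] at h3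
    by_contra h
    rw [Bool.not_eq_false] at h
    rw [h] at h3
    simp only [Bool.toNat_true] at h3
    omega
  have v2 : F.V (s - 2) (a + 1) = false := by
    have e : a + 1 - 1 = a := by ring
    rw [Cfg.deg_mk, e, hH, hl.T6 s le_rfl hsi par, e3] at h4
    by_contra h
    rw [Bool.not_eq_false] at h
    rw [h] at h4
    simp only [Bool.toNat_true] at h4
    omega
  -- degrees
  have hdeg : ∀ p, (F.lad2 a s i).deg p = F.deg p := by
    rintro ⟨r, x⟩
    rw [Cfg.deg_mk, Cfg.deg_mk]
    simp only [Cfg.lad2, Cfg.ladK]
    by_cases hx : x = a
    · subst hx
      have n1 : ¬ (r = s - 2 ∧ x - 1 = x) := by rintro ⟨_, h⟩; omega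
      have n2 : ¬ (r = i ∧ x - 1 = x) := by rintro ⟨_, h⟩; omega
      rw [if_neg n1, if_neg n2]
      simp only [and_true, true_or, true_and]
      rcases lt_trichotomy r (s - 2) with h | h | h
      · rw [if_neg (by omega), if_neg (by omega), if_neg (by omega), if_neg (by omega),
          if_neg (by omega), if_neg (by omega), if_neg (by omega), if_neg (by omega)]
      · subst h
        rw [if_pos rfl, if_neg (by omega), if_neg (by omega), if_neg (by omega),
          if_neg (by omega), if_pos rfl, h5, v1]
        simp only [Bool.toNat_true, Bool.toNat_false] <;> omega
      · rcases lt_trichotomy r (s - 1) with h' | h' | h'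
        · omega
        · subst h'
          have t2 := hl.T2 s le_rfl hsi par
          rw [if_neg (by omega), if_neg (by omega), if_neg (by omega), if_pos (by omega),
            if_pos rfl, e3, v1, t2]
          simp only [Bool.toNat_true, Bool.toNat_false] <;> omega
        · rcases lt_trichotomy r s with h'' | h'' | h''
          · omega
          · subst h''
            have t2 := hl.T2 r le_rfl hsi par
            have t4 := hl.T4 r le_rfl hsi par
            rw [if_neg (by omega), if_neg (by omega), if_pos rfl, if_neg (by omega),
              if_neg (by omega), if_pos (by omega), t2, t4]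
            simp only [Bool.toNat_true, Bool.toNat_false, Bool.not_false] <;> omega
          · rcases lt_trichotomy r i with g | g | g
            · rw [if_neg (by omega), if_neg (by omega), if_neg (by omega), if_neg (by omega),
                if_pos (by omega), if_neg (by omega), if_neg (by omega), if_pos (by omega)]
              rcases Int.even_or_odd (i - r) with he | ho
              · have c2 := hl.C2 r h'' g he
                have t4 := hl.T4 (r - 1) (by omega) (by omega) (by
                  obtain ⟨k, hk⟩ := he; exact ⟨k, by omega⟩)
                rw [c2, t4]
                simp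
              · have t4 := hl.T4 r (by omega) g ho
                have t2 := hl.T2 r (by omega) g ho
                rw [t4, t2]
                simp
            · subst g
              have t4 := hl.T4 (r - 1) (by omega) (by omega) (by
                have : r - (r - 1) = 1 := by ring
                rw [this]; exact odd_one)
              rw [if_neg (by omega), if_pos rfl, if_neg (by omega), if_neg (by omega),
                if_pos (by omega), if_neg (by omega), if_neg (by omega), if_neg (by omega),
                hl.capH, t4]
              simp only [Bool.toNat_true, Bool.toNat_false, Bool.not_false] <;> omega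
            · rw [if_neg (by omega), if_neg (by omega), if_neg (by omega), if_neg (by omega),
                if_neg (by omega), if_neg (by omega), if_neg (by omega), if_neg (by omega)]
    · by_cases hx' : x = a + 1
      · subst hx'
        have e2 : a + 1 - 1 = a := by ring
        rw [e2]
        have n1 : ¬ (r = s - 2 ∧ a + 1 = a) := by rintro ⟨_, h⟩; omega
        have n2 : ¬ (r = i ∧ a + 1 = a) := by rintro ⟨_, h⟩; omega
        rw [if_neg n1, if_neg n2]
        simp only [and_true, or_true, true_and]
        rcases lt_trichotomy r (s - 2) with h | h | h
        · rw [if_neg (by omega), if_neg (by omega), if_neg (by omega), if_neg (by omega),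
            if_neg (by omega), if_neg (by omega), if_neg (by omega), if_neg (by omega)]
        · subst h
          rw [if_pos rfl, if_neg (by omega), if_neg (by omega), if_neg (by omega),
            if_neg (by omega), if_pos rfl, h5, v2]
          simp only [Bool.toNat_true, Bool.toNat_false] <;> omega
        · rcases lt_trichotomy r (s - 1) with h' | h' | h'
          · omega
          · subst h'
            have t2 := hl.T6 s le_rfl hsi par
            rw [if_neg (by omega), if_neg (by omega), if_neg (by omega), if_pos (by omega),
              if_pos rfl, e3, v2, t2]
            simp only [Bool.toNat_true, Bool.toNat_false] <;> omega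
          · rcases lt_trichotomy r s with h'' | h'' | h''
            · omega
            · subst h''
              have t2 := hl.T6 r le_rfl hsi par
              have t4 := hl.T7 r le_rfl hsi par
              rw [if_neg (by omega), if_neg (by omega), if_pos rfl, if_neg (by omega),
                if_neg (by omega), if_pos (by omega), t2, t4]
              simp only [Bool.toNat_true, Bool.toNat_false, Bool.not_false] <;> omega
            · rcases lt_trichotomy r i with g | g | g
              · rw [if_neg (by omega), if_neg (by omega), if_neg (by omega), if_neg (by omega),
                  if_pos (by omega), if_neg (by omega), if_neg (by omega), if_pos (by omega)]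
                rcases Int.even_or_odd (i - r) with he | ho
                · have c2 := hl.C3 r h'' g he
                  have t4 := hl.T7 (r - 1) (by omega) (by omega) (by
                    obtain ⟨k, hk⟩ := he; exact ⟨k, by omega⟩)
                  rw [c2, t4]
                  simp
                · have t4 := hl.T7 r (by omega) g ho
                  have t2 := hl.T6 r (by omega) g ho
                  rw [t4, t2]
                  simp
              · subst g
                have t4 := hl.T7 (r - 1) (by omega) (by omega) (by
                  have : r - (r - 1) = 1 := by ring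
                  rw [this]; exact odd_one)
                rw [if_neg (by omega), if_pos rfl, if_neg (by omega), if_neg (by omega),
                  if_pos (by omega), if_neg (by omega), if_neg (by omega), if_neg (by omega),
                  hl.capH, t4]
                simp only [Bool.toNat_true, Bool.toNat_false, Bool.not_false] <;> omega
              · rw [if_neg (by omega), if_neg (by omega), if_neg (by omega), if_neg (by omega),
                  if_neg (by omega), if_neg (by omega), if_neg (by omega), if_neg (by omega)]
      · have n1 : ∀ t : ℤ, ¬ (r = t ∧ x - 1 = a) := by rintro t ⟨_, h⟩; omega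
        have n2 : ∀ t : ℤ, ¬ (r = t ∧ x = a) := by rintro t ⟨_, h⟩; omega
        have n3 : ∀ P : Prop, ¬ (P ∧ (x = a ∨ x = a + 1)) := by rintro P ⟨_, h | h⟩ <;> omega
        have n4 : ∀ P : Prop, ¬ ((x = a ∨ x = a + 1) ∧ P) := by rintro P ⟨h | h, _⟩ <;> omega
        rw [if_neg (n1 _), if_neg (n1 _), if_neg (n2 _), if_neg (n2 _), if_neg (n3 _),
          if_neg (n3 _), if_neg (n4 _), if_neg (n3 _), if_neg (n3 _), if_neg (n4 _)]
  refine ⟨⟨?_, ?_, ?_⟩, hdeg⟩
  · intro r x h
    simp only [Cfg.lad2, Cfg.ladK] at h
    split_ifs at h with h1 h2
    exact hF.H r x h
  · intro r x h
    have i1 := (hF.V _ _ hl.capV).2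
    have i2 := (hF.V _ _ hl.capV').2
    simp only [Cfg.lad2, Cfg.ladK] at h
    split_ifs at h with h1 h2 h3'
    · obtain ⟨rfl, hx⟩ := h2
      rcases hx with rfl | rfl
      · exact ⟨Hist.in_up i1 (by omega) (by omega), Hist.in_up i1 (by omega) (by omega)⟩
      · exact ⟨Hist.in_up i2 (by omega) (by omega), Hist.in_up i2 (by omega) (by omega)⟩
    · obtain ⟨hx, hr1, hr2⟩ := h3'
      rcases hx with rfl | rfl
      · exact ⟨Hist.in_up i1 (by omega) (by omega), Hist.in_up i1 (by omega) (by omega)⟩
      · exact ⟨Hist.in_up i2 (by omega) (by omega), Hist.in_up i2 (by omega) (by omega)⟩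
    · exact hF.V r x h
  · intro p
    rw [hdeg]
    exact hF.even p

end MP545
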