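import Pool.Agent.Lib.MP_545c5e_lc.LadKT
import Pool.Agent.Lib.MP_545c5e_lc.LadDeg2
import Pool.Agent.Lib.MP_545c5e_lc.Abs
import Pool.Agent.Lib.MP_545c5e_lc.Use

/-! Second stop of a ladder. -/

namespace MP545

open Finset

/-- Otherwise `F' = F.lad2 a s i` has the same degrees as `F` and one component less: `mono`
with `ψ p = (s, p.2)` for `p = (s - 1, a), (s - 1, a + 1)` and `ψ = psi a s i` otherwise, and the
pair `(i - 1, a)`, `(i, a)`. -/
theorem stop2 {G : Hist} {F : Cfg} {a s i : ℤ} (hc : Ctx G F i a) (hl : Lad F a s i)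
    (hs : 3 ≤ s) (hH : F.H (s - 1) a = true) (h3 : F.deg (s - 1, a) = 2)
    (h4 : F.deg (s - 1, a + 1) = 2) : F.H (s - 2) a = false := by
  by_contra h5
  rw [Bool.not_eq_false] at h5
  have hsi := hl.lt
  have par := hl.par
  obtain ⟨hgood, hdeg⟩ := lad2_good hc.min.good hl hs hH h3 h4 h5
  have t2s := hl.T2 s le_rfl hsi par
  have t6s := hl.T6 s le_rfl hsi par
  set F' := F.lad2 a s i with hF'
  -- the edges at the cap
  have hedge : F.H (s - 1) (a + 1) = false ∧ F.V (s - 1 - 1) (a + 1) = false := by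
    rw [Cfg.deg_mk] at h4
    have e : a + 1 - 1 = a := by ring
    rw [e, hH, t6s] at h4
    constructor
    · by_contra h
      rw [Bool.not_eq_false] at h
      rw [h] at h4
      simp only [Bool.toNat_true] at h4
      omega
    · by_contra h
      rw [Bool.not_eq_false] at h
      rw [h] at h4
      simp only [Bool.toNat_true] at h4
      omega
  have hedge' : F.H (s - 1) (a - 1) = false ∧ F.V (s - 1 - 1) a = false := by
    rw [Cfg.deg_mk] at h3
    rw [hH, t2s] at h3
    constructor
    · by_contra h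
      rw [Bool.not_eq_false] at h
      rw [h] at h3
      simp only [Bool.toNat_true] at h3
      omega
    · by_contra h
      rw [Bool.not_eq_false] at h
      rw [h] at h3
      simp only [Bool.toNat_true] at h3
      omega
  have e0 : s - 1 + 1 = s := by ring
  have e2 : s - 2 + 1 = s - 1 := by ring
  have e3 : s - 1 - 1 = s - 2 := by ring
  have hkH : ∀ r x, s < r → F'.H r x = (F.ladK a s i).H r x := by
    intro r x hr
    rw [hF']
    simp only [Cfg.lad2]
    rw [if_neg (by omega)]
  have hkV : ∀ r x, s ≤ r → F'.V r x = (F.ladK a s i).V r x := by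
    intro r x hr
    rw [hF']
    simp only [Cfg.lad2]
    rw [if_neg (by omega), if_neg (by omega)]
  obtain ⟨t1, t2, t3, t4, t5⟩ := ladK_transfer hc hl (by omega) F' hkH hkV
  have dia : F.deg (i, a) ≠ 0 := (Cfg.deg_ne_of_H hl.capH).1
  have oddi : Odd (i - (i - 1)) := by
    have : i - (i - 1) = 1 := by ring
    rw [this]; exact odd_one
  have dim : F.deg (i - 1, a) ≠ 0 := by
    have := (Cfg.deg_ne_of_V (hl.T2 (i - 1) (by omega) (by omega) oddi)).2
    have e : i - 1 - 1 + 1 = i - 1 := by ring
    rwa [e] at this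
  have hDs : F'.Reach (s, a) (s, a + 1) := t1 s le_rfl hsi par
  -- new edges
  have n1 : F'.Reach (s - 2, a) (s - 1, a) := by
    have : F'.V (s - 2) a = true := by
      rw [hF']
      simp [Cfg.lad2]
    have h := Cfg.reach_V this
    rwa [e2] at h
  have n2 : F'.Reach (s - 2, a + 1) (s - 1, a + 1) := by
    have : F'.V (s - 2) (a + 1) = true := by
      rw [hF']
      simp [Cfg.lad2]
    have h := Cfg.reach_V this
    rwa [e2] at h
  have n3 : F'.Reach (s - 1, a) (s - 1, a + 1) := by
    apply Cfg.reach_H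
    rw [hF']
    simp only [Cfg.lad2, Cfg.ladK]
    rw [if_neg (by omega), if_neg (by omega)]
    exact hH
  have hpair : F'.Reach (s - 2, a) (s - 2, a + 1) := (n1.trans n3).trans n2.symm
  -- the map
  let ψ : ℤ × ℤ → ℤ × ℤ :=
    fun p => if p.1 = s - 1 ∧ (p.2 = a ∨ p.2 = a + 1) then (s, p.2) else psi a s i p
  have ψcap : ∀ x, (x = a ∨ x = a + 1) → ψ (s - 1, x) = (s, x) := by
    intro x hx
    exact if_pos ⟨rfl, hx⟩
  have ψne : ∀ r x, ¬ (r = s - 1 ∧ (x = a ∨ x = a + 1)) → ψ (r, x) = psi a s i (r, x) :=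
    fun r x hp => if_neg hp
  have psiup : ∀ r x, r ≤ s → psi a s i (r, x) = (r, x) := by
    intro r x hr
    exact psi_fix (by rintro ⟨_, h, _⟩; omega)
  have ψup : ∀ r x, r ≤ s → ¬ (r = s - 1 ∧ (x = a ∨ x = a + 1)) → ψ (r, x) = (r, x) := by
    intro r x hr hne
    rw [ψne _ _ hne, psiup r x hr]
  have ψlow : ∀ r x, s ≤ r → ψ (r, x) = psi a s i (r, x) := by
    intro r x hr
    apply ψne
    rintro ⟨h, _⟩
    omega
  -- edges above
  have upH : ∀ r x, r ≤ s → ¬ (r = s - 2 ∧ x = a) → F.H r x = true → F'.H r x = true := by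
    intro r x hr h1 h
    rw [hF']
    simp only [Cfg.lad2, Cfg.ladK]
    rw [if_neg h1, if_neg (by omega)]
    exact h
  have upV : ∀ r x, r < s → ¬ (r = s - 1 ∧ (x = a ∨ x = a + 1)) → F.V r x = true →
      F'.V r x = true := by
    intro r x hr h1 h
    rw [hF']
    simp only [Cfg.lad2, Cfg.ladK]
    rw [if_neg h1]
    split_ifs with h2 h3
    · rfl
    · omega
    · exact h
  have keyH : ∀ r x, F.H r x = true → F'.Reach (ψ (r, x)) (ψ (r, x + 1)) := by
    intro r x h
    by_cases hr : s < r
    · rw [ψlow r x (by omega), ψlow r (x + 1) (by omega)]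
      exact t3 r x hr h
    · by_cases hex : r = s - 2 ∧ x = a
      · obtain ⟨rfl, rfl⟩ := hex
        rw [ψup _ _ (by omega) (by omega), ψup _ _ (by omega) (by omega)]
        exact hpair
      · by_cases hcp : r = s - 1 ∧ x = a
        · obtain ⟨rfl, rfl⟩ := hcp
          rw [ψcap _ (Or.inl rfl), ψcap _ (Or.inr rfl)]
          exact hDs
        · rw [ψup r x (by omega), ψup r (x + 1) (by omega)]
          · exact Cfg.reach_H (upH r x (by omega) hex h)
          · rintro ⟨rfl, h1 | h1⟩
            · have : x = a - 1 := by omega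
              rw [this, hedge'.1] at h
              exact absurd h (by simp)
            · exact hcp ⟨rfl, by omega⟩
          · rintro ⟨rfl, h1 | h1⟩
            · exact hcp ⟨rfl, h1⟩
            · rw [h1, hedge.1] at h
              exact absurd h (by simp)
  have keyV : ∀ r x, F.V r x = true → F'.Reach (ψ (r, x)) (ψ (r + 1, x)) := by
    intro r x h
    by_cases hr : s ≤ r
    · rw [ψlow r x hr, ψlow (r + 1) x (by omega)]
      exact t4 r x hr h
    · by_cases hex : r = s - 1 ∧ (x = a ∨ x = a + 1)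
      · obtain ⟨rfl, hx⟩ := hex
        rw [ψcap x hx, e0, ψlow s _ le_rfl, psiup s _ le_rfl]
        exact Cfg.Reach.refl' _ _
      · rw [ψup r x (by omega) hex, ψup (r + 1) x (by omega)]
        · exact Cfg.reach_V (upV r x (by omega) hex h)
        · rintro ⟨h1, h2 | h2⟩
          · have : r = s - 1 - 1 := by omega
            rw [this, h2, hedge'.2] at h
            exact absurd h (by simp)
          · have : r = s - 1 - 1 := by omega
            rw [this, h2, hedge.2] at h
            exact absurd h (by simp)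
  have hm := mono (F' := F') hc.min.good ψ ?_ ?_
  · refine hc.min.use1 hgood (Finset.sum_le_sum fun p _ => by rw [hdeg p])
      (hm.2 (i - 1, a) (i, a) dim dia (hc.sep _ dim (by simp only; omega)) ?_)
    rw [ψlow _ _ (by omega), ψlow _ _ (by omega), psi_fix, psi_fix]
    · exact t2
    · rintro ⟨_, _, h, _⟩; omega
    · rintro ⟨_, _, _, m, hm⟩; omega
  · rintro ⟨r, x⟩ ⟨r', x'⟩ hadj
    rcases hadj with ⟨h, e⟩ | ⟨h, e⟩ | ⟨h, e⟩ | ⟨h, e⟩ <;> simp only [Prod.mk.injEq] at e h <;>
      obtain ⟨rfl, rfl⟩ := e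
    · exact keyH _ _ h
    · exact (keyH _ _ h).symm
    · exact keyV _ _ h
    · exact (keyV _ _ h).symm
  · rintro ⟨r, x⟩ hp
    rw [hdeg] at hp
    by_cases hcap : (x = a ∨ x = a + 1) ∧ s < r ∧ r < i ∧ Even (i - r)
    · obtain ⟨hx, h1, h2, h3⟩ := hcap
      have h5 := t5 r h1 h2 h3
      have hev := h3
      obtain ⟨k, hk⟩ := h3
      have ho : Odd (i - (r - 1)) := ⟨k, by omega⟩
      have e : r - 1 - 1 + 1 = r - 1 := by ring
      refine ⟨(r - 1, x), ?_, ?_⟩
      · rcases hx with rfl | rfl
        · have := (Cfg.deg_ne_of_V (hl.T2 (r - 1) (by omega) (by omega) ho)).2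
          rwa [e] at this
        · have := (Cfg.deg_ne_of_V (hl.T6 (r - 1) (by omega) (by omega) ho)).2
          rwa [e] at this
      · rw [ψlow _ _ (by omega), psi_fix]
        · rcases hx with rfl | rfl
          · exact h5.1
          · exact h5.2
        · rintro ⟨_, _, _, m, hm⟩
          omega
    · by_cases hcp : r = s - 1 ∧ (x = a ∨ x = a + 1)
      · obtain ⟨rfl, hx⟩ := hcp
        have hd := (Cfg.deg_ne_of_H h5)
        refine ⟨(s - 2, x), ?_, ?_⟩
        · rcases hx with rfl | rfl
          · exact hd.1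
          · exact hd.2
        · rw [ψup _ _ (by omega) (by omega)]
          rcases hx with rfl | rfl
          · exact n1
          · exact n2
      · exact ⟨(r, x), hp, by rw [ψne _ _ hcp, psi_fix hcap]; exact Cfg.Reach.refl' _ _⟩

end MP545
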