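import Pool.Agent.Lib.MP_545c5e_lc.LadKT
import Pool.Agent.Lib.MP_545c5e_lc.LadDeg3
import Pool.Agent.Lib.MP_545c5e_lc.Abs
import Pool.Agent.Lib.MP_545c5e_lc.Use

/-! Third stop of a ladder. -/

namespace MP545

open Finset

/-- Otherwise the degree is four, and `F' = F.lad3 a s i` has cost at most that of `F`: the
degree of `(s - 1, a)` goes from 4 to 2 and that of `(s - 1, a + 1)` from 2 to 0 or from 4 to 2
(in the latter case the cost decreases, a contradiction).
`split_lev` with `ψ = psi a s i` except that `(s - 1, a + 1)` goes to `(s, a + 1)`,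
`A = (s, a)`, `B = (i, a)`, `p = (s - 1, a)`, `q = (s, a)`. -/
theorem stop3 {G : Hist} {F : Cfg} {a s i : ℤ} (hc : Ctx G F i a) (hl : Lad F a s i)
    (hs : 2 ≤ s) (hH : F.H (s - 1) a = true) : F.deg (s - 1, a) = 2 := by
  by_contra hne
  have hsi := hl.lt
  have par := hl.par
  obtain ⟨hgood, hd1, hd2, hdeg⟩ := lad3_good hc.min.good hl hs hH
  have h4 : F.deg (s - 1, a) = 4 := by
    have := hc.min.good.deg_cases (s - 1, a)
    omega
  have in1 : G.In (s - 1, a) := hc.min.good.in_of_deg (by omega)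
  have t2s := hl.T2 s le_rfl hsi par
  have t6s := hl.T6 s le_rfl hsi par
  have dpa' : F.deg (s - 1, a + 1) ≠ 0 := (Cfg.deg_ne_of_V t6s).1
  have in2 : G.In (s - 1, a + 1) := hc.min.good.in_of_deg dpa'
  have hne12 : ((s - 1, a) : ℤ × ℤ) ≠ (s - 1, a + 1) := by
    intro h; simp at h
  set F' := F.lad3 a s i with hF'
  have hS : ({(s - 1, a), (s - 1, a + 1)} : Finset (ℤ × ℤ)) ⊆ G.Vs := by
    intro p hp
    simp only [Finset.mem_insert, Finset.mem_singleton] at hp
    rw [G.mem_Vs]
    rcases hp with rfl | rfl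
    · exact in1
    · exact in2
  have hsame : ∀ p ∈ G.Vs, p ∉ ({(s - 1, a), (s - 1, a + 1)} : Finset (ℤ × ℤ)) →
      (if F'.deg p = 2 then 0 else 1) = (if F.deg p = 2 then 0 else 1) := by
    intro p _ hp
    simp only [Finset.mem_insert, Finset.mem_singleton, not_or] at hp
    rw [hdeg p hp.1 hp.2]
  have hd2' : F.deg (s - 1, a + 1) = 2 := by
    by_contra h2
    have h4' : F.deg (s - 1, a + 1) = 4 := by
      have := hc.min.good.deg_cases (s - 1, a + 1)
      omega
    have hlt : G.cost F' < G.cost F := by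
      refine Hist.sum_lt_of_change hS hsame ?_
      rw [Finset.sum_pair hne12, Finset.sum_pair hne12, if_pos (by omega), if_pos (by omega),
        if_neg (by omega), if_neg (by omega)]
      omega
    have := hc.min.cost_le hgood
    omega
  have hcost : G.cost F' ≤ G.cost F := by
    refine Hist.sum_le_of_change hS hsame ?_
    rw [Finset.sum_pair hne12, Finset.sum_pair hne12, if_pos (by omega), if_neg (by omega),
      if_neg (by omega), if_pos (by omega)]
  have hz : F'.deg (s - 1, a + 1) = 0 := by omega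
  -- the four edges at `(s - 1, a + 1)`
  have hedge : F.H (s - 1) (a + 1) = false ∧ F.V (s - 1 - 1) (a + 1) = false := by
    rw [Cfg.deg_mk] at hd2'
    have e : a + 1 - 1 = a := by ring
    rw [e, hH, t6s] at hd2'
    constructor
    · by_contra h
      rw [Bool.not_eq_false] at h
      rw [h] at hd2'
      simp only [Bool.toNat_true] at hd2'
      omega
    · by_contra h
      rw [Bool.not_eq_false] at h
      rw [h] at hd2'
      simp only [Bool.toNat_true] at hd2'
      omega
  have e0 : s - 1 + 1 = s := by ring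
  have hkH : ∀ r x, s < r → F'.H r x = (F.ladK a s i).H r x := by
    intro r x hr
    rw [hF']
    simp only [Cfg.lad3]
    rw [if_neg (by omega)]
  have hkV : ∀ r x, s ≤ r → F'.V r x = (F.ladK a s i).V r x := by
    intro r x hr
    rw [hF']
    simp only [Cfg.lad3]
    rw [if_neg (by omega)]
  obtain ⟨t1, t2, t3, t4, t5⟩ := ladK_transfer hc hl hs F' hkH hkV
  have dsa : F.deg (s, a) ≠ 0 := by
    have := (Cfg.deg_ne_of_V t2s).2
    rwa [e0] at this
  have dia : F.deg (i, a) ≠ 0 := (Cfg.deg_ne_of_H hl.capH).1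
  have oddi : Odd (i - (i - 1)) := by
    have : i - (i - 1) = 1 := by ring
    rw [this]; exact odd_one
  have dim : F.deg (i - 1, a) ≠ 0 := by
    have := (Cfg.deg_ne_of_V (hl.T2 (i - 1) (by omega) (by omega) oddi)).2
    have e : i - 1 - 1 + 1 = i - 1 := by ring
    rwa [e] at this
  have hDs : F'.Reach (s, a) (s, a + 1) := t1 s le_rfl hsi par
  -- the map
  let ψ : ℤ × ℤ → ℤ × ℤ := fun p => if p = (s - 1, a + 1) then (s, a + 1) else psi a s i p
  have ψsp : ψ (s - 1, a + 1) = (s, a + 1) := by simp only [ψ, if_true]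
  have ψne : ∀ p, p ≠ (s - 1, a + 1) → ψ p = psi a s i p := fun p hp => if_neg hp
  have psiup : ∀ r x, r ≤ s → psi a s i (r, x) = (r, x) := by
    intro r x hr
    exact psi_fix (by rintro ⟨_, h, _⟩; omega)
  have ψup : ∀ r x, r ≤ s → (r, x) ≠ (s - 1, a + 1) → ψ (r, x) = (r, x) := by
    intro r x hr hne
    rw [ψne _ hne, psiup r x hr]
  have ψlow : ∀ r x, s ≤ r → ψ (r, x) = psi a s i (r, x) := by
    intro r x hr
    apply ψne
    intro h
    rw [Prod.mk.injEq] at h
    omega
  -- edges above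
  have upH : ∀ r x, r ≤ s → ¬ (r = s - 1 ∧ x = a) → F.H r x = true → F'.H r x = true := by
    intro r x hr h1 h
    rw [hF']
    simp only [Cfg.lad3, Cfg.ladK]
    rw [if_neg h1, if_neg (by omega)]
    exact h
  have upV : ∀ r x, r < s → ¬ (r = s - 1 ∧ (x = a ∨ x = a + 1)) → F.V r x = true →
      F'.V r x = true := by
    intro r x hr h1 h
    rw [hF']
    simp only [Cfg.lad3, Cfg.ladK]
    rw [if_neg h1, if_neg (by omega)]
    exact h
  have hAx : ∀ p : ℤ × ℤ, F.deg p ≠ 0 → p.1 < i → F.Reach (s, a) p := fun p hp hpi =>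
    hc.above (s, a) p dsa hp (by simpa using hsi) hpi
  have keyH : ∀ r x, F.H r x = true →
      F'.Reach (ψ (r, x)) (ψ (r, x + 1)) ∨ (r = s - 1 ∧ x = a) := by
    intro r x h
    by_cases hr : s < r
    · refine Or.inl ?_
      rw [ψlow r x (by omega), ψlow r (x + 1) (by omega)]
      exact t3 r x hr h
    · by_cases hex : r = s - 1 ∧ x = a
      · exact Or.inr hex
      · refine Or.inl ?_
        rw [ψup r x (by omega), ψup r (x + 1) (by omega)]
        · exact Cfg.reach_H (upH r x (by omega) hex h)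
        · intro h'
          rw [Prod.mk.injEq] at h'
          exact hex ⟨h'.1, by omega⟩
        · intro h'
          rw [Prod.mk.injEq] at h'
          obtain ⟨rfl, rfl⟩ := h'
          rw [hedge.1] at h
          exact absurd h (by simp)
  have keyV : ∀ r x, F.V r x = true →
      F'.Reach (ψ (r, x)) (ψ (r + 1, x)) ∨ (r = s - 1 ∧ x = a) := by
    intro r x h
    by_cases hr : s ≤ r
    · refine Or.inl ?_
      rw [ψlow r x hr, ψlow (r + 1) x (by omega)]
      exact t4 r x hr h
    · by_cases hex : r = s - 1 ∧ x = a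
      · exact Or.inr hex
      · refine Or.inl ?_
        by_cases hex' : r = s - 1 ∧ x = a + 1
        · obtain ⟨rfl, rfl⟩ := hex'
          rw [ψsp, e0, ψlow s _ le_rfl, psiup s _ le_rfl]
          exact Cfg.Reach.refl' _ _
        · rw [ψup r x (by omega), ψup (r + 1) x (by omega)]
          · exact Cfg.reach_V (upV r x (by omega) (by
              rintro ⟨h1, h2 | h2⟩
              · exact hex ⟨h1, h2⟩
              · exact hex' ⟨h1, h2⟩) h)
          · intro h'
            rw [Prod.mk.injEq] at h'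
            obtain ⟨h1, rfl⟩ := h'
            have e : r = s - 1 - 1 := by omega
            rw [e, hedge.2] at h
            exact absurd h (by simp)
          · intro h'
            rw [Prod.mk.injEq] at h'
            exact hex' h'
  have ψpa : ψ (s - 1, a) = (s - 1, a) := ψup _ _ (by omega) hne12
  have ψsa : ψ (s, a) = (s, a) := by rw [ψlow s _ le_rfl, psiup s _ le_rfl]
  have hfin := split_lev hc.min.good hgood ψ (s, a) (i, a) (s - 1, a) (s, a)
    dsa dia (hc.sep _ dsa (by simpa using hsi)) ?_ ?_ ?_ (i - 1, a) ?_ ?_ ?_ ?_ ?_ ?_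
  · rcases hfin with h | ⟨h1, h2⟩
    · exact hc.min.use1 hgood hcost h
    · exact hc.min.use2 hgood hcost h1 h2
  · rintro ⟨r, x⟩ ⟨r', x'⟩ hadj
    rcases hadj with ⟨h, e⟩ | ⟨h, e⟩ | ⟨h, e⟩ | ⟨h, e⟩ <;> simp only [Prod.mk.injEq] at e h <;>
      obtain ⟨rfl, rfl⟩ := e
    · rcases keyH _ _ h with h' | ⟨rfl, rfl⟩
      · exact Or.inl h'
      · refine Or.inr ⟨hAx _ (Cfg.deg_ne_of_H h).1 (by simp only; omega), Or.inl ?_, Or.inr ?_⟩
        · rw [ψpa]; exact Cfg.Reach.refl' _ _
        · rw [ψsp]; exact hDs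
    · rcases keyH _ _ h with h' | ⟨rfl, rfl⟩
      · exact Or.inl h'.symm
      · refine Or.inr ⟨hAx _ (Cfg.deg_ne_of_H h).2 (by simp only; omega), Or.inr ?_, Or.inl ?_⟩
        · rw [ψsp]; exact hDs
        · rw [ψpa]; exact Cfg.Reach.refl' _ _
    · rcases keyV _ _ h with h' | ⟨rfl, rfl⟩
      · exact Or.inl h'
      · refine Or.inr ⟨hAx _ (Cfg.deg_ne_of_V h).1 (by simp only; omega), Or.inl ?_, Or.inr ?_⟩
        · rw [ψpa]; exact Cfg.Reach.refl' _ _
        · rw [e0, ψsa]; exact Cfg.Reach.refl' _ _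
    · rcases keyV _ _ h with h' | ⟨rfl, rfl⟩
      · exact Or.inl h'.symm
      · refine Or.inr ⟨hAx _ (Cfg.deg_ne_of_V h).2 (by simp only; omega), Or.inr ?_, Or.inl ?_⟩
        · rw [e0, ψsa]; exact Cfg.Reach.refl' _ _
        · rw [ψpa]; exact Cfg.Reach.refl' _ _
  · rintro ⟨r, x⟩ hp
    have hnz : ((r, x) : ℤ × ℤ) ≠ (s - 1, a + 1) := by
      intro h
      rw [h] at hp
      exact hp hz
    have hp' : F.deg (r, x) ≠ 0 := by
      by_cases h1 : ((r, x) : ℤ × ℤ) = (s - 1, a)
      · rw [h1]; omega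
      · rw [← hdeg _ h1 hnz]; exact hp
    by_cases hcap : (x = a ∨ x = a + 1) ∧ s < r ∧ r < i ∧ Even (i - r)
    · obtain ⟨hx, h1, h2, h3⟩ := hcap
      have h5 := t5 r h1 h2 h3
      have hev := h3
      obtain ⟨k, hk⟩ := h3
      have ho : Odd (i - (r - 1)) := ⟨k, by omega⟩
      have e : r - 1 - 1 + 1 = r - 1 := by ring
      refine ⟨(r - 1, x), ?_, ?_⟩
      · rcases hx with rfl | rfl
        · have := (Cfg.deg_ne_of_V (hl.T2 (r - 1) (by omega) (by omega) ho)).2
          rwa [e] at this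
        · have := (Cfg.deg_ne_of_V (hl.T6 (r - 1) (by omega) (by omega) ho)).2
          rwa [e] at this
      · rw [ψlow _ _ (by omega), psi_fix]
        · rcases hx with rfl | rfl
          · exact h5.1
          · exact h5.2
        · rintro ⟨_, _, _, m, hm⟩
          omega
    · exact ⟨(r, x), hp', by rw [ψne _ hnz, psi_fix hcap]; exact Cfg.Reach.refl' _ _⟩
  · refine Or.inr ?_
    rw [ψsa]
    exact Cfg.Reach.refl' _ _
  · exact hAx _ dim (by simp only; omega)
  · rw [ψlow _ _ (by omega), ψlow _ _ (by omega), psi_fix, psi_fix]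
    · exact t2
    · rintro ⟨_, _, h, _⟩; omega
    · rintro ⟨_, _, _, m, hm⟩; omega
  · omega
  · rw [hdeg]
    · exact dsa
    · intro h; rw [Prod.mk.injEq] at h; omega
    · intro h; rw [Prod.mk.injEq] at h; omega
  · have := hc.lev
    simp only; omega
  · have := hc.lev
    simp only; omega

end MP545
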