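import Pool.Agent.Lib.MP_545c5e_lc.Stop1
import Pool.Agent.Lib.MP_545c5e_lc.Stop2
import Pool.Agent.Lib.MP_545c5e_lc.Stop3
import Pool.Agent.Lib.MP_545c5e_lc.Mirror

/-! Ladders reach the first row. -/

namespace MP545

open Finset

private theorem ladder_row {G : Hist} {F : Cfg} {a s i : ℤ} (hc : Ctx G F i a)
    (hl : Lad F a s i) (hs : 2 ≤ s) :
    (F.H (s - 1) a = true ∧ F.V (s - 1) a = true ∧ F.V (s - 1) (a + 1) = true ∧
      F.H (s - 1) (a - 1) = false ∧ F.H (s - 1) (a + 1) = false) ∧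
    (F.V (s - 2) a = false ∧ F.V (s - 2) (a + 1) = false) ∧
    (F.deg (s - 1, a) = 2 ∧ F.deg (s - 1, a + 1) = 2) := by
  have h1 := stop1 hc hl hs
  have h3 := stop3 hc hl hs h1
  have hlt := hl.lt
  have hm : F.mir.H (s - 1) (-(a + 1)) = true := by
    show F.H (s - 1) (-(-(a + 1)) - 1) = true
    have e : -(-(a + 1)) - 1 = a := by ring
    rw [e]; exact h1
  have h4 := stop3 hc.mir hl.mir hs hm
  rw [Cfg.mir_deg] at h4
  have e : ((s - 1, -(a + 1)) : ℤ × ℤ).1 = s - 1 := rfl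
  have e' : (-((s - 1, -(a + 1)) : ℤ × ℤ).2) = a + 1 := by simp
  rw [e, e'] at h4
  have hT2 := hl.T2 s le_rfl hlt hl.par
  have hT6 := hl.T6 s le_rfl hlt hl.par
  have h5 := h3
  have h6 := h4
  rw [Cfg.deg_mk, h1, hT2] at h5
  rw [Cfg.deg_mk, show a + 1 - 1 = a by ring, h1, hT6] at h6
  have e2 : s - 1 - 1 = s - 2 := by ring
  rw [e2] at h5 h6
  refine ⟨⟨h1, hT2, hT6, ?_, ?_⟩, ⟨?_, ?_⟩, h3, h4⟩
  · cases hx : F.H (s - 1) (a - 1)
    · rfl
    · rw [hx] at h5
      simp only [Bool.toNat_true] at h5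
      omega
  · cases hx : F.H (s - 1) (a + 1)
    · rfl
    · rw [hx] at h6
      simp only [Bool.toNat_true] at h6
      omega
  · cases hx : F.V (s - 2) a
    · rfl
    · rw [hx] at h5
      simp only [Bool.toNat_true] at h5
      omega
  · cases hx : F.V (s - 2) (a + 1)
    · rfl
    · rw [hx] at h6
      simp only [Bool.toNat_true] at h6
      omega

private theorem ladder_step {G : Hist} {F : Cfg} {a s i : ℤ} (hc : Ctx G F i a)
    (hl : Lad F a s i) (hs : 3 ≤ s) : 4 ≤ s ∧ Lad F a (s - 2) i := by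
  obtain ⟨⟨r1, r2, r3, r4, r5⟩, ⟨u1, u2⟩, d1, d2⟩ := ladder_row hc hl (by omega)
  have h2 := stop2 hc hl hs r1 d1 d2
  have hlt := hl.lt
  have hg := hc.min.good
  have hcap := hg.H _ _ hl.capH
  have hin1 : G.In (s - 2, a) := Hist.in_up hcap.1 (by omega) (by omega)
  have hin2 : G.In (s - 2, a + 1) := Hist.in_up hcap.2 (by omega) (by omega)
  have hd1 : F.deg (s - 2, a) ≠ 0 := by
    intro h0
    have := hc.iso _ hin1 h0
    have h5 := hcap.1.2
    simp only at this h5
    omega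
  have hd2 : F.deg (s - 2, a + 1) ≠ 0 := by
    intro h0
    have := hc.iso _ hin2 h0
    have h5 := hcap.2.2
    simp only at this h5
    omega
  have e1 := hg.even (s - 2, a)
  have e2 := hg.even (s - 2, a + 1)
  rw [Cfg.deg_mk, h2, u1] at hd1 e1
  rw [Cfg.deg_mk, show a + 1 - 1 = a by ring, h2, u2] at hd2 e2
  have e3 : s - 2 - 1 = s - 3 := by ring
  rw [e3] at hd1 e1 hd2 e2
  have T1 : F.H (s - 2) (a - 1) = true ∧ F.V (s - 3) a = true := by
    cases hx : F.H (s - 2) (a - 1) <;> cases hy : F.V (s - 3) a <;>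
      rw [hx, hy] at hd1 e1 <;> simp at hd1 e1 ⊢
  have T5 : F.H (s - 2) (a + 1) = true ∧ F.V (s - 3) (a + 1) = true := by
    cases hx : F.H (s - 2) (a + 1) <;> cases hy : F.V (s - 3) (a + 1) <;>
      rw [hx, hy] at hd2 e2 <;> simp at hd2 e2 ⊢
  have h4 : 4 ≤ s := by
    have := (hg.V _ _ T1.2).1.1
    simp only at this
    omega
  have hpar := hl.par
  refine ⟨h4, ?_⟩
  have key : ∀ r, s - 2 ≤ r → Odd (i - r) → r = s - 2 ∨ s ≤ r := by
    intro r hr ho
    by_cases h : r = s - 1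
    · exfalso
      obtain ⟨k, hk⟩ := hpar
      obtain ⟨l, hl⟩ := ho
      omega
    · omega
  have key' : ∀ r, s - 2 < r → Even (i - r) → r = s - 1 ∨ s < r := by
    intro r hr he
    by_cases h : r = s
    · exfalso
      obtain ⟨k, hk⟩ := hpar
      obtain ⟨l, hl⟩ := he
      omega
    · omega
  refine ⟨by omega, ?_, hl.capH, hl.capV, hl.capV', hl.capL, hl.capR, ?_, ?_, ?_, ?_, ?_, ?_, ?_,
    ?_, ?_, ?_, ?_, ?_⟩
  · obtain ⟨k, hk⟩ := hpar
    exact ⟨k + 1, by omega⟩
  · intro r ha hb ho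
    rcases key r ha ho with rfl | h
    · exact T1.1
    · exact hl.T1 r h hb ho
  · intro r ha hb ho
    rcases key r ha ho with rfl | h
    · rw [e3]; exact T1.2
    · exact hl.T2 r h hb ho
  · intro r ha hb ho
    rcases key r ha ho with rfl | h
    · exact h2
    · exact hl.T3 r h hb ho
  · intro r ha hb ho
    rcases key r ha ho with rfl | h
    · exact u1
    · exact hl.T4 r h hb ho
  · intro r ha hb ho
    rcases key r ha ho with rfl | h
    · exact T5.1
    · exact hl.T5 r h hb ho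
  · intro r ha hb ho
    rcases key r ha ho with rfl | h
    · rw [e3]; exact T5.2
    · exact hl.T6 r h hb ho
  · intro r ha hb ho
    rcases key r ha ho with rfl | h
    · exact u2
    · exact hl.T7 r h hb ho
  · intro r ha hb ho
    rcases key' r ha ho with rfl | h
    · exact r1
    · exact hl.C1 r h hb ho
  · intro r ha hb ho
    rcases key' r ha ho with rfl | h
    · exact r2
    · exact hl.C2 r h hb ho
  · intro r ha hb ho
    rcases key' r ha ho with rfl | h
    · exact r3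
    · exact hl.C3 r h hb ho
  · intro r ha hb ho
    rcases key' r ha ho with rfl | h
    · exact r4
    · exact hl.C4 r h hb ho
  · intro r ha hb ho
    rcases key' r ha ho with rfl | h
    · exact r5
    · exact hl.C5 r h hb ho

/-- By induction on `s` (downwards from `i - 1`), `Lad F a s i` for all `s ≥ 2` with `i - s`
odd, by `stop1`, `stop3` and its reflection, `stop2`. The last row is a row of caps, so `i` is
odd. -/
theorem ladder {G : Hist} {F : Cfg} {a i : ℤ} (hc : Ctx G F i a) : Full F a i := by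
  have main : ∀ n : ℕ, ∀ s : ℤ, s = (n : ℤ) + 2 → Lad F a s i → Lad F a 2 i := by
    intro n
    induction n using Nat.strong_induction_on with
    | _ n ih =>
      intro s hs hl
      by_cases h : s = 2
      · rw [h] at hl; exact hl
      · obtain ⟨h4, h5⟩ := ladder_step hc hl (by omega)
        exact ih (n - 2) (by omega) (s - 2) (by omega) h5
  have hthree := hc.three
  have hl : Lad F a 2 i := main (i - 3).toNat (i - 1) (by omega) hc.lad
  obtain ⟨⟨r1, r2, r3, r4, r5⟩, -, -⟩ := ladder_row hc hl le_rfl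
  have e : (2 : ℤ) - 1 = 1 := by norm_num
  rw [e] at r1 r2 r3 r4 r5
  have hodd : Odd i := by
    obtain ⟨k, hk⟩ := hl.par
    exact ⟨k + 1, by omega⟩
  have key : ∀ r : ℤ, Even r → Odd (i - r) := fun r hr => hodd.sub_even hr
  have key' : ∀ r : ℤ, Odd r → Even (i - r) := fun r hr => hodd.sub_odd hr
  have key2 : ∀ r : ℤ, 1 ≤ r → r ≤ i → Odd r → r = 1 ∨ r = i ∨ (2 < r ∧ r < i) := by
    intro r h1 h2 h3
    obtain ⟨k, hk⟩ := h3
    omega
  refine ⟨hodd, ?_, ?_, ?_, ?_, ?_, ?_, ?_, ?_, ?_, ?_, ?_, ?_⟩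
  · exact fun r h1 h2 h3 => hl.T1 r h1 h2 (key r h3)
  · exact fun r h1 h2 h3 => hl.T2 r h1 h2 (key r h3)
  · exact fun r h1 h2 h3 => hl.T3 r h1 h2 (key r h3)
  · exact fun r h1 h2 h3 => hl.T4 r h1 h2 (key r h3)
  · exact fun r h1 h2 h3 => hl.T5 r h1 h2 (key r h3)
  · exact fun r h1 h2 h3 => hl.T6 r h1 h2 (key r h3)
  · exact fun r h1 h2 h3 => hl.T7 r h1 h2 (key r h3)
  · intro r h1 h2 h3
    rcases key2 r h1 h2 h3 with rfl | rfl | ⟨h4, h5⟩
    · exact r1
    · exact hl.capH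
    · exact hl.C1 r h4 h5 (key' r h3)
  · intro r h1 h2 h3
    rcases key2 r h1 h2 h3 with rfl | rfl | ⟨h4, h5⟩
    · exact r2
    · exact hl.capV
    · exact hl.C2 r h4 h5 (key' r h3)
  · intro r h1 h2 h3
    rcases key2 r h1 h2 h3 with rfl | rfl | ⟨h4, h5⟩
    · exact r3
    · exact hl.capV'
    · exact hl.C3 r h4 h5 (key' r h3)
  · intro r h1 h2 h3
    rcases key2 r h1 h2 h3 with rfl | rfl | ⟨h4, h5⟩
    · exact r4
    · exact hl.capL
    · exact hl.C4 r h4 h5 (key' r h3)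
  · intro r h1 h2 h3
    rcases key2 r h1 h2 h3 with rfl | rfl | ⟨h4, h5⟩
    · exact r5
    · exact hl.capR
    · exact hl.C5 r h4 h5 (key' r h3)

end MP545
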