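import Pool.Agent.Lib.MP_545c5e_lc.Stop4
import Pool.Agent.Lib.MP_545c5e_lc.Ladder

/-! The column to the left of a ladder. -/

namespace MP545

open Finset

private theorem colL_step {G : Hist} {F : Cfg} {a i : ℤ} (hc : Ctx G F i a) (hf : Full F a i)
    {r : ℤ} (h1 : 1 ≤ r) (h2 : r + 2 ≤ i) (ho : Odd r) (hup : F.V (r - 1) (a - 1) = false) :
    F.V r (a - 1) = true ∧ F.H r (a - 2) = true ∧ F.V (r + 1) (a - 1) = false ∧
      F.H (r + 1) (a - 2) = false := by
  have hgood := hc.min.good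
  have he : Even (r + 1) := ho.add_one
  have t1 : F.H (r + 1) (a - 1) = true := hf.T1 (r + 1) (by omega) (by omega) he
  have hin : G.In (r + 1, a - 1) := (hgood.H _ _ t1).1
  have hin' : G.In (r, a - 1) := Hist.in_up hin h1 (by omega)
  have e2 : a - 1 - 1 = a - 2 := by ring
  have hd : F.deg (r, a - 1) ≠ 0 := by
    intro h0
    have h3 := hc.iso _ hin' h0
    have h4 := hin.2
    simp only at h3 h4
    omega
  have c4 : F.H r (a - 1) = false := hf.C4 r h1 (by omega) ho
  have hev := hgood.even (r, a - 1)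
  rw [Cfg.deg_mk, e2, c4, hup] at hd hev
  have b1 : F.H r (a - 2) = true ∧ F.V r (a - 1) = true := by
    cases hx : F.H r (a - 2) <;> cases hy : F.V r (a - 1) <;> rw [hx, hy] at hd hev <;>
      simp at hd hev ⊢
  have s4 := stop4 hc hf h1 h2 ho b1.2
  have e1 : r + 1 - 1 = r := by ring
  rw [Cfg.deg_mk, e2, e1, t1, b1.2] at s4
  refine ⟨b1.2, b1.1, ?_, ?_⟩
  · cases hy : F.V (r + 1) (a - 1)
    · rfl
    · rw [hy] at s4
      simp at s4
  · cases hy : F.H (r + 1) (a - 2)
    · rfl
    · rw [hy] at s4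
      simp at s4
      omega

private theorem colL_aux {G : Hist} {F : Cfg} {a i : ℤ} (hc : Ctx G F i a) (hf : Full F a i)
    (k : ℕ) : ∀ r : ℤ, r = 2 * (k : ℤ) + 1 → r + 2 ≤ i →
      F.V r (a - 1) = true ∧ F.H r (a - 2) = true ∧ F.V (r - 1) (a - 1) = false ∧
      F.V (r + 1) (a - 1) = false ∧ F.H (r + 1) (a - 2) = false := by
  induction k with
  | zero =>
    intro r hr h2
    have hr1 : r = 1 := by simpa using hr
    subst hr1
    have hup : F.V (1 - 1) (a - 1) = false := by
      by_contra hx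
      simp only [Bool.not_eq_false] at hx
      have := (hc.min.good.V _ _ hx).1.1
      simp at this
    obtain ⟨x1, x2, x3, x4⟩ := colL_step hc hf le_rfl h2 (by decide) hup
    exact ⟨x1, x2, hup, x3, x4⟩
  | succ k ih =>
    intro r hr h2
    push_cast at hr
    obtain ⟨-, -, -, y4, -⟩ := ih (r - 2) (by omega) (by omega)
    have e : r - 2 + 1 = r - 1 := by ring
    rw [e] at y4
    obtain ⟨x1, x2, x3, x4⟩ := colL_step hc hf (by omega) h2 ⟨(k : ℤ) + 1, by omega⟩ y4
    exact ⟨x1, x2, y4, x3, x4⟩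

/-- Induction on `r = 1, 3, ..., i - 2`: the point `(r, a - 1)` exists and is not the last one
of its column, as `(r + 1, a - 1)` exists, so it is not isolated; the edges to the right and up
are not used, so it goes left and down; then `(r + 1, a - 1)` has the edges up and right, and
degree 2 by `stop4`. -/
theorem colL {G : Hist} {F : Cfg} {a i : ℤ} (hc : Ctx G F i a) (hf : Full F a i) :
    (∀ r, 1 ≤ r → r + 2 ≤ i → Odd r →
      F.V r (a - 1) = true ∧ F.H r (a - 2) = true ∧ F.V (r - 1) (a - 1) = false) ∧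
    (∀ r, 2 ≤ r → r < i → Even r →
      F.V (r - 1) (a - 1) = true ∧ F.V r (a - 1) = false ∧ F.H r (a - 2) = false) := by
  constructor
  · intro r h1 h2 ho
    obtain ⟨m, hm⟩ := ho
    obtain ⟨x1, x2, x3, -, -⟩ := colL_aux hc hf m.toNat r (by omega) h2
    exact ⟨x1, x2, x3⟩
  · intro r h1 h2 he
    obtain ⟨m, hm⟩ := he
    obtain ⟨n, hn⟩ := hf.odd
    obtain ⟨x1, -, -, x4, x5⟩ := colL_aux hc hf (m - 1).toNat (r - 1) (by omega) (by omega)
    have e : r - 1 + 1 = r := by ring
    rw [e] at x4 x5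
    exact ⟨x1, x4, x5⟩

end MP545
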