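import Pool.Agent.Lib.MP_545c5e_lc.Basic

/-! Parity of cuts and absence of bridges. -/

namespace MP545

open Finset

private def cut_nbr (p : ℤ × ℤ) : Fin 4 → ℤ × ℤ :=
  ![(p.1, p.2 - 1), (p.1, p.2 + 1), (p.1 - 1, p.2), (p.1 + 1, p.2)]

private def cut_ed (F : Cfg) (p : ℤ × ℤ) : Fin 4 → Bool :=
  ![F.H p.1 (p.2 - 1), F.H p.1 p.2, F.V (p.1 - 1) p.2, F.V p.1 p.2]

private lemma cut_out (F : Cfg) (K : Finset (ℤ × ℤ)) (p : ℤ × ℤ) :
    F.out K p = ∑ d, if cut_nbr p d ∈ K then 0 else (cut_ed F p d).toNat := by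
  simp only [Fin.sum_univ_four, Cfg.out]
  change _ = (if (p.1, p.2 - 1) ∈ K then 0 else (F.H p.1 (p.2 - 1)).toNat)
    + (if (p.1, p.2 + 1) ∈ K then 0 else (F.H p.1 p.2).toNat)
    + (if (p.1 - 1, p.2) ∈ K then 0 else (F.V (p.1 - 1) p.2).toNat)
    + (if (p.1 + 1, p.2) ∈ K then 0 else (F.V p.1 p.2).toNat)
  split_ifs <;> rfl

private lemma cut_nbr_inj (p : ℤ × ℤ) : Function.Injective (cut_nbr p) := by
  intro i j h
  fin_cases i <;> fin_cases j <;> simp [cut_nbr] at h ⊢ <;> omega

private lemma cut_adj (F : Cfg) (p q : ℤ × ℤ) :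
    F.Adj p q ↔ ∃ d, cut_ed F p d = true ∧ q = cut_nbr p d := by
  obtain ⟨r, x⟩ := p
  obtain ⟨r', x'⟩ := q
  constructor
  · rintro (⟨h, e⟩ | ⟨h, e⟩ | ⟨h, e⟩ | ⟨h, e⟩)
    · exact ⟨1, h, e⟩
    · simp only [Prod.mk.injEq] at e h
      obtain ⟨rfl, rfl⟩ := e
      refine ⟨0, ?_, ?_⟩
      · simp only [cut_ed, Matrix.cons_val_zero]
        have e : x' + 1 - 1 = x' := by ring
        rw [e]; exact h
      · simp [cut_nbr]
    · exact ⟨3, h, e⟩
    · simp only [Prod.mk.injEq] at e h
      obtain ⟨rfl, rfl⟩ := e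
      refine ⟨2, ?_, ?_⟩
      · change F.V (r' + 1 - 1) x = true
        have e : r' + 1 - 1 = r' := by ring
        rw [e]; exact h
      · change (r', x) = (r' + 1 - 1, x)
        simp
  · rintro ⟨d, h, e⟩
    fin_cases d
    · refine Or.inr (Or.inl ?_)
      change F.H r (x - 1) = true at h
      change (r', x') = (r, x - 1) at e
      simp only [Prod.mk.injEq] at e
      obtain ⟨rfl, rfl⟩ := e
      exact ⟨h, by simp⟩
    · exact Or.inl ⟨h, e⟩
    · refine Or.inr (Or.inr (Or.inr ?_))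
      change F.V (r - 1) x = true at h
      change (r', x') = (r - 1, x) at e
      simp only [Prod.mk.injEq] at e
      obtain ⟨rfl, rfl⟩ := e
      exact ⟨h, by simp⟩
    · exact Or.inr (Or.inr (Or.inl ⟨h, e⟩))

private lemma cut_shift (K : Finset (ℤ × ℤ)) (f : ℤ × ℤ → ℕ) (a b : ℤ) :
    ∑ p ∈ K, (if (p.1 - a, p.2 - b) ∈ K then f (p.1 - a, p.2 - b) else 0) =
      ∑ p ∈ K, (if (p.1 + a, p.2 + b) ∈ K then f p else 0) := by
  rw [← Finset.sum_filter, ← Finset.sum_filter]
  refine Finset.sum_nbij' (fun p => (p.1 - a, p.2 - b)) (fun p => (p.1 + a, p.2 + b)) ?_ ?_ ?_ ?_ ?_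
  · intro p hp
    rw [Finset.mem_filter] at hp ⊢
    refine ⟨hp.2, ?_⟩
    have e : ((p.1 - a, p.2 - b).1 + a, (p.1 - a, p.2 - b).2 + b) = p := by
      ext <;> simp
    rw [e]; exact hp.1
  · intro p hp
    rw [Finset.mem_filter] at hp ⊢
    refine ⟨hp.2, ?_⟩
    have e : ((p.1 + a, p.2 + b).1 - a, (p.1 + a, p.2 + b).2 - b) = p := by
      ext <;> simp
    rw [e]; exact hp.1
  · intro p _
    ext <;> simp
  · intro p _
    ext <;> simp
  · intro p _
    rfl

/-- The number of edges of an even configuration between a finite set `K` and its complement is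
even. (Sum of the degrees over `K`; every edge inside `K` is counted twice.) -/
theorem cut_parity (F : Cfg) (he : ∀ p, Even (F.deg p)) (K : Finset (ℤ × ℤ)) :
    Even (∑ p ∈ K, F.out K p) := by
  have h1 : ∑ p ∈ K, F.deg p = ∑ p ∈ K, F.out K p +
      (∑ p ∈ K, (if (p.1 - 0, p.2 - 1) ∈ K then (F.H (p.1 - 0, p.2 - 1).1 (p.1 - 0, p.2 - 1).2).toNat else 0) +
        ∑ p ∈ K, (if (p.1 + 0, p.2 + 1) ∈ K then (F.H p.1 p.2).toNat else 0) +
        ∑ p ∈ K, (if (p.1 - 1, p.2 - 0) ∈ K then (F.V (p.1 - 1, p.2 - 0).1 (p.1 - 1, p.2 - 0).2).toNat else 0) +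
        ∑ p ∈ K, (if (p.1 + 1, p.2 + 0) ∈ K then (F.V p.1 p.2).toNat else 0)) := by
    rw [← Finset.sum_add_distrib, ← Finset.sum_add_distrib, ← Finset.sum_add_distrib,
      ← Finset.sum_add_distrib]
    apply Finset.sum_congr rfl
    intro p _
    unfold Cfg.deg Cfg.out
    simp only [sub_zero, add_zero]
    split_ifs <;> omega
  have h2 := cut_shift K (fun p => (F.H p.1 p.2).toNat) 0 1
  have h3 := cut_shift K (fun p => (F.V p.1 p.2).toNat) 1 0
  have h4 : Even (∑ p ∈ K, F.deg p) := Finset.even_sum _ (fun p _ => he p)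
  rw [h1, h2, h3] at h4
  rw [Nat.even_add] at h4
  apply h4.2
  refine ⟨∑ p ∈ K, (if (p.1 + 0, p.2 + 1) ∈ K then (F.H p.1 p.2).toNat else 0) +
    ∑ p ∈ K, (if (p.1 + 1, p.2 + 0) ∈ K then (F.V p.1 p.2).toNat else 0), ?_⟩
  ring

/-- An edge `u v` of an even subgraph is not a bridge: if the endpoints of all other edges of
the component of `u` are joined in `F'` then `u` and `v` are joined in `F'`. (Otherwise let `K`
be the set of points `x` of the component of `u` in `F` with `F'.Reach u x`; the only edge of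
`F` between `K` and its complement is `u v`, which contradicts `cut_parity`.) -/
theorem nobridge {G : Hist} {F : Cfg} (hF : G.Good F) {u v : ℤ × ℤ} (huv : F.Adj u v)
    (F' : Cfg) (hk : ∀ x y, F.Adj x y → F.Reach u x → ¬ (x = u ∧ y = v) → ¬ (x = v ∧ y = u) →
      F'.Reach x y) : F'.Reach u v := by
  classical
  by_contra hcon
  obtain ⟨K, hK⟩ : ∃ K, K = G.Vs.filter (fun x => F.Reach u x ∧ F'.Reach u x) := ⟨_, rfl⟩
  have hmem : ∀ x, x ∈ K ↔ G.In x ∧ F.Reach u x ∧ F'.Reach u x := by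
    intro x
    rw [hK, Finset.mem_filter, G.mem_Vs]
  have huK : u ∈ K := by
    rw [hmem]
    exact ⟨hF.in_of_deg huv.deg_ne.1, Cfg.Reach.refl' F u, Cfg.Reach.refl' F' u⟩
  have hvK : v ∉ K := by
    rw [hmem]
    rintro ⟨_, _, h⟩
    exact hcon h
  have hedge : ∀ p ∈ K, ∀ q, q ∉ K → F.Adj p q → p = u ∧ q = v := by
    intro p hp q hq hpq
    have hp' := (hmem p).1 hp
    by_contra hne
    apply hq
    rw [hmem]
    refine ⟨hF.in_of_deg hpq.deg_ne.2, hp'.2.1.trans hpq.reach, hp'.2.2.trans ?_⟩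
    apply hk p q hpq hp'.2.1 hne
    rintro ⟨h, _⟩
    rw [h] at hp
    exact hvK hp
  have hpar := cut_parity F hF.even K
  have hsum : ∑ p ∈ K, F.out K p = 1 := by
    rw [Finset.sum_eq_single u]
    · obtain ⟨d, hd, hv⟩ := (cut_adj F u v).1 huv
      rw [cut_out, Finset.sum_eq_single d]
      · rw [← hv, if_neg hvK, hd]; rfl
      · intro d' _ hd'
        split_ifs with h
        · rfl
        · by_contra hne
          have h1 : cut_ed F u d' = true := by
            by_contra h2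
            simp only [Bool.not_eq_true] at h2
            rw [h2] at hne
            exact hne rfl
          have h2 := hedge u huK _ h ((cut_adj F u _).2 ⟨d', h1, rfl⟩)
          rw [hv] at h2
          exact hd' (cut_nbr_inj u h2.2)
      · intro h
        exact absurd (Finset.mem_univ _) h
    · intro p hp hpu
      rw [cut_out]
      apply Finset.sum_eq_zero
      intro d' _
      split_ifs with h
      · rfl
      · by_contra hne
        have h1 : cut_ed F p d' = true := by
          by_contra h2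
          simp only [Bool.not_eq_true] at h2
          rw [h2] at hne
          exact hne rfl
        exact hpu (hedge p hp _ h ((cut_adj F p _).2 ⟨d', h1, rfl⟩)).1
    · intro h
      exact absurd huK h
  rw [hsum] at hpar
  exact absurd hpar (by decide)

end MP545
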