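import Pool.Agent.Lib.MP_545c5e_lc.Ladder
import Pool.Agent.Lib.MP_545c5e_lc.Cut

/-! The height of a tie is divisible by four. -/

namespace MP545

open Finset

private theorem tie_count (m : ℕ) :
    ∑ r ∈ Finset.Icc (1 : ℤ) (2 * (m : ℤ)), (if Odd r then 1 else 0 : ℕ) = m := by
  induction m with
  | zero => simp
  | succ m ih =>
    have h1 : Finset.Icc (1 : ℤ) (2 * ((m + 1 : ℕ) : ℤ)) =
        insert (2 * (m : ℤ) + 1) (insert (2 * (m : ℤ) + 2) (Finset.Icc (1 : ℤ) (2 * (m : ℤ)))) := by
      ext r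
      simp only [Finset.mem_Icc, Finset.mem_insert]
      push_cast
      omega
    rw [h1, Finset.sum_insert, Finset.sum_insert, ih]
    · rw [if_pos ⟨(m : ℤ), rfl⟩, if_neg]
      · omega
      · rw [Int.not_odd_iff_even]
        exact ⟨(m : ℤ) + 1, by ring⟩
    · simp only [Finset.mem_Icc]
      omega
    · simp only [Finset.mem_Icc, Finset.mem_insert]
      omega

/-- `cut_parity` for the set of the points of the columns up to `x0` that lie in the rows below
`i` in the column `x0`: the edges that leave this set are `(r, x0)`, `(r, x0 + 1)` for `r` odd,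
`r < i`. -/
theorem tie_parity {G : Hist} {F : Cfg} {x0 i : ℤ} (hc : Ctx G F i x0)
    (hh : G.h (x0 - 1) = i - 1) : 4 ∣ i - 1 := by
  classical
  have hgood := hc.min.good
  have hf := ladder hc
  have h3 := hc.three
  have hlad := hc.lad
  have hcol : i + 1 ≤ G.h x0 := (hgood.V _ _ hlad.capV).2.2
  set K : Finset (ℤ × ℤ) := G.Vs.filter (fun p => p.2 < x0 ∨ (p.2 = x0 ∧ p.1 < i)) with hK
  have memK : ∀ r x : ℤ, (r, x) ∈ K ↔ G.In (r, x) ∧ (x < x0 ∨ (x = x0 ∧ r < i)) := by
    intro r x
    rw [hK, Finset.mem_filter, G.mem_Vs]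
  have hpar := cut_parity F hgood.even K
  -- the four kinds of terms
  have tL : ∀ r x : ℤ, (r, x) ∈ K →
      (if (r, x - 1) ∈ K then 0 else (F.H r (x - 1)).toNat) = 0 := by
    intro r x hx
    split_ifs with h
    · rfl
    · cases hH : F.H r (x - 1)
      · rfl
      · exfalso
        apply h
        rw [memK] at hx ⊢
        exact ⟨(hgood.H _ _ hH).1, by omega⟩
  have tU : ∀ r x : ℤ, (r, x) ∈ K →
      (if (r - 1, x) ∈ K then 0 else (F.V (r - 1) x).toNat) = 0 := by
    intro r x hx
    split_ifs with h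
    · rfl
    · cases hH : F.V (r - 1) x
      · rfl
      · exfalso
        apply h
        rw [memK] at hx ⊢
        exact ⟨(hgood.V _ _ hH).1, by omega⟩
  have tD : ∀ r x : ℤ, (r, x) ∈ K →
      (if (r + 1, x) ∈ K then 0 else (F.V r x).toNat) = 0 := by
    intro r x hx
    split_ifs with h
    · rfl
    · cases hH : F.V r x
      · rfl
      · exfalso
        apply h
        rw [memK] at hx ⊢
        refine ⟨(hgood.V _ _ hH).2, ?_⟩
        rcases hx.2 with h5 | ⟨h5, h6⟩
        · exact Or.inl h5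
        · refine Or.inr ⟨h5, ?_⟩
          by_contra h7
          have h8 : r = i - 1 := by omega
          rw [h8, h5, hlad.T4 (i - 1) le_rfl (by omega) ⟨0, by ring⟩] at hH
          cases hH
  have tR : ∀ r x : ℤ, (r, x) ∈ K → x < x0 →
      (if (r, x + 1) ∈ K then 0 else (F.H r x).toNat) = 0 := by
    intro r x hx hlt
    split_ifs with h
    · rfl
    · cases hH : F.H r x
      · rfl
      · exfalso
        apply h
        rw [memK] at hx ⊢
        refine ⟨(hgood.H _ _ hH).2, ?_⟩
        rcases lt_or_ge (x + 1) x0 with h5 | h5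
        · exact Or.inl h5
        · have h6 : x = x0 - 1 := by omega
          have h7 := hx.1.2
          simp only at h7
          rw [h6, hh] at h7
          exact Or.inr ⟨by omega, by omega⟩
  have tR' : ∀ r : ℤ, 1 ≤ r → r < i →
      (if (r, x0 + 1) ∈ K then 0 else (F.H r x0).toNat) = if Odd r then 1 else 0 := by
    intro r h1 h2
    rw [if_neg]
    · rcases Int.even_or_odd r with he | ho
      · rw [if_neg (by rw [Int.not_odd_iff_even]; exact he)]
        obtain ⟨m, hm⟩ := he
        rw [hf.T3 r (by omega) h2 ⟨m, hm⟩]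
        rfl
      · rw [if_pos ho, hf.C1 r h1 h2.le ho]
        rfl
    · rw [memK]
      omega
  set K' : Finset (ℤ × ℤ) := (Finset.Icc (1 : ℤ) (i - 1)).image (fun r => (r, x0)) with hK'
  have hsub : K' ⊆ K := by
    intro p hp
    rw [hK', Finset.mem_image] at hp
    obtain ⟨r, hr, rfl⟩ := hp
    rw [Finset.mem_Icc] at hr
    rw [memK]
    exact ⟨⟨hr.1, by show r ≤ G.h x0; omega⟩, by omega⟩
  have hzero : ∀ p ∈ K, p ∉ K' → F.out K p = 0 := by
    rintro ⟨r, x⟩ hp hp'
    have hlt : x < x0 := by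
      rw [memK] at hp
      rcases hp.2 with h | ⟨h, h'⟩
      · exact h
      · exfalso
        apply hp'
        rw [hK', Finset.mem_image]
        have h1 := hp.1.1
        simp only at h1
        exact ⟨r, Finset.mem_Icc.2 ⟨h1, by omega⟩, by rw [h]⟩
    unfold Cfg.out
    simp only
    rw [tL r x hp, tR r x hp hlt, tU r x hp, tD r x hp]
  have hsum : ∑ p ∈ K, F.out K p = ∑ r ∈ Finset.Icc (1 : ℤ) (i - 1), (if Odd r then 1 else 0 : ℕ) := by
    rw [← Finset.sum_subset hsub hzero, hK', Finset.sum_image]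
    · refine Finset.sum_congr rfl fun r hr => ?_
      rw [Finset.mem_Icc] at hr
      have hp : (r, x0) ∈ K := by
        rw [memK]
        exact ⟨⟨hr.1, by show r ≤ G.h x0; omega⟩, by omega⟩
      unfold Cfg.out
      simp only
      rw [tL r x0 hp, tR' r hr.1 (by omega), tU r x0 hp, tD r x0 hp]
      omega
    · intro r _ r' _ h
      simp only [Prod.mk.injEq] at h
      exact h.1
  obtain ⟨m, hm⟩ := hf.odd
  have hi : i - 1 = 2 * ((m.toNat : ℕ) : ℤ) := by omega
  rw [hsum, hi, tie_count] at hpar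
  obtain ⟨k, hk⟩ := hpar
  rw [hi, hk]
  exact ⟨(k : ℤ), by push_cast; ring⟩

end MP545
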