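import Pool.Agent.Lib.MP_545c5e_lc.DescL
import Pool.Agent.Lib.MP_545c5e_lc.TieParity

/-! The main combinatorial theorem. -/

namespace MP545

open Finset

/-- An even subgraph of minimal potential is connected, or there is a tie, with no edge of the
configuration between the tie and the rest. -/
theorem core {G : Hist} {F : Cfg} (hm : G.Minimal F) :
    F.Conn ∨ ∃ x0 x1, G.Tie x0 x1 ∧ ∀ x, x0 ≤ x → x ≤ x1 → F.V (G.h (x0 - 1)) x = false := by
  by_cases hn : F.Conn
  · exact Or.inl hn
  refine Or.inr ?_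
  obtain ⟨a, hc⟩ := exists_ctx hm hn
  obtain ⟨x0, hx0, ev0, hh0, hc0, hall0⟩ := descL hc
  obtain ⟨y0, hy0, ev1, hh1, hc1, hall1⟩ := descL hc.mir
  have h3 := hc.three
  have hh1' : G.h (-(y0 - 1)) = (F.lev : ℤ) - 1 := hh1
  have e1 : -(y0 - 1) = -y0 + 1 := by ring
  rw [e1] at hh1'
  obtain ⟨k, hk⟩ := ev0
  obtain ⟨l, hl⟩ := ev1
  refine ⟨x0, -y0, ⟨by omega, ⟨k + l, by omega⟩, by omega, ?_, by omega, ?_⟩, ?_⟩
  · rw [hh0]
    exact tie_parity hc0 hh0
  · intro x h1 h2
    by_cases hx : x ≤ a + 1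
    · have := (hall0 x h1 hx).1
      omega
    · have := (hall1 (-x) (by omega) (by omega)).1
      have e : G.mir.h (-x) = G.h x := by
        show G.h (- -x) = G.h x
        rw [neg_neg]
      rw [e] at this
      omega
  · intro x h1 h2
    rw [hh0]
    by_cases hx : x ≤ a + 1
    · exact (hall0 x h1 hx).2
    · have := (hall1 (-x) (by omega) (by omega)).2
      have e : F.mir.V ((F.lev : ℤ) - 1) (-x) = F.V ((F.lev : ℤ) - 1) x := by
        show F.V ((F.lev : ℤ) - 1) (- -x) = _
        rw [neg_neg]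
      rw [e] at this
      exact this

end MP545
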