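import Pool.Agent.Lib.MP_545c5e_lc.Basic

/-! The two histograms into which a tie divides a histogram. -/

namespace MP545

open Finset

namespace Hist

/-- a tie is inside the histogram -/
theorem Tie.inside {G : Hist} {x0 x1 : ℤ} (h : G.Tie x0 x1) {x : ℤ} (h0 : x0 - 1 ≤ x)
    (h1 : x ≤ x1 + 1) : G.lo ≤ x ∧ x ≤ G.hi := by
  apply G.col_of_pos
  obtain ⟨t1, t2, t3, t4, t5, t6⟩ := h
  by_cases hx : x0 ≤ x
  · by_cases hx' : x ≤ x1
    · have := t6 x hx hx'
      omega
    · have e : x = x1 + 1 := by omega
      rw [e]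
      omega
  · have e : x = x0 - 1 := by omega
    rw [e]
    exact t3

/-- the histogram with the columns of a tie shortened -/
def cutUp (G : Hist) (x0 x1 : ℤ) (ht : G.Tie x0 x1) : Hist where
  lo := G.lo
  hi := G.hi
  h := fun x => if x0 ≤ x ∧ x ≤ x1 then G.h (x0 - 1) else G.h x
  lt := G.lt
  out := fun x hx => by
    split_ifs with hc
    · have := ht.inside (x := x) (by omega) (by omega)
      omega
    · exact G.out x hx
  two := fun x h1 h2 => by
    split_ifs with hc
    · obtain ⟨_, _, t3, t4, _, _⟩ := ht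
      omega
    · exact G.two x h1 h2
  two_conn := fun x => by
    obtain ⟨t1, t2, t3, t4, t5, t6⟩ := ht
    have hx := G.two_conn x
    by_cases c0 : x0 ≤ x ∧ x ≤ x1
    · rw [if_pos c0]
      by_cases c1 : x0 ≤ x - 1
      · rw [if_pos ⟨c1, by omega⟩]
        exact le_max_left _ _
      · have e : x = x0 := by omega
        subst e
        rw [if_neg (by omega)]
        exact le_max_left _ _
    · rw [if_neg c0]
      by_cases c1 : x0 ≤ x - 1 ∧ x - 1 ≤ x1
      · have e : x = x1 + 1 := by omega
        subst e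
        rw [if_pos c1, t5]
        exact le_max_left _ _
      · rw [if_neg c1]
        by_cases c2 : x0 ≤ x + 1 ∧ x + 1 ≤ x1
        · have e : x = x0 - 1 := by omega
          subst e
          rw [if_pos c2]
          exact le_max_right _ _
        · rw [if_neg c2]
          exact hx

/-- the part of the histogram that hangs from a tie, moved up -/
def cutDown (G : Hist) (x0 x1 : ℤ) (ht : G.Tie x0 x1) : Hist where
  lo := x0
  hi := x1
  h := fun x => if x0 ≤ x ∧ x ≤ x1 then G.h x - G.h (x0 - 1) else 0
  lt := ht.1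
  out := fun x hx => by rw [if_neg (by omega)]
  two := fun x h1 h2 => by
    rw [if_pos ⟨h1, h2⟩]
    have := ht.2.2.2.2.2 x h1 h2
    omega
  two_conn := fun x => by
    obtain ⟨t1, t2, t3, t4, t5, t6⟩ := ht
    have nn : ∀ y, 0 ≤ (if x0 ≤ y ∧ y ≤ x1 then G.h y - G.h (x0 - 1) else 0) := by
      intro y
      split_ifs with hy
      · have := t6 y hy.1 hy.2
        omega
      · exact le_rfl
    by_cases c0 : x0 ≤ x ∧ x ≤ x1
    · have hx := G.two_conn x
      have h0 := t6 x c0.1 c0.2
      rw [if_pos c0]
      rcases le_max_iff.1 hx with hx | hx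
      · have c1 : x0 ≤ x - 1 := by
          by_contra hc
          have e : x = x0 := by omega
          subst e
          omega
        rw [if_pos (show x0 ≤ x - 1 ∧ x - 1 ≤ x1 by omega)]
        exact le_trans (by omega) (le_max_left _ _)
      · have c1 : x + 1 ≤ x1 := by
          by_contra hc
          have e : x = x1 := by omega
          subst e
          omega
        rw [if_pos (show x0 ≤ x + 1 ∧ x + 1 ≤ x1 by omega)]
        exact le_trans (by omega) (le_max_right _ _)
    · rw [if_neg c0]
      exact le_trans (nn (x - 1)) (le_max_left _ _)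

open Classical in
/-- the set of the ties -/
noncomputable def ties (G : Hist) : Finset (ℤ × ℤ) :=
  ((Finset.Icc G.lo G.hi) ×ˢ (Finset.Icc G.lo G.hi)).filter fun p => G.Tie p.1 p.2

theorem mem_ties (G : Hist) (x0 x1 : ℤ) : (x0, x1) ∈ G.ties ↔ G.Tie x0 x1 := by
  unfold ties
  simp only [Finset.mem_filter, Finset.mem_product, Finset.mem_Icc]
  constructor
  · exact fun h => h.2
  · intro h
    have h1 := h.1
    exact ⟨⟨h.inside (by omega) (by omega), h.inside (by omega) (by omega)⟩, h⟩

end Hist

/-- the part of `F` outside the tie -/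
def Cfg.up (F : Cfg) (t x0 x1 : ℤ) : Cfg where
  H := fun r x => if x0 ≤ x + 1 ∧ x ≤ x1 ∧ t < r then false else F.H r x
  V := fun r x => if x0 ≤ x ∧ x ≤ x1 ∧ t ≤ r then false else F.V r x

/-- the part of `F` below the tie, moved up by `t` rows -/
def Cfg.down (F : Cfg) (t x0 x1 : ℤ) : Cfg where
  H := fun r x => if x0 ≤ x ∧ x + 1 ≤ x1 ∧ 1 ≤ r then F.H (r + t) x else false
  V := fun r x => if x0 ≤ x ∧ x ≤ x1 ∧ 1 ≤ r then F.V (r + t) x else false

end MP545
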