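import Mathlib

/-! Definitions for MP_545c5e_lc: even subgraphs of histogram grid graphs. -/

namespace MP545

open Finset

/-- A configuration: a set of unit edges of the square lattice. `H r x` is the edge between
the points `(r, x)` and `(r, x + 1)`, and `V r x` the edge between `(r, x)` and `(r + 1, x)`.
The first coordinate is the row (growing downwards), the second one the column. -/
structure Cfg where
  H : ℤ → ℤ → Bool
  V : ℤ → ℤ → Bool

namespace Cfg

/-- degree of the point `p` -/
def deg (F : Cfg) (p : ℤ × ℤ) : ℕ :=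
  (F.H p.1 (p.2 - 1)).toNat + (F.H p.1 p.2).toNat
    + (F.V (p.1 - 1) p.2).toNat + (F.V p.1 p.2).toNat

/-- adjacency of the configuration -/
def Adj (F : Cfg) (p q : ℤ × ℤ) : Prop :=
  (F.H p.1 p.2 = true ∧ q = (p.1, p.2 + 1)) ∨ (F.H q.1 q.2 = true ∧ p = (q.1, q.2 + 1)) ∨
  (F.V p.1 p.2 = true ∧ q = (p.1 + 1, p.2)) ∨ (F.V q.1 q.2 = true ∧ p = (q.1 + 1, q.2))

/-- being joined by a path -/
def Reach (F : Cfg) (p q : ℤ × ℤ) : Prop := Relation.ReflTransGen F.Adj p q

/-- `R` meets every component with an edge -/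
def Rep (F : Cfg) (R : Finset (ℤ × ℤ)) : Prop :=
  ∀ p, F.deg p ≠ 0 → ∃ q ∈ R, F.Reach q p

/-- number of components with an edge -/
noncomputable def c (F : Cfg) : ℕ :=
  sInf {k | ∃ R : Finset (ℤ × ℤ), R.card = k ∧ F.Rep R}

/-- least level: the least `k` such that two points of rows at most `k` lie in different
components with an edge -/
noncomputable def lev (F : Cfg) : ℕ :=
  sInf {k : ℕ | ∃ p q : ℤ × ℤ, F.deg p ≠ 0 ∧ F.deg q ≠ 0 ∧ ¬ F.Reach p q ∧
    (max p.1 q.1).toNat = k}

/-- all points of positive degree are joined -/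
def Conn (F : Cfg) : Prop := ∀ p q : ℤ × ℤ, F.deg p ≠ 0 → F.deg q ≠ 0 → F.Reach p q

/-- reflection `x ↦ -x` of the columns -/
def mir (F : Cfg) : Cfg where
  H := fun r x => F.H r (-x - 1)
  V := fun r x => F.V r (-x)

/-- toggling the four edges of the cell with top left corner `(r, x)` -/
def flip (F : Cfg) (r x : ℤ) : Cfg where
  H := fun r' x' => if x' = x ∧ (r' = r ∨ r' = r + 1) then !F.H r' x' else F.H r' x'
  V := fun r' x' => if r' = r ∧ (x' = x ∨ x' = x + 1) then !F.V r' x' else F.V r' x'

/-- The configuration obtained by toggling the vertical edges of the columns `a`, `a + 1`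
between the rows `s` and `i` and deleting the edge `(i, a)`, `(i, a + 1)`. -/
def ladK (F : Cfg) (a s i : ℤ) : Cfg where
  H := fun r x => if r = i ∧ x = a then false else F.H r x
  V := fun r x => if (x = a ∨ x = a + 1) ∧ s ≤ r ∧ r < i then !F.V r x else F.V r x

/-- the edges of `F` from the point `p` to points outside `K` -/
def out (F : Cfg) (K : Finset (ℤ × ℤ)) (p : ℤ × ℤ) : ℕ :=
  (if (p.1, p.2 - 1) ∈ K then 0 else (F.H p.1 (p.2 - 1)).toNat)
    + (if (p.1, p.2 + 1) ∈ K then 0 else (F.H p.1 p.2).toNat)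
    + (if (p.1 - 1, p.2) ∈ K then 0 else (F.V (p.1 - 1) p.2).toNat)
    + (if (p.1 + 1, p.2) ∈ K then 0 else (F.V p.1 p.2).toNat)

/-- first stop: `F` with the boundary of the strip of the rows `s - 1, ..., i` toggled, when the
edge `(s - 1, a)`, `(s - 1, a + 1)` is not used -/
def lad1 (F : Cfg) (a s i : ℤ) : Cfg where
  H := fun r x => if r = s - 1 ∧ x = a then true else (F.ladK a s i).H r x
  V := fun r x => if r = s - 1 ∧ (x = a ∨ x = a + 1) then false else (F.ladK a s i).V r x

/-- second stop: the boundary of the strip of the rows `s - 2, ..., i` toggled, when the edge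
`(s - 2, a)`, `(s - 2, a + 1)` is used -/
def lad2 (F : Cfg) (a s i : ℤ) : Cfg where
  H := fun r x => if r = s - 2 ∧ x = a then false else (F.ladK a s i).H r x
  V := fun r x => if r = s - 1 ∧ (x = a ∨ x = a + 1) then false
    else if r = s - 2 ∧ (x = a ∨ x = a + 1) then true else (F.ladK a s i).V r x

/-- third stop: the boundary of the strip of the rows `s - 1, ..., i` toggled, when the edge
`(s - 1, a)`, `(s - 1, a + 1)` is used -/
def lad3 (F : Cfg) (a s i : ℤ) : Cfg where
  H := fun r x => if r = s - 1 ∧ x = a then false else (F.ladK a s i).H r x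
  V := fun r x => if r = s - 1 ∧ (x = a ∨ x = a + 1) then false else (F.ladK a s i).V r x

/-- fourth stop: the boundaries of the strip of the rows `s, ..., i` of the columns `a, a + 1`
and of the cell with top left corner `(s - 1, a - 1)` toggled -/
def lad4 (F : Cfg) (a s i : ℤ) : Cfg where
  H := fun r x => if r = s ∧ x = a then true else if r = s ∧ x = a - 1 then false
    else if r = s - 1 ∧ x = a - 1 then true else (F.ladK a s i).H r x
  V := fun r x => if r = s - 1 ∧ (x = a ∨ x = a - 1) then false else (F.ladK a s i).V r x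

end Cfg

/-- the vertices of the old caps are moved to the row below -/
def psi (a s i : ℤ) (p : ℤ × ℤ) : ℤ × ℤ :=
  if (p.2 = a ∨ p.2 = a + 1) ∧ s < p.1 ∧ p.1 < i ∧ Even (i - p.1) then (p.1 + 1, p.2) else p

/-- A histogram: the column `x` consists of the points `(1, x), ..., (h x, x)`. The last
condition says that no column is longer than both of its neighbours. -/
structure Hist where
  lo : ℤ
  hi : ℤ
  h : ℤ → ℤ
  lt : lo < hi
  out : ∀ x, x < lo ∨ hi < x → h x = 0
  two : ∀ x, lo ≤ x → x ≤ hi → 2 ≤ h x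
  two_conn : ∀ x, h x ≤ max (h (x - 1)) (h (x + 1))

namespace Hist

/-- the point `p` belongs to the histogram -/
def In (G : Hist) (p : ℤ × ℤ) : Prop := 1 ≤ p.1 ∧ p.1 ≤ G.h p.2

/-- the finite set of points of the histogram -/
noncomputable def Vs (G : Hist) : Finset (ℤ × ℤ) :=
  ((Finset.Icc G.lo G.hi).sigma fun x => Finset.Icc 1 (G.h x)).image fun s => (s.2, s.1)

/-- a bound for the rows -/
noncomputable def N (G : Hist) : ℤ := ∑ x ∈ Finset.Icc G.lo G.hi, G.h x

/-- even subgraphs of the histogram -/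
structure Good (G : Hist) (F : Cfg) : Prop where
  H : ∀ r x, F.H r x = true → G.In (r, x) ∧ G.In (r, x + 1)
  V : ∀ r x, F.V r x = true → G.In (r, x) ∧ G.In (r + 1, x)
  even : ∀ p, Even (F.deg p)

/-- number of points of degree different from two -/
noncomputable def cost (G : Hist) (F : Cfg) : ℕ := ∑ p ∈ G.Vs, if F.deg p = 2 then 0 else 1

/-- weight of the isolated points -/
noncomputable def W (G : Hist) (F : Cfg) : ℕ :=
  ∑ p ∈ G.Vs, if F.deg p = 0 then (G.N + 1 - p.1).toNat else 0

/-- the potential -/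
noncomputable def pot (G : Hist) (F : Cfg) : ℕ ×ₗ (ℕ ×ₗ (ℕ ×ₗ ℕ)) :=
  toLex (G.cost F, toLex (F.c, toLex (F.lev, G.W F)))

/-- even subgraphs of minimal potential -/
structure Minimal (G : Hist) (F : Cfg) : Prop where
  good : G.Good F
  min : ∀ F', G.Good F' → G.pot F ≤ G.pot F'

/-- reflection of a histogram -/
def mir (G : Hist) : Hist where
  lo := -G.hi
  hi := -G.lo
  h := fun x => G.h (-x)
  lt := by have := G.lt; omega
  out := fun x hx => G.out _ (by omega)
  two := fun x h1 h2 => G.two _ (by omega) (by omega)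
  two_conn := fun x => by
    have := G.two_conn (-x)
    have e1 : -(x - 1) = -x + 1 := by ring
    have e2 : -(x + 1) = -x - 1 := by ring
    rw [e1, e2, max_comm]; exact this

/-- The columns `x0, ..., x1` form a tie: an even number of columns, both neighbouring columns
have the same length, a positive multiple of four, and all the columns are longer by at least
two. -/
def Tie (G : Hist) (x0 x1 : ℤ) : Prop :=
  x0 < x1 ∧ Odd (x1 - x0) ∧ 0 < G.h (x0 - 1) ∧ 4 ∣ G.h (x0 - 1) ∧
    G.h (x0 - 1) = G.h (x1 + 1) ∧ ∀ x, x0 ≤ x → x ≤ x1 → G.h (x0 - 1) + 2 ≤ G.h x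

end Hist

/-- The part of a ladder that does not involve reachability. There is a cap `(i, a)`,
`(i, a + 1)` with its two legs going down; in the rows `r` with `s ≤ r < i`, `i - r` odd, the
two points `(r, a)`, `(r, a + 1)` have degree two and go outwards and up; in the rows `r` with
`s < r < i`, `i - r` even, there are caps, of degree two, with legs going down. -/
structure Lad (F : Cfg) (a s i : ℤ) : Prop where
  lt : s < i
  par : Odd (i - s)
  capH : F.H i a = true
  capV : F.V i a = true
  capV' : F.V i (a + 1) = true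
  capL : F.H i (a - 1) = false
  capR : F.H i (a + 1) = false
  T1 : ∀ r, s ≤ r → r < i → Odd (i - r) → F.H r (a - 1) = true
  T2 : ∀ r, s ≤ r → r < i → Odd (i - r) → F.V (r - 1) a = true
  T3 : ∀ r, s ≤ r → r < i → Odd (i - r) → F.H r a = false
  T4 : ∀ r, s ≤ r → r < i → Odd (i - r) → F.V r a = false
  T5 : ∀ r, s ≤ r → r < i → Odd (i - r) → F.H r (a + 1) = true
  T6 : ∀ r, s ≤ r → r < i → Odd (i - r) → F.V (r - 1) (a + 1) = true
  T7 : ∀ r, s ≤ r → r < i → Odd (i - r) → F.V r (a + 1) = false
  C1 : ∀ r, s < r → r < i → Even (i - r) → F.H r a = true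
  C2 : ∀ r, s < r → r < i → Even (i - r) → F.V r a = true
  C3 : ∀ r, s < r → r < i → Even (i - r) → F.V r (a + 1) = true
  C4 : ∀ r, s < r → r < i → Even (i - r) → F.H r (a - 1) = false
  C5 : ∀ r, s < r → r < i → Even (i - r) → F.H r (a + 1) = false

/-- The situation of the main argument: a configuration of minimal potential that is not
connected; `i` is its level; the vertex `(i, a)` is not joined to the rows above. -/
structure Ctx (G : Hist) (F : Cfg) (i a : ℤ) : Prop where
  min : G.Minimal F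
  nconn : ¬ F.Conn
  lev : (F.lev : ℤ) = i
  three : 3 ≤ i
  iso : ∀ p, G.In p → F.deg p = 0 → p.1 = G.h p.2
  above : ∀ p q : ℤ × ℤ, F.deg p ≠ 0 → F.deg q ≠ 0 → p.1 < i → q.1 < i → F.Reach p q
  sep : ∀ p : ℤ × ℤ, F.deg p ≠ 0 → p.1 < i → ¬ F.Reach p (i, a)
  lad : Lad F a (i - 1) i

/-- A ladder that reaches the first row: `i` is odd, the two columns `a`, `a + 1` carry caps in
all odd rows up to `i`, and in the even rows below `i` their points go outwards and up. -/
structure Full (F : Cfg) (a i : ℤ) : Prop where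
  odd : Odd i
  T1 : ∀ r, 2 ≤ r → r < i → Even r → F.H r (a - 1) = true
  T2 : ∀ r, 2 ≤ r → r < i → Even r → F.V (r - 1) a = true
  T3 : ∀ r, 2 ≤ r → r < i → Even r → F.H r a = false
  T4 : ∀ r, 2 ≤ r → r < i → Even r → F.V r a = false
  T5 : ∀ r, 2 ≤ r → r < i → Even r → F.H r (a + 1) = true
  T6 : ∀ r, 2 ≤ r → r < i → Even r → F.V (r - 1) (a + 1) = true
  T7 : ∀ r, 2 ≤ r → r < i → Even r → F.V r (a + 1) = false
  C1 : ∀ r, 1 ≤ r → r ≤ i → Odd r → F.H r a = true
  C2 : ∀ r, 1 ≤ r → r ≤ i → Odd r → F.V r a = true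
  C3 : ∀ r, 1 ≤ r → r ≤ i → Odd r → F.V r (a + 1) = true
  C4 : ∀ r, 1 ≤ r → r ≤ i → Odd r → F.H r (a - 1) = false
  C5 : ∀ r, 1 ≤ r → r ≤ i → Odd r → F.H r (a + 1) = false

end MP545
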