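import Pool.Agent.Lib.MP_545c5e_lc.StepL

/-! Descent to the left. -/

namespace MP545

open Finset

private theorem descL_col {G : Hist} {F : Cfg} {a i : ℤ} (hc : Ctx G F i a) :
    (i + 1 ≤ G.h a ∧ F.V (i - 1) a = false) ∧ (i + 1 ≤ G.h (a + 1) ∧ F.V (i - 1) (a + 1) = false) := by
  have hgood := hc.min.good
  have hlad := hc.lad
  have hodd1 : Odd (i - (i - 1)) := by
    have : i - (i - 1) = 1 := by ring
    rw [this]
    exact odd_one
  have h1 := (hgood.V _ _ hlad.capV).2.2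
  have h2 := (hgood.V _ _ hlad.capV').2.2
  exact ⟨⟨h1, hlad.T4 (i - 1) le_rfl (by omega) hodd1⟩,
    ⟨h2, hlad.T7 (i - 1) le_rfl (by omega) hodd1⟩⟩

private theorem descL_aux {G : Hist} {F : Cfg} {i : ℤ} (n : ℕ) : ∀ a : ℤ, a < G.lo + n →
    Ctx G F i a →
    ∃ x0, x0 ≤ a ∧ Even (a - x0) ∧ G.h (x0 - 1) = i - 1 ∧ Ctx G F i x0 ∧
      ∀ x, x0 ≤ x → x ≤ a + 1 → i + 1 ≤ G.h x ∧ F.V (i - 1) x = false := by
  induction n with
  | zero =>
    intro a ha hc
    have h3 := hc.three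
    have h1 := (descL_col hc).1.1
    have := (G.col_of_pos (x := a) (by omega)).1
    simp at ha
    omega
  | succ n ih =>
    intro a ha hc
    obtain ⟨k1, k2⟩ := descL_col hc
    rcases stepL hc with h | h
    · refine ⟨a, le_rfl, ⟨0, by ring⟩, h, hc, ?_⟩
      intro x hx1 hx2
      have : x = a ∨ x = a + 1 := by omega
      rcases this with rfl | rfl
      · exact k1
      · exact k2
    · push_cast at ha
      obtain ⟨x0, y1, ⟨m, hm⟩, y3, y4, y5⟩ := ih (a - 2) (by omega) h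
      refine ⟨x0, by omega, ⟨m + 1, by omega⟩, y3, y4, ?_⟩
      intro x hx1 hx2
      by_cases hx : x ≤ a - 2 + 1
      · exact y5 x hx1 hx
      · have : x = a ∨ x = a + 1 := by omega
        rcases this with rfl | rfl
        · exact k1
        · exact k2

theorem descL {G : Hist} {F : Cfg} {a i : ℤ} (hc : Ctx G F i a) :
    ∃ x0, x0 ≤ a ∧ Even (a - x0) ∧ G.h (x0 - 1) = i - 1 ∧ Ctx G F i x0 ∧
      ∀ x, x0 ≤ x → x ≤ a + 1 → i + 1 ≤ G.h x ∧ F.V (i - 1) x = false :=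
  descL_aux (a - G.lo + 1).toNat a (by omega) hc

end MP545
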