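import Pool.Agent.Lib.MP_545c5e_lc.GDefs

/-! Euler circuits. -/

namespace MP545

open SimpleGraph

private lemma eu_len {α : Type*} [Finite α] (F : SimpleGraph α) {u v : α} (p : F.Walk u v)
    (hp : p.IsTrail) : p.length ≤ F.edgeSet.ncard := by
  classical
  rw [← Walk.length_edges, ← List.toFinset_card_of_nodup hp.edges_nodup, ← Set.ncard_coe_finset]
  apply Set.ncard_le_ncard _ (Set.toFinite _)
  intro e he
  rw [List.coe_toFinset] at he
  exact p.edges_subset_edgeSet he

private lemma eu_unused {α : Type*} [Finite α] (F : SimpleGraph α)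
    (he : ∀ v, Even (F.neighborSet v).ncard) {u z : α} (p : F.Walk u z) (hp : p.IsTrail)
    (huz : u ≠ z) : ∃ y, F.Adj z y ∧ s(z, y) ∉ p.edges := by
  classical
  by_contra hcon
  push Not at hcon
  have hodd : ¬ Even (p.edges.countP (fun e => z ∈ e)) := by
    rw [hp.even_countP_edges_iff]
    intro h
    exact (h huz).2 rfl
  apply hodd
  have hcount : p.edges.countP (fun e => z ∈ e) = (F.neighborSet z).ncard := by
    have hinj : Function.Injective (fun y => s(z, y)) := by
      intro a b hab
      exact Sym2.congr_right.1 hab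
    rw [List.countP_eq_length_filter,
      ← List.toFinset_card_of_nodup (hp.edges_nodup.filter _), ← Set.ncard_coe_finset,
      ← Set.ncard_image_of_injective (F.neighborSet z) hinj]
    congr 1
    ext e
    rw [List.coe_toFinset]
    simp only [Set.mem_ofPred_eq, List.mem_filter, decide_eq_true_eq, Set.mem_image,
      mem_neighborSet]
    constructor
    · rintro ⟨he, hz⟩
      obtain ⟨y, rfl⟩ := hz
      refine ⟨y, ?_, rfl⟩
      exact p.edges_subset_edgeSet he
    · rintro ⟨y, hy, rfl⟩
      exact ⟨hcon y hy, Sym2.mem_mk_left z y⟩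
  rw [hcount]
  exact he z

private lemma eu_concat {α : Type*} {F : SimpleGraph α} {u z y : α} (p : F.Walk u z)
    (hp : p.IsTrail) (h : F.Adj z y) (hn : s(z, y) ∉ p.edges) : (p.concat h).IsTrail := by
  rw [Walk.isTrail_def, Walk.edges_concat, List.nodup_concat]
  exact ⟨hn, hp.edges_nodup⟩

private lemma eu_ext {α : Type*} [Finite α] (F : SimpleGraph α)
    (he : ∀ v, Even (F.neighborSet v).ncard) (L : ℕ) (v0 a : α) :
    ∀ (k : ℕ) (z : α) (p : F.Walk a z), p.IsTrail → L < p.length → v0 ∈ p.support →
      F.edgeSet.ncard ≤ p.length + k →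
      ∃ c : F.Walk a a, c.IsTrail ∧ L < c.length ∧ v0 ∈ c.support := by
  intro k
  induction k with
  | zero =>
    intro z p hp hL hs hk
    by_cases haz : a = z
    · subst haz
      exact ⟨p, hp, hL, hs⟩
    · exfalso
      obtain ⟨y, hy, hn⟩ := eu_unused F he p hp haz
      have h1 := eu_len F (p.concat hy) (eu_concat p hp hy hn)
      rw [Walk.length_concat] at h1
      omega
  | succ k ih =>
    intro z p hp hL hs hk
    by_cases haz : a = z
    · subst haz
      exact ⟨p, hp, hL, hs⟩
    · obtain ⟨y, hy, hn⟩ := eu_unused F he p hp haz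
      refine ih y (p.concat hy) (eu_concat p hp hy hn) ?_ ?_ ?_
      · rw [Walk.length_concat]; omega
      · rw [Walk.support_concat]
        simp [hs]
      · rw [Walk.length_concat]; omega

/-- a walk leaving a set has an edge leaving it -/
private lemma eu_leave {α : Type*} {F : SimpleGraph α} (T : Set α) {u v : α} (p : F.Walk u v)
    (hu : u ∈ T) (hv : v ∉ T) : ∃ x y, x ∈ T ∧ y ∉ T ∧ F.Adj x y := by
  induction p with
  | nil => exact absurd hu hv
  | cons h p ih =>
    rename_i a b c
    by_cases hb : b ∈ T
    · exact ih hb hv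
    · exact ⟨a, b, hu, hb, h⟩

/-- A finite graph all of whose degrees are even and whose edges lie in one component has a
closed walk of length the number of edges that visits all vertices of positive degree. (Take a
closed trail at `v0` of maximal length; if it misses an edge, it misses an edge at one of its
vertices, and the remaining edges form an even graph, in which there is a closed trail of
positive length at that vertex.) -/
theorem euler_circuit {α : Type*} [Finite α] (F : SimpleGraph α)
    (he : ∀ v, Even (F.neighborSet v).ncard) (v0 : α) (hv0 : (F.neighborSet v0).ncard ≠ 0)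
    (hc : ∀ u, (F.neighborSet u).ncard ≠ 0 → F.Reachable v0 u) :
    ∃ w : F.Walk v0 v0, w.length = F.edgeSet.ncard ∧
      ∀ u, (F.neighborSet u).ncard ≠ 0 → u ∈ w.support := by
  classical
  -- a closed trail of maximal length
  obtain ⟨M, ⟨w, hw, hwM⟩, hmax⟩ : ∃ M, (∃ w : F.Walk v0 v0, w.IsTrail ∧ w.length = M) ∧
      ∀ c : F.Walk v0 v0, c.IsTrail → c.length ≤ M := by
    have hne : ∃ w : F.Walk v0 v0, w.IsTrail ∧ w.length = 0 :=
      ⟨Walk.nil, Walk.IsTrail.nil, rfl⟩
    have h1 := Nat.findGreatest_spec (P := fun M => ∃ w : F.Walk v0 v0, w.IsTrail ∧ w.length = M)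
      (Nat.zero_le F.edgeSet.ncard) hne
    refine ⟨_, h1, ?_⟩
    intro c hc
    exact Nat.le_findGreatest (eu_len F c hc) ⟨c, hc, rfl⟩
  have hall : ∀ e ∈ F.edgeSet, e ∈ w.edges := by
    by_contra hcon
    push Not at hcon
    obtain ⟨e, heF, hew⟩ := hcon
    -- an unused edge at a vertex of w
    obtain ⟨a, b, ha, hab, hn⟩ : ∃ a b, a ∈ w.support ∧ F.Adj a b ∧ s(a, b) ∉ w.edges := by
      induction e using Sym2.ind with
      | _ x y =>
        by_cases hx : x ∈ w.support
        · exact ⟨x, y, hx, heF, hew⟩
        · have hxn : (F.neighborSet x).ncard ≠ 0 := by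
            have : (F.neighborSet x).Nonempty := ⟨y, heF⟩
            exact (Set.ncard_pos (Set.toFinite _)).2 this |>.ne'
          obtain ⟨p⟩ := hc x hxn
          obtain ⟨a, b, ha, hb, hab⟩ := eu_leave {v | v ∈ w.support} p
            (Walk.start_mem_support w) hx
          refine ⟨a, b, ha, hab, ?_⟩
          intro h
          exact hb (w.snd_mem_support_of_mem_edges h)
    have h1 : ((w.rotate a ha).concat hab).IsTrail := by
      apply eu_concat _ (hw.rotate ha)
      intro h
      exact hn ((w.rotate_edges a ha).perm.mem_iff.1 h)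
    have h2 : v0 ∈ (w.rotate a ha).support := by
      rw [Walk.mem_support_rotate_iff]
      exact Walk.start_mem_support w
    obtain ⟨c, hc1, hc2, hc3⟩ := eu_ext F he w.length v0 a F.edgeSet.ncard b
      ((w.rotate a ha).concat hab) h1 (by rw [Walk.length_concat, Walk.length_rotate]; omega)
      (by rw [Walk.support_concat]; simp [h2]) (by omega)
    have h3 := hmax (c.rotate v0 hc3) (hc1.rotate hc3)
    rw [Walk.length_rotate] at h3
    omega
  refine ⟨w, ?_, ?_⟩
  · rw [← Walk.length_edges, ← List.toFinset_card_of_nodup hw.edges_nodup, ← Set.ncard_coe_finset]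
    congr 1
    ext e
    rw [List.coe_toFinset]
    exact ⟨fun h => w.edges_subset_edgeSet h, fun h => hall e h⟩
  · intro u hu
    have h1 : (F.neighborSet u).Nonempty := by
      rw [← Set.ncard_pos (Set.toFinite _)]
      omega
    obtain ⟨y, hy⟩ := h1
    exact w.fst_mem_support_of_mem_edges (hall s(u, y) hy)

end MP545
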