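import Mathlib

/-! Definitions for MP_545c5e_lc: grid graphs, tours, even subgraphs. -/

namespace MP545

/-- the grid graph with vertex set `V` -/
def gridGraph (V : Finset (ℤ × ℤ)) : SimpleGraph V where
  Adj p q := |p.1.1 - q.1.1| + |p.1.2 - q.1.2| = 1
  symm := ⟨fun p q h => by
    rw [abs_sub_comm q.1.1, abs_sub_comm q.1.2]; exact h⟩
  loopless := ⟨fun p h => by simp at h⟩

/-- `L` is the length of a closed walk that visits all vertices -/
def IsTourLength {α : Type*} (Γ : SimpleGraph α) (L : ℕ) : Prop :=
  ∃ (v : α) (w : Γ.Walk v v), (∀ u, u ∈ w.support) ∧ w.length = L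

/-- `F` is a subgraph of `Γ` all of whose degrees are even -/
def IsEvenSub {α : Type*} (Γ F : SimpleGraph α) : Prop :=
  F ≤ Γ ∧ ∀ v, Even (F.neighborSet v).ncard

/-- number of vertices whose degree is not two -/
noncomputable def defect {α : Type*} (F : SimpleGraph α) : ℕ :=
  {v | (F.neighborSet v).ncard ≠ 2}.ncard

end MP545
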