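import Pool.Agent.Lib.MP_545c5e_lc.Basic
import Pool.Agent.Lib.MP_545c5e_lc.GDefs

/-! Histograms are connected. -/

namespace MP545

open Finset

private theorem gc_vert {G : Hist} {V : Finset (ℤ × ℤ)} (hV : ∀ p, p ∈ V ↔ G.In p) (x : ℤ) :
    ∀ n : ℕ, ∀ (h : ((n : ℤ) + 1, x) ∈ V) (h1 : ((1 : ℤ), x) ∈ V),
      (gridGraph V).Reachable ⟨((n : ℤ) + 1, x), h⟩ ⟨(1, x), h1⟩ := by
  intro n
  induction n with
  | zero =>
    intro h h1
    have e : (⟨(((0 : ℕ) : ℤ) + 1, x), h⟩ : V) = ⟨(1, x), h1⟩ := by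
      apply Subtype.ext
      simp
    rw [e]
  | succ n ih =>
    intro h h1
    have h2 : ((n : ℤ) + 1, x) ∈ V := by
      rw [hV] at h ⊢
      exact Hist.in_up h (by omega) (by push_cast; omega)
    refine SimpleGraph.Reachable.trans (SimpleGraph.Adj.reachable ?_) (ih h2 h1)
    show |((n + 1 : ℕ) : ℤ) + 1 - ((n : ℤ) + 1)| + |x - x| = 1
    push_cast
    have : (n : ℤ) + 1 + 1 - (n + 1) = 1 := by ring
    rw [this]
    simp

private theorem gc_hor {G : Hist} {V : Finset (ℤ × ℤ)} (hV : ∀ p, p ∈ V ↔ G.In p) :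
    ∀ n : ℕ, ∀ (h : ((1 : ℤ), G.lo + n) ∈ V) (h1 : ((1 : ℤ), G.lo) ∈ V),
      (gridGraph V).Reachable ⟨((1 : ℤ), G.lo + n), h⟩ ⟨(1, G.lo), h1⟩ := by
  intro n
  induction n with
  | zero =>
    intro h h1
    have e : (⟨((1 : ℤ), G.lo + ((0 : ℕ) : ℤ)), h⟩ : V) = ⟨(1, G.lo), h1⟩ := by
      apply Subtype.ext
      simp
    rw [e]
  | succ n ih =>
    intro h h1
    have h2 : ((1 : ℤ), G.lo + n) ∈ V := by
      rw [hV] at h ⊢
      have := h.col
      simp only at this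
      push_cast at this
      refine ⟨le_refl _, ?_⟩
      have := G.two (G.lo + n) (by omega) (by omega)
      simp only
      omega
    refine SimpleGraph.Reachable.trans (SimpleGraph.Adj.reachable ?_) (ih h2 h1)
    show |(1 : ℤ) - 1| + |G.lo + ((n + 1 : ℕ) : ℤ) - (G.lo + n)| = 1
    push_cast
    have : G.lo + ((n : ℤ) + 1) - (G.lo + n) = 1 := by ring
    rw [this]
    simp

theorem gridGraph_connected {G : Hist} {V : Finset (ℤ × ℤ)} (hV : ∀ p, p ∈ V ↔ G.In p) :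
    (gridGraph V).Connected := by
  have h0 : ((1 : ℤ), G.lo) ∈ V := by
    rw [hV]
    refine ⟨le_refl _, ?_⟩
    have := G.two G.lo (le_refl _) G.lt.le
    simp only
    omega
  have : Nonempty V := ⟨⟨_, h0⟩⟩
  have key : ∀ p : V, (gridGraph V).Reachable p ⟨(1, G.lo), h0⟩ := by
    rintro ⟨⟨r, x⟩, hp⟩
    have hin := (hV _).1 hp
    have h1 : ((1 : ℤ), x) ∈ V := by
      rw [hV]
      exact Hist.in_up hin (le_refl _) hin.1
    have hr : 1 ≤ r := hin.1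
    have hc := hin.col
    simp only at hc
    obtain ⟨n, hn⟩ : ∃ n : ℕ, r = (n : ℤ) + 1 := ⟨(r - 1).toNat, by omega⟩
    obtain ⟨m, hm⟩ : ∃ m : ℕ, x = G.lo + m := ⟨(x - G.lo).toNat, by omega⟩
    subst hn
    refine (gc_vert hV x n hp h1).trans ?_
    subst hm
    exact gc_hor hV m h1 h0
  exact ⟨fun p q => (key p).trans (key q).symm⟩

theorem gridGraph_deg {V : Finset (ℤ × ℤ)} (p : V) : ((gridGraph V).neighborSet p).ncard ≤ 4 := by
  classical
  have h1 : ((gridGraph V).neighborSet p).ncard =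
      (Subtype.val '' ((gridGraph V).neighborSet p)).ncard :=
    (Set.ncard_image_of_injective _ Subtype.val_injective).symm
  rw [h1]
  have hsub : (Subtype.val '' ((gridGraph V).neighborSet p)) ⊆
      (({(p.1.1 + 1, p.1.2), (p.1.1 - 1, p.1.2), (p.1.1, p.1.2 + 1), (p.1.1, p.1.2 - 1)} :
        Finset (ℤ × ℤ)) : Set (ℤ × ℤ)) := by
    rintro _ ⟨q, hq, rfl⟩
    have h : |p.1.1 - q.1.1| + |p.1.2 - q.1.2| = 1 := hq
    have h2 : (p.1.1 - q.1.1 = 1 ∨ p.1.1 - q.1.1 = -1) ∧ p.1.2 = q.1.2 ∨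
        (p.1.2 - q.1.2 = 1 ∨ p.1.2 - q.1.2 = -1) ∧ p.1.1 = q.1.1 := by
      rcases abs_cases (p.1.1 - q.1.1) with ⟨h3, h4⟩ | ⟨h3, h4⟩ <;>
      rcases abs_cases (p.1.2 - q.1.2) with ⟨h5, h6⟩ | ⟨h5, h6⟩ <;>
      rw [h3, h5] at h <;> omega
    have h3 : (q : ℤ × ℤ) = (q.1.1, q.1.2) := rfl
    rw [h3]
    simp only [Finset.coe_insert, Finset.coe_singleton, Set.mem_insert_iff,
      Set.mem_singleton_iff, Prod.mk.injEq]
    omega
  refine (Set.ncard_le_ncard hsub (Finset.finite_toSet _)).trans ?_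
  rw [Set.ncard_coe_finset]
  exact Finset.card_le_four

end MP545
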