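import Pool.Agent.Lib.MP_545c5e_lc.Basic
import Pool.Agent.Lib.MP_545c5e_lc.GDefs

/-! The graph of a configuration. -/

namespace MP545

open Finset

/-- the graph of a configuration -/
def ofCfg (V : Finset (ℤ × ℤ)) (F : Cfg) : SimpleGraph V where
  Adj p q := F.Adj p.1 q.1 ∧ p ≠ q
  symm := ⟨fun _ _ h => ⟨h.1.symm, h.2.symm⟩⟩
  loopless := ⟨fun _ h => h.2 rfl⟩

/-- the four neighbours -/
private def nb (p : ℤ × ℤ) : Fin 4 → ℤ × ℤ :=
  ![(p.1, p.2 - 1), (p.1, p.2 + 1), (p.1 - 1, p.2), (p.1 + 1, p.2)]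

/-- the four edges -/
private def ed (F : Cfg) (p : ℤ × ℤ) : Fin 4 → Bool :=
  ![F.H p.1 (p.2 - 1), F.H p.1 p.2, F.V (p.1 - 1) p.2, F.V p.1 p.2]

private theorem nb_inj (p : ℤ × ℤ) : Function.Injective (nb p) := by
  intro i j h
  fin_cases i <;> fin_cases j <;> simp [nb, Prod.ext_iff] at h ⊢ <;> omega

private theorem adj_iff (F : Cfg) (p q : ℤ × ℤ) :
    F.Adj p q ↔ ∃ k, ed F p k = true ∧ nb p k = q := by
  obtain ⟨r, x⟩ := p
  obtain ⟨r', x'⟩ := q
  constructor
  · rintro (⟨h, e⟩ | ⟨h, e⟩ | ⟨h, e⟩ | ⟨h, e⟩) <;> simp only [Prod.mk.injEq] at e h <;>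
      obtain ⟨rfl, rfl⟩ := e
    · exact ⟨1, h, rfl⟩
    · refine ⟨0, ?_, ?_⟩
      · show F.H r (x' + 1 - 1) = true
        rw [add_sub_cancel_right]
        exact h
      · show (r, x' + 1 - 1) = (r, x')
        rw [add_sub_cancel_right]
    · exact ⟨3, h, rfl⟩
    · refine ⟨2, ?_, ?_⟩
      · show F.V (r' + 1 - 1) x = true
        rw [add_sub_cancel_right]
        exact h
      · show (r' + 1 - 1, x) = (r', x)
        rw [add_sub_cancel_right]
  · rintro ⟨k, h, e⟩
    fin_cases k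
    · have e' : (r, x - 1) = (r', x') := e
      rw [Prod.mk.injEq] at e'
      obtain ⟨rfl, rfl⟩ := e'
      exact Or.inr (Or.inl ⟨h, by simp⟩)
    · have e' : (r, x + 1) = (r', x') := e
      exact Or.inl ⟨h, e'.symm⟩
    · have e' : (r - 1, x) = (r', x') := e
      rw [Prod.mk.injEq] at e'
      obtain ⟨rfl, rfl⟩ := e'
      exact Or.inr (Or.inr (Or.inr ⟨h, by simp⟩))
    · have e' : (r + 1, x) = (r', x') := e
      exact Or.inr (Or.inr (Or.inl ⟨h, e'.symm⟩))

private theorem adj_ne {F : Cfg} {p q : ℤ × ℤ} (h : F.Adj p q) : p ≠ q := by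
  rintro rfl
  rcases h with ⟨_, e⟩ | ⟨_, e⟩ | ⟨_, e⟩ | ⟨_, e⟩ <;> rw [Prod.ext_iff] at e <;>
    simp at e

private theorem ncard_adj (F : Cfg) (p : ℤ × ℤ) : {q | F.Adj p q}.ncard = F.deg p := by
  have h : {q | F.Adj p q} =
      ↑((univ.filter (fun k => ed F p k = true)).image (nb p)) := by
    ext q
    simp only [Set.mem_setOf_eq, coe_image, coe_filter, mem_univ, true_and, Set.mem_image]
    exact adj_iff F p q
  rw [h, Set.ncard_coe_finset, card_image_of_injective _ (nb_inj p), card_filter,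
    Fin.sum_univ_four]
  have ht : ∀ b : Bool, (if b = true then 1 else 0) = b.toNat := by
    intro b
    cases b <;> rfl
  unfold Cfg.deg
  rw [ht, ht, ht, ht]
  rfl

theorem ofCfg_deg {G : Hist} {V : Finset (ℤ × ℤ)} (hV : ∀ p, p ∈ V ↔ G.In p) {F : Cfg}
    (hF : G.Good F) (p : V) : ((ofCfg V F).neighborSet p).ncard = F.deg p.1 := by
  have himg : Subtype.val '' ((ofCfg V F).neighborSet p) = {q | F.Adj p.1 q} := by
    ext q
    constructor
    · rintro ⟨q', hadj, rfl⟩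
      exact hadj.1
    · intro h
      have hq : q ∈ V := (hV q).2 (hF.in_of_deg (Cfg.Adj.deg_ne h).2)
      refine ⟨⟨q, hq⟩, ⟨h, ?_⟩, rfl⟩
      intro hc
      exact adj_ne h (congrArg Subtype.val hc)
  rw [← Set.ncard_image_of_injective _ Subtype.val_injective, himg, ncard_adj]

theorem ofCfg_even {G : Hist} {V : Finset (ℤ × ℤ)} (hV : ∀ p, p ∈ V ↔ G.In p) {F : Cfg}
    (hF : G.Good F) : IsEvenSub (gridGraph V) (ofCfg V F) := by
  constructor
  · intro p q h
    show |p.1.1 - q.1.1| + |p.1.2 - q.1.2| = 1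
    rcases h.1 with ⟨_, e⟩ | ⟨_, e⟩ | ⟨_, e⟩ | ⟨_, e⟩ <;> rw [Prod.ext_iff] at e <;>
      simp only at e
    · rw [e.1, e.2, sub_self, abs_zero, zero_add, abs_eq (by norm_num)]
      right
      ring
    · rw [e.1, e.2, sub_self, abs_zero, zero_add, abs_eq (by norm_num)]
      left
      ring
    · rw [e.1, e.2, sub_self, abs_zero, add_zero, abs_eq (by norm_num)]
      right
      ring
    · rw [e.1, e.2, sub_self, abs_zero, add_zero, abs_eq (by norm_num)]
      left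
      ring
  · intro p
    rw [ofCfg_deg hV hF]
    exact hF.even _

theorem ofCfg_defect {G : Hist} {V : Finset (ℤ × ℤ)} (hV : ∀ p, p ∈ V ↔ G.In p) {F : Cfg}
    (hF : G.Good F) : defect (ofCfg V F) = G.cost F := by
  unfold defect Hist.cost
  have himg : Subtype.val '' {v : V | ((ofCfg V F).neighborSet v).ncard ≠ 2}
      = ↑(G.Vs.filter (fun p => F.deg p ≠ 2)) := by
    ext q
    simp only [Set.mem_image, Set.mem_setOf_eq, coe_filter]
    constructor
    · rintro ⟨q', h, rfl⟩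
      rw [ofCfg_deg hV hF] at h
      exact ⟨(G.mem_Vs _).2 ((hV _).1 q'.2), h⟩
    · rintro ⟨h1, h2⟩
      refine ⟨⟨q, (hV q).2 ((G.mem_Vs q).1 h1)⟩, ?_, rfl⟩
      rw [ofCfg_deg hV hF]
      exact h2
  rw [← Set.ncard_image_of_injective _ Subtype.val_injective, himg, Set.ncard_coe_finset,
    card_filter]
  refine sum_congr rfl fun p _ => ?_
  by_cases h : F.deg p = 2
  · simp [h]
  · simp [h]

theorem ofCfg_reach {G : Hist} {V : Finset (ℤ × ℤ)} (hV : ∀ p, p ∈ V ↔ G.In p) {F : Cfg}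
    (hF : G.Good F) (p q : V) (h : F.Reach p.1 q.1) : (ofCfg V F).Reachable p q := by
  have key : ∀ q0 : ℤ × ℤ, F.Reach p.1 q0 → ∀ hq0 : q0 ∈ V,
      (ofCfg V F).Reachable p ⟨q0, hq0⟩ := by
    intro q0 h0
    induction h0 with
    | refl =>
      intro _
      exact SimpleGraph.Reachable.refl _
    | @tail b c _ hbc ih =>
      intro hc
      have hb : b ∈ V := (hV b).2 (hF.in_of_deg (Cfg.Adj.deg_ne hbc).1)
      refine (ih hb).trans (SimpleGraph.Adj.reachable ?_)
      refine ⟨hbc, ?_⟩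
      intro he
      exact adj_ne hbc (congrArg Subtype.val he)
  exact key q.1 h q.2

end MP545
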