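import Pool.Agent.Lib.MP_545c5e_lc.Basic
import Pool.Agent.Lib.MP_545c5e_lc.Use

/-! The configuration with the four edges of one cell. -/

namespace MP545

open Finset

/-- the configuration with the four edges of the cell at `(1, l)` -/
private def oc (l : ℤ) : Cfg where
  H := fun r x => decide (x = l ∧ (r = 1 ∨ r = 2))
  V := fun r x => decide (r = 1 ∧ (x = l ∨ x = l + 1))

private theorem oc_toNat (p : Prop) [Decidable p] : (decide p).toNat = if p then 1 else 0 := by
  by_cases h : p <;> simp [h]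

private theorem oc_deg (l r x : ℤ) :
    (oc l).deg (r, x) = if (r = 1 ∨ r = 2) ∧ (x = l ∨ x = l + 1) then 2 else 0 := by
  rw [Cfg.deg_mk]
  simp only [oc, oc_toNat]
  split_ifs <;> omega

/-- The configuration with the four edges of the cell at `(1, G.lo)` is good and its cost is the
number of points minus four; hence a minimal configuration has a point of positive degree. -/
theorem one_cell (G : Hist) : ∃ F, G.Good F ∧ G.cost F + 4 = G.Vs.card := by
  have hlt := G.lt
  have h1 := G.two G.lo le_rfl hlt.le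
  have h2 := G.two (G.lo + 1) (by omega) (by omega)
  have hin : ∀ r x, (r = 1 ∨ r = 2) → (x = G.lo ∨ x = G.lo + 1) → G.In (r, x) := by
    rintro r x hr (rfl | rfl)
    · exact ⟨by simp only; omega, by simp only; omega⟩
    · exact ⟨by simp only; omega, by simp only; omega⟩
  refine ⟨oc G.lo, ⟨?_, ?_, ?_⟩, ?_⟩
  · intro r x h
    have h' : x = G.lo ∧ (r = 1 ∨ r = 2) := of_decide_eq_true h
    exact ⟨hin r x h'.2 (Or.inl h'.1), hin r (x + 1) h'.2 (Or.inr (by omega))⟩
  · intro r x h
    have h' : r = 1 ∧ (x = G.lo ∨ x = G.lo + 1) := of_decide_eq_true h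
    exact ⟨hin r x (Or.inl h'.1) h'.2, hin (r + 1) x (Or.inr (by omega)) h'.2⟩
  · rintro ⟨r, x⟩
    rw [oc_deg]
    split_ifs
    · exact even_two
    · exact Even.zero
  · have hcost : G.cost (oc G.lo) = ∑ p ∈ G.Vs, if (p.1 = 1 ∨ p.1 = 2) ∧
        (p.2 = G.lo ∨ p.2 = G.lo + 1) then 0 else 1 := by
      unfold Hist.cost
      refine Finset.sum_congr rfl fun p _ => ?_
      rw [show (oc G.lo).deg p = _ from oc_deg G.lo p.1 p.2]
      by_cases h : (p.1 = 1 ∨ p.1 = 2) ∧ (p.2 = G.lo ∨ p.2 = G.lo + 1)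
      · rw [if_pos h, if_pos h, if_pos rfl]
      · rw [if_neg h, if_neg h, if_neg (by norm_num)]
    have hfour : (∑ p ∈ G.Vs, if (p.1 = 1 ∨ p.1 = 2) ∧
        (p.2 = G.lo ∨ p.2 = G.lo + 1) then 1 else 0) = 4 := by
      rw [← Finset.sum_filter, ← Finset.card_eq_sum_ones]
      have : G.Vs.filter (fun p => (p.1 = 1 ∨ p.1 = 2) ∧ (p.2 = G.lo ∨ p.2 = G.lo + 1)) =
          ({1, 2} : Finset ℤ) ×ˢ ({G.lo, G.lo + 1} : Finset ℤ) := by
        ext ⟨r, x⟩
        simp only [Finset.mem_filter, G.mem_Vs, Finset.mem_product, Finset.mem_insert,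
          Finset.mem_singleton]
        exact ⟨fun h => h.2, fun h => ⟨hin r x h.1 h.2, h⟩⟩
      rw [this, Finset.card_product, Finset.card_pair (by norm_num),
        Finset.card_pair (by omega)]
    have hsum : (∑ p ∈ G.Vs, if (p.1 = 1 ∨ p.1 = 2) ∧
        (p.2 = G.lo ∨ p.2 = G.lo + 1) then 0 else 1) + (∑ p ∈ G.Vs, if (p.1 = 1 ∨ p.1 = 2) ∧
        (p.2 = G.lo ∨ p.2 = G.lo + 1) then 1 else 0) = G.Vs.card := by
      rw [← Finset.sum_add_distrib, Finset.card_eq_sum_ones]
      refine Finset.sum_congr rfl fun p _ => ?_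
      split_ifs <;> rfl
    rw [hcost]
    rw [hfour] at hsum
    exact hsum

theorem Hist.Minimal.exists_deg {G : Hist} {F : Cfg} (hm : G.Minimal F) :
    ∃ p, F.deg p ≠ 0 := by
  by_contra hcon
  push Not at hcon
  obtain ⟨F', hF', hc⟩ := one_cell G
  have h1 := hm.min F' hF'
  unfold Hist.pot at h1
  rw [Prod.Lex.toLex_le_toLex] at h1
  have h2 : G.cost F ≤ G.cost F' := by
    rcases h1 with h1 | h1
    · exact le_of_lt h1
    · exact le_of_eq h1.1
  have h3 : G.cost F = G.Vs.card := by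
    unfold Hist.cost
    rw [Finset.card_eq_sum_ones]
    refine Finset.sum_congr rfl fun p _ => ?_
    rw [hcon p]
    rfl
  omega

end MP545
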