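import Pool.Agent.Lib.MP_545c5e_lc.Euler
import Pool.Agent.Lib.MP_545c5e_lc.Attach

/-! Upper bound for the length of a shortest tour. -/

namespace MP545

private theorem TUp_reach {α : Type*} (F : SimpleGraph α) [Finite α] {v0 u : α}
    (hv0 : (F.neighborSet v0).ncard ≠ 0) (h : F.Reachable v0 u) : (F.neighborSet u).ncard ≠ 0 := by
  obtain ⟨p⟩ := h.symm
  cases p with
  | nil => exact hv0
  | cons hadj _ =>
    have : (F.neighborSet u).Nonempty := ⟨_, hadj⟩
    exact (Set.ncard_pos (Set.toFinite _)).2 this |>.ne'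

/-- `euler_circuit`, mapped to `Γ`, and `attach`; the number of edges of `F` is `n2 + 2 n4`, where
`nk` is the number of vertices of degree `k`. -/
theorem tour_upper {α : Type*} [Finite α] (Γ : SimpleGraph α) (hΓ : Γ.Connected)
    (F : SimpleGraph α) (hF : IsEvenSub Γ F) (h4 : ∀ v, (F.neighborSet v).ncard ≤ 4)
    (v0 : α) (hv0 : (F.neighborSet v0).ncard ≠ 0)
    (hc : ∀ u, (F.neighborSet u).ncard ≠ 0 → F.Reachable v0 u) :
    IsTourLength Γ (Nat.card α + defect F) := by
  classical
  have := Fintype.ofFinite α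
  obtain ⟨w, hw1, hw2⟩ := euler_circuit F hF.2 v0 hv0 hc
  have hlen : (w.mapLe hF.1).length = F.edgeSet.ncard := by
    rw [SimpleGraph.Walk.length_map, hw1]
  have hA := attach Γ hΓ v0 (w.mapLe hF.1)
  have hmiss : {u | u ∉ (w.mapLe hF.1).support} = {u | (F.neighborSet u).ncard = 0} := by
    ext u
    rw [Set.mem_ofPred_eq, Set.mem_ofPred_eq, SimpleGraph.Walk.support_mapLe_eq_support]
    constructor
    · intro h
      by_contra h'
      exact h (hw2 u h')
    · intro h h'
      exact TUp_reach F hv0 ⟨w.takeUntil u h'⟩ h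
  rw [hlen, hmiss] at hA
  have key : F.edgeSet.ncard + 2 * {u | (F.neighborSet u).ncard = 0}.ncard =
      Nat.card α + defect F := by
    unfold defect
    have e1 : {u | (F.neighborSet u).ncard = 0}.ncard =
        ∑ v : α, if (F.neighborSet v).ncard = 0 then 1 else 0 := by
      rw [Finset.sum_boole, Set.ncard_eq_toFinset_card']
      simp
    have e2 : {u | (F.neighborSet u).ncard ≠ 2}.ncard =
        ∑ v : α, if (F.neighborSet v).ncard ≠ 2 then 1 else 0 := by
      rw [Finset.sum_boole, Set.ncard_eq_toFinset_card']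
      simp
    have e3 : 2 * F.edgeSet.ncard = ∑ v : α, (F.neighborSet v).ncard := by
      have h1 := F.sum_degrees_eq_twice_card_edges
      have h2 : F.edgeSet.ncard = F.edgeFinset.card := by
        rw [Set.ncard_eq_toFinset_card']
        rfl
      rw [h2, ← h1]
      refine Finset.sum_congr rfl fun v _ => ?_
      rw [Set.ncard_eq_toFinset_card', ← SimpleGraph.card_neighborFinset_eq_degree]
      rfl
    have e4 : Nat.card α = ∑ _v : α, 1 := by
      rw [Nat.card_eq_fintype_card]
      simp
    have e5 : ∑ v : α, ((F.neighborSet v).ncard +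
        4 * (if (F.neighborSet v).ncard = 0 then 1 else 0)) =
        ∑ v : α, (2 * 1 + 2 * (if (F.neighborSet v).ncard ≠ 2 then 1 else 0)) := by
      refine Finset.sum_congr rfl fun v _ => ?_
      have h5 := h4 v
      obtain ⟨k, hk⟩ := hF.2 v
      have h6 : (F.neighborSet v).ncard = 0 ∨ (F.neighborSet v).ncard = 2 ∨
          (F.neighborSet v).ncard = 4 := by omega
      rcases h6 with h | h | h <;> rw [h] <;> simp
    rw [Finset.sum_add_distrib, Finset.sum_add_distrib, ← Finset.mul_sum, ← Finset.mul_sum,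
      ← Finset.mul_sum, ← e1, ← e2, ← e3, ← e4] at e5
    omega
  rw [← key]
  exact hA

end MP545
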