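import Pool.Agent.Lib.MP_545c5e_lc.Basic
import Pool.Agent.Lib.MP_545c5e_lc.GDefs

/-! The configuration of a subgraph of the grid graph. -/

namespace MP545

open Finset

open Classical in
/-- the configuration of a subgraph -/
noncomputable def toCfg {V : Finset (ℤ × ℤ)} (F : SimpleGraph V) : Cfg where
  H := fun r x => decide (∃ (h1 : (r, x) ∈ V) (h2 : (r, x + 1) ∈ V), F.Adj ⟨_, h1⟩ ⟨_, h2⟩)
  V := fun r x => decide (∃ (h1 : (r, x) ∈ V) (h2 : (r + 1, x) ∈ V), F.Adj ⟨_, h1⟩ ⟨_, h2⟩)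

private theorem toCfg_H {V : Finset (ℤ × ℤ)} (F : SimpleGraph V) (r x : ℤ) :
    (toCfg F).H r x = true ↔
      ∃ (h1 : (r, x) ∈ V) (h2 : (r, x + 1) ∈ V), F.Adj ⟨_, h1⟩ ⟨_, h2⟩ := by
  unfold toCfg
  simp only [decide_eq_true_eq]

private theorem toCfg_V {V : Finset (ℤ × ℤ)} (F : SimpleGraph V) (r x : ℤ) :
    (toCfg F).V r x = true ↔
      ∃ (h1 : (r, x) ∈ V) (h2 : (r + 1, x) ∈ V), F.Adj ⟨_, h1⟩ ⟨_, h2⟩ := by
  unfold toCfg
  simp only [decide_eq_true_eq]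

private theorem toCfg_iff {V : Finset (ℤ × ℤ)} (F : SimpleGraph V) {r x : ℤ}
    (hp : (r, x) ∈ V) :
    ((toCfg F).H r (x - 1) = true ↔ ∃ h : (r, x - 1) ∈ V, F.Adj ⟨(r, x), hp⟩ ⟨_, h⟩) ∧
    ((toCfg F).H r x = true ↔ ∃ h : (r, x + 1) ∈ V, F.Adj ⟨(r, x), hp⟩ ⟨_, h⟩) ∧
    ((toCfg F).V (r - 1) x = true ↔ ∃ h : (r - 1, x) ∈ V, F.Adj ⟨(r, x), hp⟩ ⟨_, h⟩) ∧
    ((toCfg F).V r x = true ↔ ∃ h : (r + 1, x) ∈ V, F.Adj ⟨(r, x), hp⟩ ⟨_, h⟩) := by
  refine ⟨?_, ?_, ?_, ?_⟩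
  · rw [toCfg_H]
    constructor
    · rintro ⟨h1, h2, h⟩
      have e : (⟨(r, x - 1 + 1), h2⟩ : V) = ⟨(r, x), hp⟩ := Subtype.ext (by simp)
      rw [e] at h
      exact ⟨h1, h.symm⟩
    · rintro ⟨h1, h⟩
      have e0 : ((r, x - 1 + 1) : ℤ × ℤ) = (r, x) := by simp
      have h2 : (r, x - 1 + 1) ∈ V := by rw [e0]; exact hp
      have e : (⟨(r, x - 1 + 1), h2⟩ : V) = ⟨(r, x), hp⟩ := Subtype.ext e0
      refine ⟨h1, h2, ?_⟩
      rw [e]; exact h.symm
  · rw [toCfg_H]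
    exact ⟨fun ⟨_, h2, h⟩ => ⟨h2, h⟩, fun ⟨h2, h⟩ => ⟨hp, h2, h⟩⟩
  · rw [toCfg_V]
    constructor
    · rintro ⟨h1, h2, h⟩
      have e : (⟨(r - 1 + 1, x), h2⟩ : V) = ⟨(r, x), hp⟩ := Subtype.ext (by simp)
      rw [e] at h
      exact ⟨h1, h.symm⟩
    · rintro ⟨h1, h⟩
      have e0 : ((r - 1 + 1, x) : ℤ × ℤ) = (r, x) := by simp
      have h2 : (r - 1 + 1, x) ∈ V := by rw [e0]; exact hp
      have e : (⟨(r - 1 + 1, x), h2⟩ : V) = ⟨(r, x), hp⟩ := Subtype.ext e0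
      refine ⟨h1, h2, ?_⟩
      rw [e]; exact h.symm
  · rw [toCfg_V]
    exact ⟨fun ⟨_, h2, h⟩ => ⟨h2, h⟩, fun ⟨h2, h⟩ => ⟨hp, h2, h⟩⟩

private theorem toCfg_grid {r x r' x' : ℤ} (h : |r - r'| + |x - x'| = 1) :
    (r' = r ∧ x' = x - 1) ∨ (r' = r ∧ x' = x + 1) ∨ (r' = r - 1 ∧ x' = x) ∨
      (r' = r + 1 ∧ x' = x) := by
  rcases abs_cases (r - r') with ⟨h1, h2⟩ | ⟨h1, h2⟩ <;>
    rcases abs_cases (x - x') with ⟨h3, h4⟩ | ⟨h3, h4⟩ <;> omega

theorem toCfg_deg {V : Finset (ℤ × ℤ)} (F : SimpleGraph V) (hF : F ≤ gridGraph V) (p : V) :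
    (toCfg F).deg p.1 = (F.neighborSet p).ncard := by
  classical
  obtain ⟨⟨r, x⟩, hp⟩ := p
  obtain ⟨e1, e2, e3, e4⟩ := toCfg_iff F hp
  set P : ℤ × ℤ → Prop := fun q => ∃ h : q ∈ V, F.Adj ⟨(r, x), hp⟩ ⟨q, h⟩ with hP
  have hset : (Subtype.val '' (F.neighborSet ⟨(r, x), hp⟩) : Set (ℤ × ℤ)) =
      ((({(r, x - 1), (r, x + 1), (r - 1, x), (r + 1, x)} : Finset (ℤ × ℤ)).filter P :
        Finset (ℤ × ℤ)) : Set (ℤ × ℤ)) := by
    ext q
    simp only [Set.mem_image, SimpleGraph.mem_neighborSet, Subtype.exists, exists_and_right,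
      exists_eq_right, Finset.coe_filter, Finset.mem_insert, Finset.mem_singleton,
      Set.mem_ofPred_eq]
    constructor
    · rintro ⟨h, ha⟩
      refine ⟨?_, h, ha⟩
      have hg : |r - q.1| + |x - q.2| = 1 := hF ha
      obtain ⟨r', x'⟩ := q
      have := toCfg_grid hg
      simp only [Prod.mk.injEq]
      exact this
    · rintro ⟨-, h⟩
      exact h
  have hcard : (F.neighborSet ⟨(r, x), hp⟩).ncard =
      (({(r, x - 1), (r, x + 1), (r - 1, x), (r + 1, x)} : Finset (ℤ × ℤ)).filter P).card := by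
    rw [← Set.ncard_image_of_injective _ Subtype.val_injective, hset, Set.ncard_coe_finset]
  rw [hcard, Finset.card_filter]
  rw [Finset.sum_insert, Finset.sum_insert, Finset.sum_insert, Finset.sum_singleton]
  · show (toCfg F).deg (r, x) = _
    rw [Cfg.deg_mk]
    have conv : ∀ (b : Bool) (Q : Prop) [Decidable Q], (b = true ↔ Q) →
        b.toNat = if Q then 1 else 0 := by
      intro b Q _ hb
      by_cases hQ : Q
      · rw [if_pos hQ, hb.2 hQ]; rfl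
      · rw [if_neg hQ]
        cases b
        · rfl
        · exact absurd (hb.1 rfl) hQ
    rw [conv _ _ e1, conv _ _ e2, conv _ _ e3, conv _ _ e4]
    ring
  · simp only [Finset.mem_singleton, Prod.mk.injEq]; omega
  · simp only [Finset.mem_insert, Finset.mem_singleton, Prod.mk.injEq]; omega
  · simp only [Finset.mem_insert, Finset.mem_singleton, Prod.mk.injEq]; omega

private theorem toCfg_deg_out {V : Finset (ℤ × ℤ)} (F : SimpleGraph V) (p : ℤ × ℤ)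
    (hp : p ∉ V) : (toCfg F).deg p = 0 := by
  obtain ⟨r, x⟩ := p
  rw [Cfg.deg_mk]
  have h1 : (toCfg F).H r (x - 1) = false := by
    rw [← Bool.not_eq_true, toCfg_H]
    rintro ⟨h1, h2, -⟩
    exact hp (by simpa using h2)
  have h2 : (toCfg F).H r x = false := by
    rw [← Bool.not_eq_true, toCfg_H]
    rintro ⟨h1, h2, -⟩
    exact hp h1
  have h3 : (toCfg F).V (r - 1) x = false := by
    rw [← Bool.not_eq_true, toCfg_V]
    rintro ⟨h1, h2, -⟩
    exact hp (by simpa using h2)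
  have h4 : (toCfg F).V r x = false := by
    rw [← Bool.not_eq_true, toCfg_V]
    rintro ⟨h1, h2, -⟩
    exact hp h1
  rw [h1, h2, h3, h4]
  rfl

theorem toCfg_good {G : Hist} {V : Finset (ℤ × ℤ)} (hV : ∀ p, p ∈ V ↔ G.In p)
    (F : SimpleGraph V) (hF : IsEvenSub (gridGraph V) F) : G.Good (toCfg F) := by
  refine ⟨?_, ?_, ?_⟩
  · intro r x h
    rw [toCfg_H] at h
    obtain ⟨h1, h2, -⟩ := h
    exact ⟨(hV _).1 h1, (hV _).1 h2⟩
  · intro r x h
    rw [toCfg_V] at h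
    obtain ⟨h1, h2, -⟩ := h
    exact ⟨(hV _).1 h1, (hV _).1 h2⟩
  · intro p
    by_cases hp : p ∈ V
    · have := toCfg_deg F hF.1 ⟨p, hp⟩
      simp only at this
      rw [this]
      exact hF.2 ⟨p, hp⟩
    · rw [toCfg_deg_out F p hp]
      exact Even.zero

theorem toCfg_cost {G : Hist} {V : Finset (ℤ × ℤ)} (hV : ∀ p, p ∈ V ↔ G.In p)
    (F : SimpleGraph V) (hF : IsEvenSub (gridGraph V) F) : G.cost (toCfg F) = defect F := by
  classical
  have hVs : G.Vs = V := by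
    ext p
    rw [G.mem_Vs, hV]
  have hset : (Subtype.val '' {v : V | (F.neighborSet v).ncard ≠ 2} : Set (ℤ × ℤ)) =
      ((V.filter (fun p => (toCfg F).deg p ≠ 2) : Finset (ℤ × ℤ)) : Set (ℤ × ℤ)) := by
    ext q
    simp only [Set.mem_image, Set.mem_ofPred_eq, Subtype.exists, exists_and_right,
      exists_eq_right, Finset.coe_filter]
    constructor
    · rintro ⟨h, ha⟩
      refine ⟨h, ?_⟩
      have := toCfg_deg F hF.1 ⟨q, h⟩
      simp only at this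
      rw [this]; exact ha
    · rintro ⟨h, ha⟩
      refine ⟨h, ?_⟩
      have := toCfg_deg F hF.1 ⟨q, h⟩
      simp only at this
      rw [← this]; exact ha
  unfold defect Hist.cost
  rw [← Set.ncard_image_of_injective _ Subtype.val_injective, hset, Set.ncard_coe_finset,
    Finset.card_filter, hVs]
  refine Finset.sum_congr rfl fun p _ => ?_
  by_cases h : (toCfg F).deg p = 2
  · rw [if_pos h, if_neg (by simp [h])]
  · rw [if_neg h, if_pos h]

end MP545
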