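import Pool.Agent.Lib.MP_545c5e_lc.WLow1

/-! Lower bound for the length of a tour. -/

namespace MP545

private theorem wlow_step {α : Type*} (H : SimpleGraph α) (hH : H.Connected) (v v0 : α)
    (h : v ≠ v0) : ∃ u, H.Adj v u ∧ H.dist u v0 < H.dist v v0 := by
  obtain ⟨p, hp⟩ := hH.exists_walk_length_eq_dist v v0
  cases p with
  | nil => exact absurd rfl h
  | @cons _ u _ hvu q =>
    refine ⟨u, hvu, ?_⟩
    have h1 := SimpleGraph.dist_le q
    rw [SimpleGraph.Walk.length_cons] at hp
    omega

/-- the edges of `D` are at least as many as the isolated vertices of `F` other than `v0` -/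
private theorem wlow_card {α : Type*} [Finite α] (F D : SimpleGraph α) (hc : (F ⊔ D).Connected)
    (v0 : α) (I : Set α) (hI : ∀ v ∈ I, v ≠ v0 ∧ F.neighborSet v = ∅) :
    I.ncard ≤ D.edgeSet.ncard := by
  classical
  have hstep : ∀ v : α, ∃ u : α, v ≠ v0 → (F ⊔ D).Adj v u ∧
      (F ⊔ D).dist u v0 < (F ⊔ D).dist v v0 := by
    intro v
    by_cases h : v = v0
    · exact ⟨v, fun h' => absurd h h'⟩
    · obtain ⟨u, hu⟩ := wlow_step _ hc v v0 h
      exact ⟨u, fun _ => hu⟩
  choose f hf using hstep
  refine Set.ncard_le_ncard_of_injOn (fun v => s(v, f v)) ?_ ?_ (Set.toFinite _)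
  · intro v hv
    obtain ⟨h1, h2⟩ := hI v hv
    have h3 := (hf v h1).1
    rw [SimpleGraph.sup_adj] at h3
    rcases h3 with h3 | h3
    · have : f v ∈ F.neighborSet v := h3
      rw [h2] at this
      exact absurd this (Set.notMem_empty _)
    · exact h3
  · intro v hv v' hv' he
    obtain ⟨h1, -⟩ := hI v hv
    obtain ⟨h1', -⟩ := hI v' hv'
    simp only [Sym2.eq_iff] at he
    rcases he with he | he
    · exact he.1
    · have a1 := (hf v h1).2
      have a2 := (hf v' h1').2
      rw [he.2] at a1
      rw [← he.1] at a2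
      omega

/-- Take `F`, `D` from `tour_split`. If `F` has an edge, then `|D|` is at least the number of
isolated vertices of `F`: fix a vertex `v0` that is not isolated in `F`; in the connected graph
`F ∪ D` the first edge of a shortest path from an isolated vertex `v` to `v0` belongs to `D` and
determines `v`. Finally `2 |F| = ∑ deg` and the degrees are 0, 2 or 4. If `F` has no edge then
`L ≥ 2 |D| ≥ 2 (n - 1)`. -/
theorem tour_lower {α : Type*} [Finite α] (Γ : SimpleGraph α)
    (h4 : ∀ v, (Γ.neighborSet v).ncard ≤ 4) {L : ℕ} (hL : IsTourLength Γ L) :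
    (∃ F, IsEvenSub Γ F ∧ Nat.card α + defect F ≤ L) ∨ 2 * (Nat.card α - 1) ≤ L := by
  classical
  have := Fintype.ofFinite α
  obtain ⟨F, D, hF, hD, hc, hle⟩ := tour_split Γ hL
  by_cases hv : ∃ v0, F.neighborSet v0 ≠ ∅
  · left
    refine ⟨F, hF, ?_⟩
    obtain ⟨v0, hv0⟩ := hv
    have h1 := wlow_card F D hc v0 {v | F.neighborSet v = ∅} (by
      intro v hv
      refine ⟨?_, hv⟩
      rintro rfl
      exact hv0 hv)
    have hdeg : ∀ v, (F.neighborSet v).ncard = 0 ∨ (F.neighborSet v).ncard = 2 ∨
        (F.neighborSet v).ncard = 4 := by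
      intro v
      have a1 : (F.neighborSet v).ncard ≤ 4 :=
        (Set.ncard_le_ncard (fun u hu => hF.1 hu) (Set.toFinite _)).trans (h4 v)
      obtain ⟨k, hk⟩ := hF.2 v
      omega
    have hsum : ∑ v, (F.neighborSet v).ncard = 2 * F.edgeSet.ncard := by
      have := F.sum_degrees_eq_twice_card_edges
      rw [← SimpleGraph.coe_edgeFinset, Set.ncard_coe_finset, ← this]
      refine Finset.sum_congr rfl fun v _ => ?_
      rw [← SimpleGraph.card_neighborSet_eq_degree, Set.ncard_eq_toFinset_card', Set.toFinset_card]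
    have hI : ({v | F.neighborSet v = ∅} : Set α).ncard =
        ∑ v, (if (F.neighborSet v).ncard = 0 then 1 else 0) := by
      rw [Finset.sum_boole, Nat.cast_id, ← Set.ncard_coe_finset]
      congr 1
      ext v
      simp [Set.ncard_eq_zero (Set.toFinite _)]
    have hdf : defect F = ∑ v, (if (F.neighborSet v).ncard ≠ 2 then 1 else 0) := by
      rw [Finset.sum_boole, Nat.cast_id, ← Set.ncard_coe_finset, defect]
      congr 1
      ext v
      simp
    have hn : Nat.card α = ∑ _v : α, 1 := by
      rw [Nat.card_eq_fintype_card]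
      simp
    have key : 2 * (Nat.card α + defect F) = 2 * (F.edgeSet.ncard +
        2 * ({v | F.neighborSet v = ∅} : Set α).ncard) := by
      rw [mul_add 2 F.edgeSet.ncard, ← hsum, hn, hdf, hI, ← Finset.sum_add_distrib,
        Finset.mul_sum, Finset.mul_sum, Finset.mul_sum, ← Finset.sum_add_distrib]
      refine Finset.sum_congr rfl fun v _ => ?_
      rcases hdeg v with h | h | h <;> simp [h]
    omega
  · right
    push Not at hv
    have hne : Nonempty α := hc.nonempty
    obtain ⟨v0⟩ := hne
    have h1 := wlow_card F D hc v0 {v0}ᶜ (by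
      intro v hv'
      exact ⟨hv', hv v⟩)
    rw [Set.ncard_compl, Set.ncard_singleton] at h1
    omega

end MP545
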