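import Pool.Agent.Lib.MP_545c5e_lc.Core
import Pool.Agent.Lib.MP_545c5e_lc.WLow
import Pool.Agent.Lib.MP_545c5e_lc.TUp
import Pool.Agent.Lib.MP_545c5e_lc.ToCfg
import Pool.Agent.Lib.MP_545c5e_lc.OfCfg
import Pool.Agent.Lib.MP_545c5e_lc.GridConn
import Pool.Agent.Lib.MP_545c5e_lc.OneCell

/-! The theorem. -/

namespace MP545

open Finset

/-- For a histogram without ties the length of a shortest tour is the number of vertices plus
the least possible number of vertices of degree different from two in an even subgraph. If the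
second alternative of `tour_lower` occurs compare with the subgraph that consists of the four
edges of one cell. -/
theorem final (G : Hist) (hG : ∀ x0 x1, ¬ G.Tie x0 x1) (V : Finset (ℤ × ℤ))
    (hV : ∀ p, p ∈ V ↔ G.In p) :
    ∃ d, IsLeast {d | ∃ F, IsEvenSub (gridGraph V) F ∧ defect F = d} d ∧
      IsLeast {L | IsTourLength (gridGraph V) L} (V.card + d) := by
  obtain ⟨F, hm⟩ := Hist.exists_minimal G
  have hconn : F.Conn := by
    rcases core hm with h | ⟨x0, x1, h, _⟩
    · exact h
    · exact absurd h (hG x0 x1)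
  have hle : ∀ F', IsEvenSub (gridGraph V) F' → G.cost F ≤ defect F' := by
    intro F' hF'
    rw [← toCfg_cost hV F' hF']
    exact hm.cost_le (toCfg_good hV F' hF')
  have hcard : Nat.card V = V.card := by simp
  have hVs : G.Vs = V := by
    ext p
    rw [G.mem_Vs, hV]
  refine ⟨G.cost F, ⟨⟨ofCfg V F, ofCfg_even hV hm.good, ofCfg_defect hV hm.good⟩, ?_⟩, ?_, ?_⟩
  · rintro d ⟨F', hF', rfl⟩
    exact hle F' hF'
  · obtain ⟨p, hp⟩ := hm.exists_deg
    have hpV : p ∈ V := (hV p).2 (hm.good.in_of_deg hp)
    have h := tour_upper (gridGraph V) (gridGraph_connected hV) (ofCfg V F)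
      (ofCfg_even hV hm.good) (fun v => by rw [ofCfg_deg hV hm.good]; exact F.deg_le_four _)
      ⟨p, hpV⟩ (by rw [ofCfg_deg hV hm.good]; exact hp)
      (fun u hu => ofCfg_reach hV hm.good _ _
        (hconn p u.1 hp (by rw [ofCfg_deg hV hm.good] at hu; exact hu)))
    rw [ofCfg_defect hV hm.good, hcard] at h
    exact h
  · intro L hL
    rcases tour_lower (gridGraph V) (fun v => gridGraph_deg v) hL with ⟨F', hF', h⟩ | h
    · rw [hcard] at h
      have := hle F' hF'
      omega
    · rw [hcard] at h
      obtain ⟨F', hF', h'⟩ := one_cell G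
      have := hm.cost_le hF'
      rw [hVs] at h'
      omega

end MP545
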