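import Pool.Agent.Lib.MP_545c5e_lc.TieGood

/-! The costs of the two parts. -/

namespace MP545

open Finset

private theorem tc_sum (G : Hist) {x0 x1 : ℤ} (ht : G.Tie x0 x1) (f : ℤ × ℤ → ℕ) :
    (∑ p ∈ (G.cutUp x0 x1 ht).Vs, f p) +
      (∑ p ∈ (G.cutDown x0 x1 ht).Vs, f (p.1 + G.h (x0 - 1), p.2)) = ∑ p ∈ G.Vs, f p := by
  classical
  have ht' := ht
  obtain ⟨t1, t2, t3, t4, t5, t6⟩ := ht'
  rw [← Finset.sum_filter_add_sum_filter_not G.Vs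
    (fun p : ℤ × ℤ => ¬ (x0 ≤ p.2 ∧ p.2 ≤ x1 ∧ G.h (x0 - 1) < p.1)) f]
  congr 1
  · apply Finset.sum_congr _ (fun _ _ => rfl)
    ext ⟨r, x⟩
    rw [Finset.mem_filter, Hist.mem_Vs, Hist.mem_Vs]
    simp only [Hist.In, Hist.cutUp]
    by_cases hc : x0 ≤ x ∧ x ≤ x1
    · rw [if_pos hc]
      have := t6 x hc.1 hc.2
      constructor
      · rintro ⟨a, b⟩
        exact ⟨⟨a, by omega⟩, by omega⟩
      · rintro ⟨⟨a, b⟩, c⟩
        exact ⟨a, by omega⟩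
    · rw [if_neg hc]
      constructor
      · rintro ⟨a, b⟩
        exact ⟨⟨a, b⟩, fun h => hc ⟨h.1, h.2.1⟩⟩
      · rintro ⟨⟨a, b⟩, c⟩
        exact ⟨a, b⟩
  · refine Finset.sum_nbij' (fun p : ℤ × ℤ => (p.1 + G.h (x0 - 1), p.2))
      (fun p : ℤ × ℤ => (p.1 - G.h (x0 - 1), p.2)) ?_ ?_ ?_ ?_ ?_
    · rintro ⟨r, x⟩ hp
      rw [Hist.mem_Vs] at hp
      rw [Finset.mem_filter, Hist.mem_Vs]
      simp only [Hist.In, Hist.cutDown] at hp ⊢
      obtain ⟨h1, h2⟩ := hp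
      split_ifs at h2 with hc
      · exact ⟨⟨by omega, by omega⟩, fun h => h ⟨hc.1, hc.2, by omega⟩⟩
      · exfalso
        omega
    · rintro ⟨r, x⟩ hp
      rw [Finset.mem_filter, Hist.mem_Vs] at hp
      rw [Hist.mem_Vs]
      simp only [Hist.In, Hist.cutDown, not_not] at hp ⊢
      obtain ⟨⟨h1, h2⟩, h3, h4, h5⟩ := hp
      rw [if_pos ⟨h3, h4⟩]
      exact ⟨by omega, by omega⟩
    · rintro ⟨r, x⟩ _
      simp only [add_sub_cancel_right]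
    · rintro ⟨r, x⟩ _
      simp only [sub_add_cancel]
    · intro p _
      rfl

theorem tie_card (G : Hist) {x0 x1 : ℤ} (ht : G.Tie x0 x1) :
    (G.cutUp x0 x1 ht).Vs.card + (G.cutDown x0 x1 ht).Vs.card = G.Vs.card := by
  have := tc_sum G ht (fun _ => 1)
  simpa only [Finset.card_eq_sum_ones] using this

theorem tie_cost {G : Hist} {F : Cfg} (hF : G.Good F) {x0 x1 : ℤ} (ht : G.Tie x0 x1)
    (hu : ∀ x, x0 ≤ x → x ≤ x1 → F.V (G.h (x0 - 1)) x = false) :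
    (G.cutUp x0 x1 ht).cost (F.up (G.h (x0 - 1)) x0 x1) +
      (G.cutDown x0 x1 ht).cost (F.down (G.h (x0 - 1)) x0 x1) = G.cost F := by
  obtain ⟨-, -, h1, h2⟩ := tie_good hF ht hu
  unfold Hist.cost
  rw [← tc_sum G ht (fun p => if F.deg p = 2 then 0 else 1)]
  congr 1
  · apply Finset.sum_congr rfl
    intro p hp
    rw [h1 p ((Hist.mem_Vs _ p).1 hp)]
  · apply Finset.sum_congr rfl
    intro p hp
    rw [h2 p ((Hist.mem_Vs _ p).1 hp)]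

end MP545
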