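import Pool.Agent.Lib.MP_545c5e_lc.CutDefs

/-! The numbers of ties of the two parts. -/

namespace MP545

open Finset

private theorem tl_up {G : Hist} {x0 x1 : ℤ} (ht : G.Tie x0 x1) {a b : ℤ}
    (h : (G.cutUp x0 x1 ht).Tie a b) : ¬ (x0 ≤ a - 1 ∧ a - 1 ≤ x1) ∧ G.Tie a b := by
  have ht' := ht
  obtain ⟨t1, t2, t3, t4, t5, t6⟩ := ht'
  obtain ⟨s1, s2, s3, s4, s5, s6⟩ := h
  simp only [Hist.cutUp] at s3 s4 s5 s6
  have sa := s6 a le_rfl s1.le
  have sb := s6 b s1.le le_rfl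
  have ha : ¬ (x0 ≤ a - 1 ∧ a - 1 ≤ x1) := by
    intro hc
    rw [if_pos hc] at sa
    by_cases hd : x0 ≤ a ∧ a ≤ x1
    · rw [if_pos hd] at sa
      omega
    · rw [if_neg hd] at sa
      have e : a = x1 + 1 := by omega
      rw [e, ← t5] at sa
      omega
  have hb : ¬ (x0 ≤ b + 1 ∧ b + 1 ≤ x1) := by
    intro hc
    rw [s5, if_pos hc] at sb
    by_cases hd : x0 ≤ b ∧ b ≤ x1
    · rw [if_pos hd] at sb
      omega
    · rw [if_neg hd] at sb
      have e : b = x0 - 1 := by omega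
      rw [e] at sb
      omega
  rw [if_neg ha] at s3 s4 s5 s6
  rw [if_neg hb] at s5
  refine ⟨ha, s1, s2, s3, s4, s5, ?_⟩
  intro x hx1 hx2
  have h1 := s6 x hx1 hx2
  split_ifs at h1 with hc
  · have h2 := t6 x hc.1 hc.2
    omega
  · exact h1

private theorem tl_down {G : Hist} {x0 x1 : ℤ} (ht : G.Tie x0 x1) {a b : ℤ}
    (h : (G.cutDown x0 x1 ht).Tie a b) : (x0 ≤ a - 1 ∧ a - 1 ≤ x1) ∧ G.Tie a b := by
  have ht' := ht
  obtain ⟨t1, t2, t3, t4, t5, t6⟩ := ht'
  obtain ⟨s1, s2, s3, s4, s5, s6⟩ := h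
  simp only [Hist.cutDown] at s3 s4 s5 s6
  have ha : x0 ≤ a - 1 ∧ a - 1 ≤ x1 := by
    by_contra hc
    rw [if_neg hc] at s3
    omega
  rw [if_pos ha] at s3 s4 s5 s6
  have hb : x0 ≤ b + 1 ∧ b + 1 ≤ x1 := by
    by_contra hc
    rw [if_neg hc] at s5
    omega
  rw [if_pos hb] at s5
  refine ⟨ha, s1, s2, by omega, by omega, by omega, ?_⟩
  intro x hx1 hx2
  have h1 := s6 x hx1 hx2
  rw [if_pos (by omega)] at h1
  omega

/-- Every tie of `cutDown` and every tie of `cutUp` is a tie of `G`, they are different, and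
different from `(x0, x1)`. (In `cutUp` the columns `x0, ..., x1` have length `t`, so they are
neither inside nor next to a tie of height at least `t`.) -/
theorem ties_lt (G : Hist) {x0 x1 : ℤ} (ht : G.Tie x0 x1) :
    (G.cutUp x0 x1 ht).ties.card + (G.cutDown x0 x1 ht).ties.card + 1 ≤ G.ties.card := by
  classical
  have hdisj : Disjoint (G.cutUp x0 x1 ht).ties (G.cutDown x0 x1 ht).ties := by
    rw [Finset.disjoint_left]
    rintro ⟨a, b⟩ h1 h2
    rw [Hist.mem_ties] at h1 h2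
    exact (tl_up ht h1).1 (tl_down ht h2).1
  have hx : (x0, x1) ∉ (G.cutUp x0 x1 ht).ties ∪ (G.cutDown x0 x1 ht).ties := by
    rw [Finset.mem_union, not_or, Hist.mem_ties, Hist.mem_ties]
    constructor
    · intro h
      obtain ⟨s1, s2, s3, s4, s5, s6⟩ := h
      have h1 := s6 x0 le_rfl s1.le
      simp only [Hist.cutUp] at h1
      rw [if_neg (by omega), if_pos ⟨le_rfl, s1.le⟩] at h1
      omega
    · intro h
      have := (tl_down ht h).1
      omega
  have hsub : insert (x0, x1) ((G.cutUp x0 x1 ht).ties ∪ (G.cutDown x0 x1 ht).ties) ⊆ G.ties := by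
    rintro ⟨a, b⟩ hp
    rw [Finset.mem_insert, Finset.mem_union, Hist.mem_ties, Hist.mem_ties] at hp
    rw [Hist.mem_ties]
    rcases hp with hp | hp | hp
    · simp only [Prod.mk.injEq] at hp
      rw [hp.1, hp.2]
      exact ht
    · exact (tl_up ht hp).2
    · exact (tl_down ht hp).2
  have hcard := Finset.card_le_card hsub
  rw [Finset.card_insert_of_notMem hx, Finset.card_union_of_disjoint hdisj] at hcard
  exact hcard

end MP545
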