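import Pool.Agent.Lib.MP_545c5e_lc.GDefs

/-! Joining two tours. -/

namespace MP545

open Finset

/-- a tour may start at any vertex -/
theorem walkJoin_rotate {α : Type*} {Γ : SimpleGraph α} {L : ℕ} (h : IsTourLength Γ L) (u : α) :
    ∃ w : Γ.Walk u u, (∀ v, v ∈ w.support) ∧ w.length = L := by
  classical
  obtain ⟨v, w, hw, hL⟩ := h
  have hs := w.take_spec (hw u)
  refine ⟨(w.dropUntil u (hw u)).append (w.takeUntil u (hw u)), ?_, ?_⟩
  · intro z
    have hz := hw z
    rw [← hs, SimpleGraph.Walk.mem_support_append_iff] at hz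
    rw [SimpleGraph.Walk.mem_support_append_iff]
    exact hz.symm
  · have h1 := congrArg SimpleGraph.Walk.length hs
    rw [SimpleGraph.Walk.length_append] at h1
    rw [SimpleGraph.Walk.length_append, add_comm, h1, hL]

/-- Two tours on the two parts of a vertex set (one of them moved by `t` rows) that contain
adjacent points `(r, x)` and `(r + 1, x) = (r' + t, x)` give a tour. -/
theorem walk_join {V V1 V2 : Finset (ℤ × ℤ)} {t : ℤ} (h1 : ∀ p ∈ V1, p ∈ V)
    (h2 : ∀ p ∈ V2, (p.1 + t, p.2) ∈ V)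
    (h3 : ∀ p ∈ V, p ∈ V1 ∨ (p.1 - t, p.2) ∈ V2) {r x r' : ℤ} (hr : (r, x) ∈ V1)
    (hr' : (r', x) ∈ V2) (he : r' + t = r + 1) {L1 L2 : ℕ}
    (hL1 : IsTourLength (gridGraph V1) L1) (hL2 : IsTourLength (gridGraph V2) L2) :
    IsTourLength (gridGraph V) (L1 + L2 + 2) := by
  obtain ⟨w1, hw1, hl1⟩ := walkJoin_rotate hL1 (⟨(r, x), hr⟩ : V1)
  obtain ⟨w2, hw2, hl2⟩ := walkJoin_rotate hL2 (⟨(r', x), hr'⟩ : V2)
  let f1 : gridGraph V1 →g gridGraph V :=
    { toFun := fun p => ⟨p.1, h1 p.1 p.2⟩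
      map_rel' := fun {p q} h => h }
  let f2 : gridGraph V2 →g gridGraph V :=
    { toFun := fun p => ⟨(p.1.1 + t, p.1.2), h2 p.1 p.2⟩
      map_rel' := fun {p q} h => by
        have h' : |p.1.1 - q.1.1| + |p.1.2 - q.1.2| = 1 := h
        change |(p.1.1 + t) - (q.1.1 + t)| + |p.1.2 - q.1.2| = 1
        rw [add_sub_add_right_eq_sub]
        exact h' }
  have hadj : (gridGraph V).Adj (f1 ⟨(r, x), hr⟩) (f2 ⟨(r', x), hr'⟩) := by
    change |r - (r' + t)| + |x - x| = 1
    rw [he, sub_self, abs_zero, add_zero, show r - (r + 1) = -1 by ring, abs_neg, abs_one]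
  refine ⟨f1 ⟨(r, x), hr⟩, (w1.map f1).append (SimpleGraph.Walk.cons hadj
    ((w2.map f2).append (SimpleGraph.Walk.cons hadj.symm SimpleGraph.Walk.nil))), ?_, ?_⟩
  · rintro ⟨u, hu⟩
    rw [SimpleGraph.Walk.mem_support_append_iff, SimpleGraph.Walk.support_cons, List.mem_cons,
      SimpleGraph.Walk.mem_support_append_iff, SimpleGraph.Walk.support_map,
      SimpleGraph.Walk.support_map, List.mem_map, List.mem_map]
    rcases h3 u hu with h | h
    · exact Or.inl ⟨⟨u, h⟩, hw1 _, rfl⟩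
    · refine Or.inr (Or.inr (Or.inl ⟨⟨(u.1 - t, u.2), h⟩, hw2 _, ?_⟩))
      apply Subtype.ext
      change (u.1 - t + t, u.2) = u
      rw [sub_add_cancel]
  · rw [SimpleGraph.Walk.length_append, SimpleGraph.Walk.length_cons,
      SimpleGraph.Walk.length_append, SimpleGraph.Walk.length_cons, SimpleGraph.Walk.length_nil,
      SimpleGraph.Walk.length_map, SimpleGraph.Walk.length_map, hl1, hl2]
    ring

end MP545
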