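import Pool.Agent.Lib.MP_545c5e_lc.Final
import Pool.Agent.Lib.MP_545c5e_lc.TieCost
import Pool.Agent.Lib.MP_545c5e_lc.TiesLt
import Pool.Agent.Lib.MP_545c5e_lc.WalkJoin

/-! Histograms with ties. -/

namespace MP545

open Finset

theorem Vs_card_pos (G : Hist) : 0 < G.Vs.card := by
  have h : ((1, G.lo) : ℤ × ℤ) ∈ G.Vs := by
    rw [G.mem_Vs, G.in_mk]
    have := G.two G.lo le_rfl G.lt.le
    omega
  exact Finset.card_pos.2 ⟨_, h⟩

theorem tour_conn {G : Hist} {F : Cfg} (hm : G.Minimal F) (hconn : F.Conn) :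
    IsTourLength (gridGraph G.Vs) (G.Vs.card + G.cost F) := by
  have hV : ∀ p, p ∈ G.Vs ↔ G.In p := G.mem_Vs
  have hcard : Nat.card G.Vs = G.Vs.card := by simp
  obtain ⟨p, hp⟩ := hm.exists_deg
  have hpV : p ∈ G.Vs := (hV p).2 (hm.good.in_of_deg hp)
  have h := tour_upper (gridGraph G.Vs) (gridGraph_connected hV) (ofCfg G.Vs F)
    (ofCfg_even hV hm.good) (fun v => by rw [ofCfg_deg hV hm.good]; exact F.deg_le_four _)
    ⟨p, hpV⟩ (by rw [ofCfg_deg hV hm.good]; exact hp)
    (fun u hu => ofCfg_reach hV hm.good _ _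
      (hconn p u.1 hp (by rw [ofCfg_deg hV hm.good] at hu; exact hu)))
  rw [ofCfg_defect hV hm.good, hcard] at h
  exact h

/-- By strong induction on the number of points, with `core`, `tie_good`, `tie_cost`, `ties_lt`,
`walk_join`: there is a tour of length at most `|V| + cost F + 2 τ` for a minimal `F`. -/
theorem tour_ties (k : ℕ) : ∀ (G : Hist), G.Vs.card = k → ∀ F, G.Good F →
    ∃ L, IsTourLength (gridGraph G.Vs) L ∧ L ≤ G.Vs.card + G.cost F + 2 * G.ties.card := by
  induction k using Nat.strong_induction_on with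
  | _ k ih =>
    intro G hk F hF
    obtain ⟨F0, hm⟩ := Hist.exists_minimal G
    have hle := hm.cost_le hF
    rcases core hm with hconn | ⟨x0, x1, ht, hu⟩
    · exact ⟨_, tour_conn hm hconn, by omega⟩
    · obtain ⟨g1, g2, _, _⟩ := tie_good hm.good ht hu
      have hcost := tie_cost hm.good ht hu
      have hcard := tie_card G ht
      have hties := ties_lt G ht
      have p1 := Vs_card_pos (G.cutUp x0 x1 ht)
      have p2 := Vs_card_pos (G.cutDown x0 x1 ht)
      obtain ⟨L1, hL1, hL1'⟩ := ih (G.cutUp x0 x1 ht).Vs.card (by omega)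
        (G.cutUp x0 x1 ht) rfl _ g1
      obtain ⟨L2, hL2, hL2'⟩ := ih (G.cutDown x0 x1 ht).Vs.card (by omega)
        (G.cutDown x0 x1 ht) rfl _ g2
      obtain ⟨t1, t2, t3, t4, t5, t6⟩ := ht
      have ht : G.Tie x0 x1 := ⟨t1, t2, t3, t4, t5, t6⟩
      refine ⟨L1 + L2 + 2, ?_, by omega⟩
      refine walk_join (V := G.Vs) (V1 := (G.cutUp x0 x1 ht).Vs) (V2 := (G.cutDown x0 x1 ht).Vs)
        (t := G.h (x0 - 1)) ?_ ?_ ?_ (r := G.h (x0 - 1)) (x := x0) (r' := 1) ?_ ?_ (by ring)
        hL1 hL2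
      · intro p hp
        rw [Hist.mem_Vs] at hp ⊢
        obtain ⟨a1, a2⟩ := hp
        refine ⟨a1, a2.trans ?_⟩
        show (if x0 ≤ p.2 ∧ p.2 ≤ x1 then G.h (x0 - 1) else G.h p.2) ≤ G.h p.2
        split_ifs with hc
        · have := t6 p.2 hc.1 hc.2
          omega
        · exact le_rfl
      · intro p hp
        rw [Hist.mem_Vs] at hp ⊢
        obtain ⟨a1, a2⟩ := hp
        have a2' : p.1 ≤ (if x0 ≤ p.2 ∧ p.2 ≤ x1 then G.h p.2 - G.h (x0 - 1) else 0) := a2
        split_ifs at a2' with hc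
        · refine ⟨?_, ?_⟩
          · show 1 ≤ p.1 + G.h (x0 - 1)
            omega
          · show p.1 + G.h (x0 - 1) ≤ G.h p.2
            omega
        · omega
      · intro p hp
        rw [Hist.mem_Vs] at hp
        obtain ⟨a1, a2⟩ := hp
        by_cases hc : x0 ≤ p.2 ∧ p.2 ≤ x1
        · by_cases hr : p.1 ≤ G.h (x0 - 1)
          · left
            rw [Hist.mem_Vs]
            refine ⟨a1, ?_⟩
            show p.1 ≤ (if x0 ≤ p.2 ∧ p.2 ≤ x1 then G.h (x0 - 1) else G.h p.2)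
            rw [if_pos hc]
            exact hr
          · right
            rw [Hist.mem_Vs]
            refine ⟨?_, ?_⟩
            · show 1 ≤ p.1 - G.h (x0 - 1)
              omega
            · show p.1 - G.h (x0 - 1) ≤
                (if x0 ≤ p.2 ∧ p.2 ≤ x1 then G.h p.2 - G.h (x0 - 1) else 0)
              rw [if_pos hc]
              omega
        · left
          rw [Hist.mem_Vs]
          refine ⟨a1, ?_⟩
          show p.1 ≤ (if x0 ≤ p.2 ∧ p.2 ≤ x1 then G.h (x0 - 1) else G.h p.2)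
          rw [if_neg hc]
          exact a2
      · rw [Hist.mem_Vs]
        refine ⟨?_, ?_⟩
        · show 1 ≤ G.h (x0 - 1)
          omega
        · show G.h (x0 - 1) ≤ (if x0 ≤ x0 ∧ x0 ≤ x1 then G.h (x0 - 1) else G.h x0)
          rw [if_pos ⟨le_rfl, by omega⟩]
      · rw [Hist.mem_Vs]
        refine ⟨le_rfl, ?_⟩
        show 1 ≤ (if x0 ≤ x0 ∧ x0 ≤ x1 then G.h x0 - G.h (x0 - 1) else 0)
        rw [if_pos ⟨le_rfl, by omega⟩]
        have := t6 x0 le_rfl (by omega)
        omega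

theorem final2 (G : Hist) (V : Finset (ℤ × ℤ)) (hV : ∀ p, p ∈ V ↔ G.In p) :
    ∃ d L, IsLeast {d | ∃ F, IsEvenSub (gridGraph V) F ∧ defect F = d} d ∧
      IsLeast {L | IsTourLength (gridGraph V) L} L ∧
      V.card + d ≤ L ∧ L ≤ V.card + d + 2 * G.ties.card := by
  have hVs : V = G.Vs := by
    ext p
    rw [G.mem_Vs, hV]
  obtain ⟨F, hm⟩ := Hist.exists_minimal G
  have hle : ∀ F', IsEvenSub (gridGraph V) F' → G.cost F ≤ defect F' := by
    intro F' hF'
    rw [← toCfg_cost hV F' hF']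
    exact hm.cost_le (toCfg_good hV F' hF')
  have hcard : Nat.card V = V.card := by simp
  have hlow : ∀ L, IsTourLength (gridGraph V) L → V.card + G.cost F ≤ L := by
    intro L hL
    rcases tour_lower (gridGraph V) (fun v => gridGraph_deg v) hL with ⟨F', hF', h⟩ | h
    · rw [hcard] at h
      have := hle F' hF'
      omega
    · rw [hcard] at h
      obtain ⟨F', hF', h'⟩ := one_cell G
      have := hm.cost_le hF'
      rw [← hVs] at h'
      omega
  obtain ⟨L0, hL0, hL0'⟩ := tour_ties _ G rfl F hm.good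
  rw [← hVs] at hL0 hL0'
  have hne : {L | IsTourLength (gridGraph V) L}.Nonempty := ⟨L0, hL0⟩
  have hmem := Nat.sInf_mem hne
  refine ⟨G.cost F, sInf {L | IsTourLength (gridGraph V) L},
    ⟨⟨ofCfg V F, ofCfg_even hV hm.good, ofCfg_defect hV hm.good⟩, ?_⟩,
    ⟨hmem, fun L hL => Nat.sInf_le hL⟩, hlow _ hmem, (Nat.sInf_le hL0).trans hL0'⟩
  rintro d ⟨F', hF', rfl⟩
  exact hle F' hF'

end MP545
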