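import Pool.Agent.Lib.MP_545c5e_lc.Basic

/-! Flipping a cell. -/

namespace MP545

open Finset

namespace Cfg

private theorem fl_H (F : Cfg) (r x r' x' : ℤ) : (F.flip r x).H r' x' =
    if x' = x ∧ (r' = r ∨ r' = r + 1) then !F.H r' x' else F.H r' x' := rfl

private theorem fl_V (F : Cfg) (r x r' x' : ℤ) : (F.flip r x).V r' x' =
    if r' = r ∧ (x' = x ∨ x' = x + 1) then !F.V r' x' else F.V r' x' := rfl

theorem flip_deg_tl (F : Cfg) (r x : ℤ) : (F.flip r x).deg (r, x) =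
    (F.H r (x - 1)).toNat + (!F.H r x).toNat + (F.V (r - 1) x).toNat + (!F.V r x).toNat := by
  rw [deg_mk, fl_H, fl_H, fl_V, fl_V]
  rw [if_neg (by omega), if_pos (by omega), if_neg (by omega), if_pos (by omega)]

theorem flip_deg_tr (F : Cfg) (r x : ℤ) : (F.flip r x).deg (r, x + 1) =
    (!F.H r x).toNat + (F.H r (x + 1)).toNat + (F.V (r - 1) (x + 1)).toNat
      + (!F.V r (x + 1)).toNat := by
  have e : x + 1 - 1 = x := by ring
  rw [deg_mk, e, fl_H, fl_H, fl_V, fl_V]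
  rw [if_pos (by omega), if_neg (by omega), if_neg (by omega), if_pos (by omega)]

theorem flip_deg_bl (F : Cfg) (r x : ℤ) : (F.flip r x).deg (r + 1, x) =
    (F.H (r + 1) (x - 1)).toNat + (!F.H (r + 1) x).toNat + (!F.V r x).toNat
      + (F.V (r + 1) x).toNat := by
  have e : r + 1 - 1 = r := by ring
  rw [deg_mk, e, fl_H, fl_H, fl_V, fl_V]
  rw [if_neg (by omega), if_pos (by omega), if_pos (by omega), if_neg (by omega)]

theorem flip_deg_br (F : Cfg) (r x : ℤ) : (F.flip r x).deg (r + 1, x + 1) =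
    (!F.H (r + 1) x).toNat + (F.H (r + 1) (x + 1)).toNat + (!F.V r (x + 1)).toNat
      + (F.V (r + 1) (x + 1)).toNat := by
  have e : r + 1 - 1 = r := by ring
  have e' : x + 1 - 1 = x := by ring
  rw [deg_mk, e, e', fl_H, fl_H, fl_V, fl_V]
  rw [if_pos (by omega), if_neg (by omega), if_pos (by omega), if_neg (by omega)]

theorem flip_deg_other (F : Cfg) (r x : ℤ) (p : ℤ × ℤ) (h1 : p ≠ (r, x)) (h2 : p ≠ (r, x + 1))
    (h3 : p ≠ (r + 1, x)) (h4 : p ≠ (r + 1, x + 1)) : (F.flip r x).deg p = F.deg p := by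
  obtain ⟨r', x'⟩ := p
  rw [Ne, Prod.mk.injEq] at h1 h2 h3 h4
  rw [deg_mk, deg_mk, fl_H, fl_H, fl_V, fl_V]
  rw [if_neg (by omega), if_neg (by omega), if_neg (by omega), if_neg (by omega)]

end Cfg

private theorem fl_not (b : Bool) : (!b).toNat + b.toNat = 1 := by cases b <;> rfl

theorem flip_good {G : Hist} {F : Cfg} (hF : G.Good F) {r x : ℤ} (h1 : G.In (r, x))
    (h2 : G.In (r + 1, x)) (h3 : G.In (r + 1, x + 1)) : G.Good (F.flip r x) := by
  have h4 : G.In (r, x + 1) := Hist.in_up h3 h1.1 (by omega)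
  refine ⟨?_, ?_, ?_⟩
  · intro r' x' h
    rw [Cfg.fl_H] at h
    by_cases hc : x' = x ∧ (r' = r ∨ r' = r + 1)
    · obtain ⟨rfl, rfl | rfl⟩ := hc
      · exact ⟨h1, h4⟩
      · exact ⟨h2, h3⟩
    · rw [if_neg hc] at h
      exact hF.H r' x' h
  · intro r' x' h
    rw [Cfg.fl_V] at h
    by_cases hc : r' = r ∧ (x' = x ∨ x' = x + 1)
    · obtain ⟨rfl, rfl | rfl⟩ := hc
      · exact ⟨h1, h2⟩
      · exact ⟨h4, h3⟩
    · rw [if_neg hc] at h
      exact hF.V r' x' h
  · intro p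
    have a1 := fl_not (F.H r x)
    have a2 := fl_not (F.V r x)
    have a3 := fl_not (F.V r (x + 1))
    have a4 := fl_not (F.H (r + 1) x)
    by_cases c1 : p = (r, x)
    · subst c1
      obtain ⟨k, hk⟩ := hF.even (r, x)
      rw [Cfg.deg_mk] at hk
      rw [Cfg.flip_deg_tl, Nat.even_iff]
      omega
    by_cases c2 : p = (r, x + 1)
    · subst c2
      obtain ⟨k, hk⟩ := hF.even (r, x + 1)
      have e : x + 1 - 1 = x := by ring
      rw [Cfg.deg_mk, e] at hk
      rw [Cfg.flip_deg_tr, Nat.even_iff]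
      omega
    by_cases c3 : p = (r + 1, x)
    · subst c3
      obtain ⟨k, hk⟩ := hF.even (r + 1, x)
      have e : r + 1 - 1 = r := by ring
      rw [Cfg.deg_mk, e] at hk
      rw [Cfg.flip_deg_bl, Nat.even_iff]
      omega
    by_cases c4 : p = (r + 1, x + 1)
    · subst c4
      obtain ⟨k, hk⟩ := hF.even (r + 1, x + 1)
      have e : r + 1 - 1 = r := by ring
      have e' : x + 1 - 1 = x := by ring
      rw [Cfg.deg_mk, e, e'] at hk
      rw [Cfg.flip_deg_br, Nat.even_iff]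
      omega
    rw [Cfg.flip_deg_other F r x p c1 c2 c3 c4]
    exact hF.even p

end MP545
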