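import Pool.Agent.Lib.MP_545c5e_lc.Basic

/-! A full ladder contains the ladders of all lengths. -/

namespace MP545

theorem Full.lad {F : Cfg} {a i : ℤ} (h : Full F a i) {s : ℤ} (h2 : 2 ≤ s) (hi : s < i)
    (he : Even s) : Lad F a s i := by
  have ho := h.odd
  have k1 : ∀ r : ℤ, Odd (i - r) → Even r := by
    intro r hr
    obtain ⟨k, hk⟩ := ho
    obtain ⟨m, hm⟩ := hr
    exact ⟨k - m, by omega⟩
  have k2 : ∀ r : ℤ, Even (i - r) → Odd r := by
    intro r hr
    obtain ⟨k, hk⟩ := ho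
    obtain ⟨m, hm⟩ := hr
    exact ⟨k - m, by omega⟩
  have hodd : Odd (i - s) := by
    obtain ⟨k, hk⟩ := ho
    obtain ⟨m, hm⟩ := he
    exact ⟨k - m, by omega⟩
  exact
    { lt := hi
      par := hodd
      capH := h.C1 i (by omega) le_rfl ho
      capV := h.C2 i (by omega) le_rfl ho
      capV' := h.C3 i (by omega) le_rfl ho
      capL := h.C4 i (by omega) le_rfl ho
      capR := h.C5 i (by omega) le_rfl ho
      T1 := fun r a1 a2 a3 => h.T1 r (by omega) a2 (k1 r a3)
      T2 := fun r a1 a2 a3 => h.T2 r (by omega) a2 (k1 r a3)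
      T3 := fun r a1 a2 a3 => h.T3 r (by omega) a2 (k1 r a3)
      T4 := fun r a1 a2 a3 => h.T4 r (by omega) a2 (k1 r a3)
      T5 := fun r a1 a2 a3 => h.T5 r (by omega) a2 (k1 r a3)
      T6 := fun r a1 a2 a3 => h.T6 r (by omega) a2 (k1 r a3)
      T7 := fun r a1 a2 a3 => h.T7 r (by omega) a2 (k1 r a3)
      C1 := fun r a1 a2 a3 => h.C1 r (by omega) (by omega) (k2 r a3)
      C2 := fun r a1 a2 a3 => h.C2 r (by omega) (by omega) (k2 r a3)
      C3 := fun r a1 a2 a3 => h.C3 r (by omega) (by omega) (k2 r a3)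
      C4 := fun r a1 a2 a3 => h.C4 r (by omega) (by omega) (k2 r a3)
      C5 := fun r a1 a2 a3 => h.C5 r (by omega) (by omega) (k2 r a3) }

end MP545
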