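import Pool.Agent.Lib.MP_545c5e_lc.IsoCell
import Pool.Agent.Lib.MP_545c5e_lc.Mirror

/-! Isolated points are at the end of their column. -/

namespace MP545

open Finset

/-- By `iso_cell` and its reflection. If `(r, x)` is isolated and not the last point of its
column, then `(r + 1, x)` has a lateral neighbour in the histogram, say on the right; so the edge
to the right is not used, the edge up is not used, the degree is 2, so the edge to the left is
used, which contradicts the reflected `iso_cell`. -/
theorem iso_bottom {G : Hist} {F : Cfg} (hm : G.Minimal F) (p : ℤ × ℤ) (hp : G.In p)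
    (h0 : F.deg p = 0) : p.1 = G.h p.2 := by
  obtain ⟨r, x⟩ := p
  by_contra hne
  have hr : 1 ≤ r := hp.1
  have hrx : r ≤ G.h x := hp.2
  simp only at hne
  have h1 : G.In (r + 1, x) := ⟨by simp only; omega, by simp only; omega⟩
  have hA : G.In (r + 1, x + 1) → F.H (r + 1) x = false ∧ F.deg (r + 1, x) = 2 := fun h2 =>
    iso_cell hm h0 hr h1 h2
  have hB : G.In (r + 1, x - 1) → F.H (r + 1) (x - 1) = false ∧ F.deg (r + 1, x) = 2 := by
    intro h2
    have hm' := Hist.Minimal.mir hm
    have e1 : F.mir.deg (r, -x) = 0 := by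
      rw [Cfg.mir_deg]
      simpa using h0
    have e2 : G.mir.In (r + 1, -x) := by
      rw [Hist.mir_in]
      simpa using h1
    have e3 : G.mir.In (r + 1, -x + 1) := by
      rw [Hist.mir_in]
      have : -(-x + 1) = x - 1 := by ring
      simpa [this] using h2
    have h3 := iso_cell hm' e1 hr e2 e3
    refine ⟨?_, ?_⟩
    · have h4 : F.H (r + 1) (-(-x) - 1) = false := h3.1
      rwa [neg_neg] at h4
    · have h4 := h3.2
      rw [Cfg.mir_deg] at h4
      simpa using h4
  have hV : F.V r x = false := by
    rw [Cfg.deg_mk] at h0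
    cases hv : F.V r x
    · rfl
    · rw [hv] at h0
      simp at h0
  have hdeg : F.deg (r + 1, x) = (F.H (r + 1) (x - 1)).toNat + (F.H (r + 1) x).toNat +
      (F.V (r + 1) x).toNat := by
    rw [Cfg.deg_mk]
    have e : r + 1 - 1 = r := by ring
    rw [e, hV]
    simp
  have b1 := Cfg.toNat_le_one (F.V (r + 1) x)
  rcases G.side h1 with h2 | h2
  · obtain ⟨h3, h4⟩ := hB h2
    rw [hdeg, h3] at h4
    cases h5 : F.H (r + 1) x
    · rw [h5] at h4
      simp at h4
      omega
    · have h6 := (hm.good.H _ _ h5).2
      have h7 := (hA h6).1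
      rw [h5] at h7
      cases h7
  · obtain ⟨h3, h4⟩ := hA h2
    rw [hdeg, h3] at h4
    cases h5 : F.H (r + 1) (x - 1)
    · rw [h5] at h4
      simp at h4
      omega
    · have h6 := (hm.good.H _ _ h5).1
      have h7 := (hB h6).1
      rw [h5] at h7
      cases h7

end MP545
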