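import Pool.Agent.Lib.MP_545c5e_lc.Use
import Pool.Agent.Lib.MP_545c5e_lc.Abs
import Pool.Agent.Lib.MP_545c5e_lc.Flip

/-! Isolated points that are not at the end of their column. -/

namespace MP545

open Finset

private theorem ic_edges {F F' : Cfg} {ψ : ℤ × ℤ → ℤ × ℤ}
    (hH : ∀ r x, F.H r x = true → F'.Reach (ψ (r, x)) (ψ (r, x + 1)))
    (hV : ∀ r x, F.V r x = true → F'.Reach (ψ (r, x)) (ψ (r + 1, x))) :
    ∀ p q, F.Adj p q → F'.Reach (ψ p) (ψ q) := by
  rintro ⟨r, x⟩ ⟨r', x'⟩ h
  rcases h with ⟨h, e⟩ | ⟨h, e⟩ | ⟨h, e⟩ | ⟨h, e⟩ <;> simp only [Prod.mk.injEq] at e h <;>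
    obtain ⟨rfl, rfl⟩ := e
  · exact hH _ _ h
  · exact (hH _ _ h).symm
  · exact hV _ _ h
  · exact (hV _ _ h).symm

private theorem ic_zero {b : Bool} (h : b.toNat = 0) : b = false := by
  cases b
  · rfl
  · simp at h

private theorem ic_le (b : Bool) : b.toNat ≤ 1 := by cases b <;> simp

/-- Let `v = (r, x)` be isolated, `w = (r + 1, x)`, `u = (r, x + 1)`, `z = (r + 1, x + 1)`. Flip
the cell. If `uz` and `wz` are both used then `v` gets degree two, `z` loses two, `u` and `w`
keep their degrees (use3 with ψ = id except ψ z = v; if `z` had degree 4 the cost drops). If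
exactly one of them is used, `v` gets degree 2 and `w` (or `u`) goes from 0 to 2 or from 2 to 4
(use3 with ψ = id). If none is used, all of `u, w, z` have degree at most 2, and if one of them
has degree 0 then the cost does not increase (use3 with ψ = id). So none is used and all three
have degree 2. -/
theorem iso_cell {G : Hist} {F : Cfg} (hm : G.Minimal F) {r x : ℤ} (h0 : F.deg (r, x) = 0)
    (hr : 1 ≤ r) (h1 : G.In (r + 1, x)) (h2 : G.In (r + 1, x + 1)) :
    F.H (r + 1) x = false ∧ F.deg (r + 1, x) = 2 := by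
  classical
  have hinv : G.In (r, x) := Hist.in_up h1 hr (by omega)
  have hinu : G.In (r, x + 1) := Hist.in_up h2 hr (by omega)
  have hgood := flip_good hm.good hinv h1 h2
  set F' := F.flip r x with hF'
  have hN : r + 1 ≤ G.N := h1.le_N
  -- the edges at v
  have h0' := h0
  rw [Cfg.deg_mk] at h0'
  have ht : F.H r x = false := ic_zero (by omega)
  have hl : F.V r x = false := ic_zero (by omega)
  -- degrees in F
  have ex : x + 1 - 1 = x := by ring
  have er : r + 1 - 1 = r := by ring
  have du : F.deg (r, x + 1) = (F.H r (x + 1)).toNat + (F.V (r - 1) (x + 1)).toNat +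
      (F.V r (x + 1)).toNat := by
    rw [Cfg.deg_mk, ex, ht]; simp
  have dw : F.deg (r + 1, x) = (F.H (r + 1) (x - 1)).toNat + (F.H (r + 1) x).toNat +
      (F.V (r + 1) x).toNat := by
    rw [Cfg.deg_mk, er, hl]; simp
  have dz : F.deg (r + 1, x + 1) = (F.H (r + 1) x).toNat + (F.H (r + 1) (x + 1)).toNat +
      (F.V r (x + 1)).toNat + (F.V (r + 1) (x + 1)).toNat := by
    rw [Cfg.deg_mk, er, ex]
  -- degrees in F'
  have dv' : F'.deg (r, x) = 2 := by
    rw [hF', Cfg.flip_deg_tl, ht, hl]
    simp only [Bool.not_false, Bool.toNat_true]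
    omega
  have du' : F'.deg (r, x + 1) = 1 + (F.H r (x + 1)).toNat + (F.V (r - 1) (x + 1)).toNat
      + (!F.V r (x + 1)).toNat := by
    rw [hF', Cfg.flip_deg_tr, ht]; simp
  have dw' : F'.deg (r + 1, x) = (F.H (r + 1) (x - 1)).toNat + (!F.H (r + 1) x).toNat + 1
      + (F.V (r + 1) x).toNat := by
    rw [hF', Cfg.flip_deg_bl, hl]; simp
  have dz' : F'.deg (r + 1, x + 1) = (!F.H (r + 1) x).toNat + (F.H (r + 1) (x + 1)).toNat
      + (!F.V r (x + 1)).toNat + (F.V (r + 1) (x + 1)).toNat := by
    rw [hF', Cfg.flip_deg_br]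
  have dother : ∀ p : ℤ × ℤ, p ≠ (r, x) → p ≠ (r, x + 1) → p ≠ (r + 1, x) →
      p ≠ (r + 1, x + 1) → F'.deg p = F.deg p := fun p a b c d =>
    Cfg.flip_deg_other F r x p a b c d
  -- the four points are distinct
  have n1 : ((r, x) : ℤ × ℤ) ≠ (r, x + 1) := by
    intro h; rw [Prod.mk.injEq] at h; omega
  have n2 : ((r, x) : ℤ × ℤ) ≠ (r + 1, x) := by
    intro h; rw [Prod.mk.injEq] at h; omega
  have n3 : ((r, x) : ℤ × ℤ) ≠ (r + 1, x + 1) := by
    intro h; rw [Prod.mk.injEq] at h; omega
  have n4 : ((r, x + 1) : ℤ × ℤ) ≠ (r + 1, x) := by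
    intro h; rw [Prod.mk.injEq] at h; omega
  have n5 : ((r, x + 1) : ℤ × ℤ) ≠ (r + 1, x + 1) := by
    intro h; rw [Prod.mk.injEq] at h; omega
  have n6 : ((r + 1, x) : ℤ × ℤ) ≠ (r + 1, x + 1) := by
    intro h; rw [Prod.mk.injEq] at h; omega
  have hsum : ∀ f : ℤ × ℤ → ℕ,
      ∑ p ∈ ({(r, x), (r, x + 1), (r + 1, x), (r + 1, x + 1)} : Finset (ℤ × ℤ)), f p =
        f (r, x) + (f (r, x + 1) + (f (r + 1, x) + f (r + 1, x + 1))) := by
    intro f
    rw [Finset.sum_insert, Finset.sum_insert, Finset.sum_insert, Finset.sum_singleton]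
    · simpa using n6
    · simp only [Finset.mem_insert, Finset.mem_singleton, not_or]; exact ⟨n4, n5⟩
    · simp only [Finset.mem_insert, Finset.mem_singleton, not_or]; exact ⟨n1, n2, n3⟩
  have hS : ({(r, x), (r, x + 1), (r + 1, x), (r + 1, x + 1)} : Finset (ℤ × ℤ)) ⊆ G.Vs := by
    intro p hp
    simp only [Finset.mem_insert, Finset.mem_singleton] at hp
    rw [G.mem_Vs]
    rcases hp with rfl | rfl | rfl | rfl
    · exact hinv
    · exact hinu
    · exact h1
    · exact h2
  have hcost_lt : (if F'.deg (r, x) = 2 then 0 else 1) + ((if F'.deg (r, x + 1) = 2 then 0 else 1) +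
      ((if F'.deg (r + 1, x) = 2 then 0 else 1) + (if F'.deg (r + 1, x + 1) = 2 then 0 else 1))) <
      (if F.deg (r, x) = 2 then 0 else 1) + ((if F.deg (r, x + 1) = 2 then 0 else 1) +
      ((if F.deg (r + 1, x) = 2 then 0 else 1) + (if F.deg (r + 1, x + 1) = 2 then 0 else 1))) →
      False := by
    intro h
    have h3 : G.cost F' < G.cost F := by
      unfold Hist.cost
      apply Hist.sum_lt_of_change hS
      · intro p _ hp
        simp only [Finset.mem_insert, Finset.mem_singleton, not_or] at hp
        rw [dother p hp.1 hp.2.1 hp.2.2.1 hp.2.2.2]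
      · rw [hsum, hsum]
        exact h
    have h4 := hm.cost_le hgood
    omega
  have hcost_le : (if F'.deg (r, x) = 2 then 0 else 1) + ((if F'.deg (r, x + 1) = 2 then 0 else 1) +
      ((if F'.deg (r + 1, x) = 2 then 0 else 1) + (if F'.deg (r + 1, x + 1) = 2 then 0 else 1))) ≤
      (if F.deg (r, x) = 2 then 0 else 1) + ((if F.deg (r, x + 1) = 2 then 0 else 1) +
      ((if F.deg (r + 1, x) = 2 then 0 else 1) + (if F.deg (r + 1, x + 1) = 2 then 0 else 1))) →
      G.cost F' ≤ G.cost F := by
    intro h
    unfold Hist.cost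
    apply Hist.sum_le_of_change hS
    · intro p _ hp
      simp only [Finset.mem_insert, Finset.mem_singleton, not_or] at hp
      rw [dother p hp.1 hp.2.1 hp.2.2.1 hp.2.2.2]
    · rw [hsum, hsum]
      exact h
  have hW_lt : (if F'.deg (r, x) = 0 then (G.N + 1 - r).toNat else 0) +
      ((if F'.deg (r, x + 1) = 0 then (G.N + 1 - r).toNat else 0) +
      ((if F'.deg (r + 1, x) = 0 then (G.N + 1 - (r + 1)).toNat else 0) +
        (if F'.deg (r + 1, x + 1) = 0 then (G.N + 1 - (r + 1)).toNat else 0))) <
      (if F.deg (r, x) = 0 then (G.N + 1 - r).toNat else 0) +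
      ((if F.deg (r, x + 1) = 0 then (G.N + 1 - r).toNat else 0) +
      ((if F.deg (r + 1, x) = 0 then (G.N + 1 - (r + 1)).toNat else 0) +
        (if F.deg (r + 1, x + 1) = 0 then (G.N + 1 - (r + 1)).toNat else 0))) →
      G.W F' < G.W F := by
    intro h
    unfold Hist.W
    apply Hist.sum_lt_of_change hS
    · intro p _ hp
      simp only [Finset.mem_insert, Finset.mem_singleton, not_or] at hp
      rw [dother p hp.1 hp.2.1 hp.2.2.1 hp.2.2.2]
    · rw [hsum, hsum]
      exact h
  -- edges of F'
  have hHk : ∀ r' x', F.H r' x' = true → ¬ (r' = r + 1 ∧ x' = x) → F'.H r' x' = true := by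
    intro r' x' h hne
    have hne2 : ¬ (x' = x ∧ (r' = r ∨ r' = r + 1)) := by
      rintro ⟨rfl, rfl | rfl⟩
      · rw [h] at ht; exact absurd ht (by simp)
      · exact hne ⟨rfl, rfl⟩
    show (if x' = x ∧ (r' = r ∨ r' = r + 1) then !F.H r' x' else F.H r' x') = true
    rw [if_neg hne2]; exact h
  have hVk : ∀ r' x', F.V r' x' = true → ¬ (r' = r ∧ x' = x + 1) → F'.V r' x' = true := by
    intro r' x' h hne
    have hne2 : ¬ (r' = r ∧ (x' = x ∨ x' = x + 1)) := by
      rintro ⟨rfl, rfl | rfl⟩
      · rw [h] at hl; exact absurd hl (by simp)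
      · exact hne ⟨rfl, rfl⟩
    show (if r' = r ∧ (x' = x ∨ x' = x + 1) then !F.V r' x' else F.V r' x') = true
    rw [if_neg hne2]; exact h
  have hTop : F'.H r x = true := by
    show (if x = x ∧ (r = r ∨ r = r + 1) then !F.H r x else F.H r x) = true
    rw [if_pos ⟨rfl, Or.inl rfl⟩, ht]; rfl
  have hLeft : F'.V r x = true := by
    show (if r = r ∧ (x = x ∨ x = x + 1) then !F.V r x else F.V r x) = true
    rw [if_pos ⟨rfl, Or.inl rfl⟩, hl]; rfl
  have hBot : F.H (r + 1) x = false → F'.H (r + 1) x = true := by
    intro h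
    show (if x = x ∧ (r + 1 = r ∨ r + 1 = r + 1) then !F.H (r + 1) x else F.H (r + 1) x) = true
    rw [if_pos ⟨rfl, Or.inr rfl⟩, h]; rfl
  have hRight : F.V r (x + 1) = false → F'.V r (x + 1) = true := by
    intro h
    show (if r = r ∧ (x + 1 = x ∨ x + 1 = x + 1) then !F.V r (x + 1) else F.V r (x + 1)) = true
    rw [if_pos ⟨rfl, Or.inr rfl⟩, h]; rfl
  have rvu : F'.Reach (r, x) (r, x + 1) := Cfg.reach_H hTop
  have rvw : F'.Reach (r, x) (r + 1, x) := Cfg.reach_V hLeft
  -- parities
  have pu := hm.good.deg_cases (r, x + 1)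
  have pw := hm.good.deg_cases (r + 1, x)
  have pz := hm.good.deg_cases (r + 1, x + 1)
  have b1 := ic_le (F.H r (x + 1))
  have b2 := ic_le (F.V (r - 1) (x + 1))
  have b3 := ic_le (F.H (r + 1) (x - 1))
  have b4 := ic_le (F.V (r + 1) x)
  have b5 := ic_le (F.H (r + 1) (x + 1))
  have b6 := ic_le (F.V (r + 1) (x + 1))
  -- the main use
  have finish : (∀ p q, F.Adj p q → F'.Reach p q) →
      (∀ p', F'.deg p' ≠ 0 → ∃ p, F.deg p ≠ 0 ∧ F'.Reach p p') →
      (∀ p, F.deg p ≠ 0 → F'.deg p ≠ 0) → G.cost F' ≤ G.cost F → G.W F' < G.W F → False := by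
    intro ha hb hc hcost hW
    obtain ⟨k1, k2⟩ := mono_lev hm.good (fun p => p) ha hb (fun p hp => ⟨hc p hp, le_rfl⟩)
    exact hm.use3 hgood hcost k1 k2 hW
  cases hbt : F.H (r + 1) x
  · cases hrt : F.V r (x + 1)
    · -- none is used
      refine ⟨rfl, ?_⟩
      rw [hbt] at dw dz dw' dz'
      rw [hrt] at du dz du' dz'
      simp only [Bool.toNat_false, Bool.not_false, Bool.toNat_true] at dw dz dw' dz' du du'
      by_contra hw2
      have hw0 : F.deg (r + 1, x) = 0 := by omega
      have hu : F.deg (r, x + 1) = 0 ∨ F.deg (r, x + 1) = 2 := by omega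
      have hz : F.deg (r + 1, x + 1) = 0 ∨ F.deg (r + 1, x + 1) = 2 := by omega
      have hu' : F'.deg (r, x + 1) = F.deg (r, x + 1) + 2 := by omega
      have hw' : F'.deg (r + 1, x) = 2 := by omega
      have hz' : F'.deg (r + 1, x + 1) = F.deg (r + 1, x + 1) + 2 := by omega
      rcases hu with hu | hu
      · apply hcost_lt
        rw [dv', hu', hw', hz', h0, hw0, hu]
        rcases hz with hz | hz <;> rw [hz] <;> simp
      rcases hz with hz | hz
      · apply hcost_lt
        rw [dv', hu', hw', hz', h0, hw0, hu, hz]; simp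
      have rwz : F'.Reach (r + 1, x) (r + 1, x + 1) := Cfg.reach_H (hBot hbt)
      apply finish
      · apply ic_edges (ψ := fun p => p)
        · intro r' x' h
          exact Cfg.reach_H (hHk r' x' h (by
            rintro ⟨rfl, rfl⟩
            rw [h] at hbt; exact absurd hbt (by simp)))
        · intro r' x' h
          exact Cfg.reach_V (hVk r' x' h (by
            rintro ⟨rfl, rfl⟩
            rw [h] at hrt; exact absurd hrt (by simp)))
      · intro p' hp'
        by_cases e1 : p' = (r, x)
        · exact ⟨(r, x + 1), by omega, by rw [e1]; exact rvu.symm⟩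
        by_cases e2 : p' = (r, x + 1)
        · exact ⟨(r, x + 1), by omega, by rw [e2]; exact Cfg.Reach.refl' _ _⟩
        by_cases e3 : p' = (r + 1, x)
        · exact ⟨(r, x + 1), by omega, by rw [e3]; exact rvu.symm.trans rvw⟩
        by_cases e4 : p' = (r + 1, x + 1)
        · exact ⟨(r + 1, x + 1), by omega, by rw [e4]; exact Cfg.Reach.refl' _ _⟩
        · exact ⟨p', by rw [← dother p' e1 e2 e3 e4]; exact hp', Cfg.Reach.refl' _ _⟩
      · intro p hp
        by_cases e1 : p = (r, x)
        · rw [e1]; omega
        by_cases e2 : p = (r, x + 1)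
        · rw [e2]; omega
        by_cases e3 : p = (r + 1, x)
        · rw [e3]; omega
        by_cases e4 : p = (r + 1, x + 1)
        · rw [e4]; omega
        · rw [dother p e1 e2 e3 e4]; exact hp
      · apply hcost_le
        rw [dv', hu', hw', hz', h0, hw0, hu, hz]; simp
      · apply hW_lt
        rw [dv', hu', hw', hz', h0, hw0, hu, hz]
        simp only [OfNat.ofNat_ne_zero, if_false, if_true, Nat.reduceAdd, add_zero, zero_add]
        omega
    · -- only the right edge is used
      exfalso
      rw [hbt] at dw dz dw' dz'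
      rw [hrt] at du dz du' dz'
      simp only [Bool.toNat_false, Bool.not_false, Bool.toNat_true, Bool.not_true]
        at dw dz dw' dz' du du'
      have hu' : F'.deg (r, x + 1) = F.deg (r, x + 1) := by omega
      have hz' : F'.deg (r + 1, x + 1) = F.deg (r + 1, x + 1) := by omega
      have hw' : F'.deg (r + 1, x) = F.deg (r + 1, x) + 2 := by omega
      have hw : F.deg (r + 1, x) = 0 ∨ F.deg (r + 1, x) = 2 := by omega
      have hune : F.deg (r, x + 1) ≠ 0 := by omega
      have hzne : F.deg (r + 1, x + 1) ≠ 0 := by omega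
      rcases hw with hw | hw
      · apply hcost_lt
        rw [dv', hu', hw', hz', h0, hw]
        simp
        omega
      have rwz : F'.Reach (r + 1, x) (r + 1, x + 1) := Cfg.reach_H (hBot hbt)
      apply finish
      · apply ic_edges (ψ := fun p => p)
        · intro r' x' h
          exact Cfg.reach_H (hHk r' x' h (by
            rintro ⟨rfl, rfl⟩
            rw [h] at hbt; exact absurd hbt (by simp)))
        · intro r' x' h
          by_cases e : r' = r ∧ x' = x + 1
          · obtain ⟨rfl, rfl⟩ := e
            exact (rvu.symm.trans rvw).trans rwz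
          · exact Cfg.reach_V (hVk r' x' h e)
      · intro p' hp'
        by_cases e1 : p' = (r, x)
        · exact ⟨(r, x + 1), hune, by rw [e1]; exact rvu.symm⟩
        by_cases e2 : p' = (r, x + 1)
        · exact ⟨(r, x + 1), hune, by rw [e2]; exact Cfg.Reach.refl' _ _⟩
        by_cases e3 : p' = (r + 1, x)
        · exact ⟨(r, x + 1), hune, by rw [e3]; exact rvu.symm.trans rvw⟩
        by_cases e4 : p' = (r + 1, x + 1)
        · exact ⟨(r + 1, x + 1), hzne, by rw [e4]; exact Cfg.Reach.refl' _ _⟩
        · exact ⟨p', by rw [← dother p' e1 e2 e3 e4]; exact hp', Cfg.Reach.refl' _ _⟩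
      · intro p hp
        by_cases e1 : p = (r, x)
        · rw [e1]; omega
        by_cases e2 : p = (r, x + 1)
        · rw [e2]; omega
        by_cases e3 : p = (r + 1, x)
        · rw [e3]; omega
        by_cases e4 : p = (r + 1, x + 1)
        · rw [e4]; omega
        · rw [dother p e1 e2 e3 e4]; exact hp
      · apply hcost_le
        rw [dv', hu', hw', hz', h0, hw]
        simp
        omega
      · apply hW_lt
        rw [dv', hu', hw', hz', h0, hw, if_neg hune, if_neg hzne]
        simp only [OfNat.ofNat_ne_zero, if_false, if_true, Nat.reduceAdd, add_zero, zero_add]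
        omega
  · exfalso
    cases hrt : F.V r (x + 1)
    · -- only the bottom edge is used
      rw [hbt] at dw dz dw' dz'
      rw [hrt] at du dz du' dz'
      simp only [Bool.toNat_false, Bool.not_false, Bool.toNat_true, Bool.not_true]
        at dw dz dw' dz' du du'
      have hw' : F'.deg (r + 1, x) = F.deg (r + 1, x) := by omega
      have hz' : F'.deg (r + 1, x + 1) = F.deg (r + 1, x + 1) := by omega
      have hu' : F'.deg (r, x + 1) = F.deg (r, x + 1) + 2 := by omega
      have hu : F.deg (r, x + 1) = 0 ∨ F.deg (r, x + 1) = 2 := by omega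
      have hwne : F.deg (r + 1, x) ≠ 0 := by omega
      have hzne : F.deg (r + 1, x + 1) ≠ 0 := by omega
      rcases hu with hu | hu
      · apply hcost_lt
        rw [dv', hu', hw', hz', h0, hu]
        simp
        omega
      have ruz : F'.Reach (r, x + 1) (r + 1, x + 1) := Cfg.reach_V (hRight hrt)
      apply finish
      · apply ic_edges (ψ := fun p => p)
        · intro r' x' h
          by_cases e : r' = r + 1 ∧ x' = x
          · obtain ⟨rfl, rfl⟩ := e
            exact (rvw.symm.trans rvu).trans ruz
          · exact Cfg.reach_H (hHk r' x' h e)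
        · intro r' x' h
          exact Cfg.reach_V (hVk r' x' h (by
            rintro ⟨rfl, rfl⟩
            rw [h] at hrt; exact absurd hrt (by simp)))
      · intro p' hp'
        by_cases e1 : p' = (r, x)
        · exact ⟨(r + 1, x), hwne, by rw [e1]; exact rvw.symm⟩
        by_cases e2 : p' = (r, x + 1)
        · exact ⟨(r + 1, x), hwne, by rw [e2]; exact rvw.symm.trans rvu⟩
        by_cases e3 : p' = (r + 1, x)
        · exact ⟨(r + 1, x), hwne, by rw [e3]; exact Cfg.Reach.refl' _ _⟩
        by_cases e4 : p' = (r + 1, x + 1)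
        · exact ⟨(r + 1, x + 1), hzne, by rw [e4]; exact Cfg.Reach.refl' _ _⟩
        · exact ⟨p', by rw [← dother p' e1 e2 e3 e4]; exact hp', Cfg.Reach.refl' _ _⟩
      · intro p hp
        by_cases e1 : p = (r, x)
        · rw [e1]; omega
        by_cases e2 : p = (r, x + 1)
        · rw [e2]; omega
        by_cases e3 : p = (r + 1, x)
        · rw [e3]; omega
        by_cases e4 : p = (r + 1, x + 1)
        · rw [e4]; omega
        · rw [dother p e1 e2 e3 e4]; exact hp
      · apply hcost_le
        rw [dv', hu', hw', hz', h0, hu]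
        simp
      · apply hW_lt
        rw [dv', hu', hw', hz', h0, hu, if_neg hwne, if_neg hzne]
        simp only [OfNat.ofNat_ne_zero, if_false, if_true, Nat.reduceAdd, add_zero, zero_add]
        omega
    · -- both are used
      rw [hbt] at dw dz dw' dz'
      rw [hrt] at du dz du' dz'
      simp only [Bool.toNat_false, Bool.not_false, Bool.toNat_true, Bool.not_true]
        at dw dz dw' dz' du du'
      have hw' : F'.deg (r + 1, x) = F.deg (r + 1, x) := by omega
      have hu' : F'.deg (r, x + 1) = F.deg (r, x + 1) := by omega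
      have hz' : F'.deg (r + 1, x + 1) + 2 = F.deg (r + 1, x + 1) := by omega
      have hz : F.deg (r + 1, x + 1) = 2 ∨ F.deg (r + 1, x + 1) = 4 := by omega
      have hwne : F.deg (r + 1, x) ≠ 0 := by omega
      have hune : F.deg (r, x + 1) ≠ 0 := by omega
      rcases hz with hz | hz
      swap
      · have hz2 : F'.deg (r + 1, x + 1) = 2 := by omega
        apply hcost_lt
        rw [dv', hu', hw', hz2, h0, hz]
        simp
        omega
      have hz0 : F'.deg (r + 1, x + 1) = 0 := by omega
      have he5 : F.H (r + 1) (x + 1) = false := ic_zero (by omega)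
      have he6 : F.V (r + 1) (x + 1) = false := ic_zero (by omega)
      obtain ⟨k1, k2⟩ := mono_lev (F' := F') hm.good
        (fun p => if p = (r + 1, x + 1) then (r, x) else p) (by
        apply ic_edges
        · intro r' x' h
          by_cases e : r' = r + 1 ∧ x' = x
          · obtain ⟨rfl, rfl⟩ := e
            rw [if_neg n6, if_pos rfl]
            exact rvw.symm
          · have e1 : ((r', x') : ℤ × ℤ) ≠ (r + 1, x + 1) := by
              intro h3
              rw [Prod.mk.injEq] at h3
              obtain ⟨rfl, rfl⟩ := h3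
              rw [h] at he5; exact absurd he5 (by simp)
            have e2 : ((r', x' + 1) : ℤ × ℤ) ≠ (r + 1, x + 1) := by
              intro h3
              rw [Prod.mk.injEq] at h3
              exact e ⟨h3.1, by omega⟩
            rw [if_neg e1, if_neg e2]
            exact Cfg.reach_H (hHk r' x' h e)
        · intro r' x' h
          by_cases e : r' = r ∧ x' = x + 1
          · obtain ⟨rfl, rfl⟩ := e
            rw [if_neg n5, if_pos rfl]
            exact rvu.symm
          · have e1 : ((r', x') : ℤ × ℤ) ≠ (r + 1, x + 1) := by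
              intro h3
              rw [Prod.mk.injEq] at h3
              obtain ⟨rfl, rfl⟩ := h3
              rw [h] at he6; exact absurd he6 (by simp)
            have e2 : ((r' + 1, x') : ℤ × ℤ) ≠ (r + 1, x + 1) := by
              intro h3
              rw [Prod.mk.injEq] at h3
              exact e ⟨by omega, h3.2⟩
            rw [if_neg e1, if_neg e2]
            exact Cfg.reach_V (hVk r' x' h e)) (by
        intro p' hp'
        by_cases e1 : p' = (r, x)
        · refine ⟨(r + 1, x + 1), by omega, ?_⟩
          rw [if_pos rfl, e1]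
          exact Cfg.Reach.refl' _ _
        by_cases e4 : p' = (r + 1, x + 1)
        · rw [e4] at hp'
          exact absurd hz0 hp'
        · refine ⟨p', ?_, ?_⟩
          · by_cases e2 : p' = (r, x + 1)
            · rw [e2]; exact hune
            by_cases e3 : p' = (r + 1, x)
            · rw [e3]; exact hwne
            rw [← dother p' e1 e2 e3 e4]; exact hp'
          · rw [if_neg e4]
            exact Cfg.Reach.refl' _ _) (by
        intro p hp
        by_cases e1 : p = (r, x)
        · rw [e1] at hp; exact absurd h0 hp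
        by_cases e4 : p = (r + 1, x + 1)
        · subst e4
          rw [if_pos rfl]
          exact ⟨by omega, by simp⟩
        · rw [if_neg e4]
          refine ⟨?_, le_rfl⟩
          by_cases e2 : p = (r, x + 1)
          · rw [e2]; omega
          by_cases e3 : p = (r + 1, x)
          · rw [e3]; omega
          rw [dother p e1 e2 e3 e4]; exact hp)
      refine hm.use3 hgood ?_ k1 k2 ?_
      · apply hcost_le
        rw [dv', hu', hw', hz0, h0, hz]
        simp
        omega
      · apply hW_lt
        rw [dv', hu', hw', hz0, h0, hz, if_neg hwne, if_neg hune]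
        simp only [OfNat.ofNat_ne_zero, if_false, if_true, add_zero, zero_add]
        omega

end MP545
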