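import Pool.Agent.Lib.MP_545c5e_lc.Basic

/-! The configuration of the fourth stop. -/

namespace MP545

open Finset

theorem lad4_H (F : Cfg) (a s i r x : ℤ) (h : ¬ (r = s ∧ x = a)) (h' : ¬ (r = s ∧ x = a - 1))
    (h'' : ¬ (r = s - 1 ∧ x = a - 1)) : (F.lad4 a s i).H r x = (F.ladK a s i).H r x := by
  simp only [Cfg.lad4]
  rw [if_neg h, if_neg h', if_neg h'']

theorem lad4_V (F : Cfg) (a s i r x : ℤ) (h : ¬ (r = s - 1 ∧ (x = a ∨ x = a - 1))) :
    (F.lad4 a s i).V r x = (F.ladK a s i).V r x := by
  simp only [Cfg.lad4]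
  rw [if_neg h]

theorem ladK_H (F : Cfg) (a s i r x : ℤ) (h : ¬ (r = i ∧ x = a)) :
    (F.ladK a s i).H r x = F.H r x := by
  simp only [Cfg.ladK]
  rw [if_neg h]

theorem ladK_V (F : Cfg) (a s i r x : ℤ) (h : ¬ ((x = a ∨ x = a + 1) ∧ s ≤ r ∧ r < i)) :
    (F.ladK a s i).V r x = F.V r x := by
  simp only [Cfg.ladK]
  rw [if_neg h]

theorem ladK_V' (F : Cfg) (a s i r x : ℤ) (h : (x = a ∨ x = a + 1) ∧ s ≤ r ∧ r < i) :
    (F.ladK a s i).V r x = !F.V r x := by
  simp only [Cfg.ladK]
  rw [if_pos h]

theorem lad4_good {G : Hist} {F : Cfg} {a s i : ℤ} (hF : G.Good F) (hl : Lad F a s i)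
    (hs : 2 ≤ s) (hH : F.H (s - 1) a = true) (hH' : F.H (s - 1) (a - 1) = false)
    (hV : F.V (s - 1) (a - 1) = true) (h4 : F.deg (s, a - 1) = 4) :
    G.Good (F.lad4 a s i) ∧ (F.lad4 a s i).deg (s, a - 1) = 2 ∧
      (F.lad4 a s i).deg (s, a + 1) = 4 ∧ F.deg (s, a + 1) = 2 ∧
      ∀ p, p ≠ (s, a - 1) → p ≠ (s, a + 1) → (F.lad4 a s i).deg p = F.deg p := by
  have hsi := hl.lt
  have par := hl.par
  have e0 : s - 1 + 1 = s := by ring
  have ea : a + 1 - 1 = a := by ring
  have t1 := hl.T1 s le_rfl hsi par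
  have t2 := hl.T2 s le_rfl hsi par
  have t3 := hl.T3 s le_rfl hsi par
  have t4 := hl.T4 s le_rfl hsi par
  have t5 := hl.T5 s le_rfl hsi par
  have t6 := hl.T6 s le_rfl hsi par
  have t7 := hl.T7 s le_rfl hsi par
  -- values of the new configuration near the row `s`
  have w1 : (F.lad4 a s i).H s a = true := by simp [Cfg.lad4]
  have w2 : (F.lad4 a s i).H s (a - 1) = false := by
    simp [Cfg.lad4]
  have w3 : (F.lad4 a s i).H (s - 1) (a - 1) = true := by
    simp [Cfg.lad4]
  have w4 : (F.lad4 a s i).V (s - 1) a = false := by simp [Cfg.lad4]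
  have w5 : (F.lad4 a s i).V (s - 1) (a - 1) = false := by simp [Cfg.lad4]
  have w6 : (F.lad4 a s i).V s a = true := by
    rw [lad4_V _ _ _ _ _ _ (by omega), ladK_V' _ _ _ _ _ _ (by omega), t4]; rfl
  have w7 : (F.lad4 a s i).V s (a + 1) = true := by
    rw [lad4_V _ _ _ _ _ _ (by omega), ladK_V' _ _ _ _ _ _ (by omega), t7]; rfl
  -- the four edges at `(s, a - 1)`
  have q : F.H s (a - 1 - 1) = true ∧ F.V s (a - 1) = true := by
    rw [Cfg.deg_mk, t1, hV] at h4
    constructor
    · by_contra h
      rw [Bool.not_eq_true] at h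
      rw [h] at h4
      have := Cfg.toNat_le_one (F.V s (a - 1))
      simp only [Bool.toNat_true, Bool.toNat_false] at h4
      omega
    · by_contra h
      rw [Bool.not_eq_true] at h
      rw [h] at h4
      have := Cfg.toNat_le_one (F.H s (a - 1 - 1))
      simp only [Bool.toNat_true, Bool.toNat_false] at h4
      omega
  have hd1 : (F.lad4 a s i).deg (s, a - 1) = 2 := by
    rw [Cfg.deg_mk, w2, w5, lad4_H _ _ _ _ _ _ (by omega) (by omega) (by omega),
      ladK_H _ _ _ _ _ _ (by omega), q.1, lad4_V _ _ _ _ _ _ (by omega),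
      ladK_V _ _ _ _ _ _ (by omega), q.2]
    rfl
  have hd2 : (F.lad4 a s i).deg (s, a + 1) = 4 := by
    rw [Cfg.deg_mk, ea, w1, w7, lad4_H _ _ _ _ _ _ (by omega) (by omega) (by omega),
      ladK_H _ _ _ _ _ _ (by omega), t5, lad4_V _ _ _ _ _ _ (by omega),
      ladK_V _ _ _ _ _ _ (by omega), t6]
    rfl
  have hd3 : F.deg (s, a + 1) = 2 := by
    rw [Cfg.deg_mk, ea, t3, t5, t6, t7]
    rfl
  have oddi : Odd (i - (i - 1)) := by
    have : i - (i - 1) = 1 := by ring
    rw [this]; exact odd_one
  have hdeg : ∀ p, p ≠ (s, a - 1) → p ≠ (s, a + 1) → (F.lad4 a s i).deg p = F.deg p := by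
    rintro ⟨r, x⟩ hp1 hp2
    rw [Ne, Prod.mk.injEq] at hp1 hp2
    rw [Cfg.deg_mk, Cfg.deg_mk]
    by_cases hx : x = a
    · subst hx
      rcases lt_trichotomy r (s - 1) with h | h | h
      · rw [lad4_H _ _ _ _ _ _ (by omega) (by omega) (by omega),
          lad4_H _ _ _ _ _ _ (by omega) (by omega) (by omega),
          lad4_V _ _ _ _ _ _ (by omega), lad4_V _ _ _ _ _ _ (by omega),
          ladK_H _ _ _ _ _ _ (by omega), ladK_H _ _ _ _ _ _ (by omega),
          ladK_V _ _ _ _ _ _ (by omega), ladK_V _ _ _ _ _ _ (by omega)]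
      · subst h
        rw [w3, w4, lad4_H _ _ _ _ _ _ (by omega) (by omega) (by omega),
          lad4_V _ _ _ _ _ _ (by omega),
          ladK_H _ _ _ _ _ _ (by omega), ladK_V _ _ _ _ _ _ (by omega), hH', t2]
        simp only [Bool.toNat_true, Bool.toNat_false]
        omega
      · rcases lt_trichotomy r s with h' | h' | h'
        · omega
        · subst h'
          rw [w1, w2, w4, w6, t1, t2, t3, t4]
          rfl
        · rw [lad4_H _ _ _ _ _ _ (by omega) (by omega) (by omega),
            lad4_H _ _ _ _ _ _ (by omega) (by omega) (by omega),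
            lad4_V _ _ _ _ _ _ (by omega), lad4_V _ _ _ _ _ _ (by omega),
            ladK_H _ _ _ _ r (x - 1) (by omega)]
          rcases lt_trichotomy r i with g | g | g
          · rw [ladK_H _ _ _ _ _ _ (by omega), ladK_V' _ _ _ _ _ _ (by omega),
              ladK_V' _ _ _ _ _ _ (by omega)]
            rcases Int.even_or_odd (i - r) with he | ho
            · have c2 := hl.C2 r h' g he
              have u4 := hl.T4 (r - 1) (by omega) (by omega) (by
                obtain ⟨k, hk⟩ := he; exact ⟨k, by omega⟩)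
              rw [c2, u4]
              simp
            · have u4 := hl.T4 r (by omega) g ho
              have u2 := hl.T2 r (by omega) g ho
              rw [u4, u2]
              simp
          · subst g
            have u4 := hl.T4 (r - 1) (by omega) (by omega) oddi
            rw [ladK_V' _ _ _ _ _ _ (by omega), ladK_V _ _ _ _ _ _ (by omega), u4, hl.capH]
            have : (F.ladK x s r).H r x = false := by simp [Cfg.ladK]
            rw [this]
            simp only [Bool.toNat_true, Bool.toNat_false, Bool.not_false]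
          · rw [ladK_H _ _ _ _ _ _ (by omega), ladK_V _ _ _ _ _ _ (by omega),
              ladK_V _ _ _ _ _ _ (by omega)]
    · by_cases hx' : x = a + 1
      · subst hx'
        rw [ea]
        have hrs : r ≠ s := fun h => hp2 ⟨h, rfl⟩
        rw [lad4_H _ _ _ _ _ _ (by omega) (by omega) (by omega),
          lad4_H _ _ _ _ _ _ (by omega) (by omega) (by omega),
          lad4_V _ _ _ _ _ _ (by omega), lad4_V _ _ _ _ _ _ (by omega),
          ladK_H _ _ _ _ r (a + 1) (by omega)]
        rcases lt_trichotomy r s with h | h | h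
        · rw [ladK_H _ _ _ _ _ _ (by omega), ladK_V _ _ _ _ _ _ (by omega),
            ladK_V _ _ _ _ _ _ (by omega)]
        · exact absurd h hrs
        · rcases lt_trichotomy r i with g | g | g
          · rw [ladK_H _ _ _ _ _ _ (by omega), ladK_V' _ _ _ _ _ _ (by omega),
              ladK_V' _ _ _ _ _ _ (by omega)]
            rcases Int.even_or_odd (i - r) with he | ho
            · have c2 := hl.C3 r h g he
              have u4 := hl.T7 (r - 1) (by omega) (by omega) (by
                obtain ⟨k, hk⟩ := he; exact ⟨k, by omega⟩)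
              rw [c2, u4]
              simp
            · have u4 := hl.T7 r (by omega) g ho
              have u2 := hl.T6 r (by omega) g ho
              rw [u4, u2]
              simp
          · subst g
            have u4 := hl.T7 (r - 1) (by omega) (by omega) oddi
            rw [ladK_V' _ _ _ _ _ _ (by omega), ladK_V _ _ _ _ _ _ (by omega), u4, hl.capH]
            have : (F.ladK a s r).H r a = false := by simp [Cfg.ladK]
            rw [this]
            simp only [Bool.toNat_true, Bool.toNat_false, Bool.not_false]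
            omega
          · rw [ladK_H _ _ _ _ _ _ (by omega), ladK_V _ _ _ _ _ _ (by omega),
              ladK_V _ _ _ _ _ _ (by omega)]
      · by_cases hx'' : x = a - 1
        · subst hx''
          have hrs : r ≠ s := fun h => hp1 ⟨h, rfl⟩
          rcases eq_or_ne r (s - 1) with h | h
          · subst h
            rw [w3, w5, lad4_H _ _ _ _ _ _ (by omega) (by omega) (by omega),
              lad4_V _ _ _ _ _ _ (by omega),
              ladK_H _ _ _ _ _ _ (by omega), ladK_V _ _ _ _ _ _ (by omega), hH', hV]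
            simp only [Bool.toNat_true, Bool.toNat_false]
            omega
          · rw [lad4_H _ _ _ _ _ _ (by omega) (by omega) (by omega),
              lad4_H _ _ _ _ _ _ (by omega) (by omega) (by omega),
              lad4_V _ _ _ _ _ _ (by omega), lad4_V _ _ _ _ _ _ (by omega),
              ladK_H _ _ _ _ _ _ (by omega), ladK_H _ _ _ _ _ _ (by omega),
              ladK_V _ _ _ _ _ _ (by omega), ladK_V _ _ _ _ _ _ (by omega)]
        · rw [lad4_H _ _ _ _ _ _ (by omega) (by omega) (by omega),
            lad4_H _ _ _ _ _ _ (by omega) (by omega) (by omega),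
            lad4_V _ _ _ _ _ _ (by omega), lad4_V _ _ _ _ _ _ (by omega),
            ladK_H _ _ _ _ _ _ (by omega), ladK_H _ _ _ _ _ _ (by omega),
            ladK_V _ _ _ _ _ _ (by omega), ladK_V _ _ _ _ _ _ (by omega)]
  refine ⟨⟨?_, ?_, ?_⟩, hd1, hd2, hd3, hdeg⟩
  · intro r x h
    simp only [Cfg.lad4, Cfg.ladK] at h
    split_ifs at h with h1 h2 h3 h5
    · obtain ⟨rfl, rfl⟩ := h1
      have i1 := (hF.H _ _ t1).2
      have e : x - 1 + 1 = x := by ring
      rw [e] at i1
      exact ⟨i1, (hF.H _ _ t5).1⟩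
    · obtain ⟨rfl, rfl⟩ := h3
      have e : a - 1 + 1 = a := by ring
      rw [e]
      exact ⟨(hF.V _ _ hV).1, (hF.V _ _ t2).1⟩
    · exact hF.H r x h
  · intro r x h
    have i1 := (hF.V _ _ hl.capV).2
    have i2 := (hF.V _ _ hl.capV').2
    simp only [Cfg.lad4, Cfg.ladK] at h
    split_ifs at h with h1 h2
    · obtain ⟨hx, hr1, hr2⟩ := h2
      rcases hx with rfl | rfl
      · exact ⟨Hist.in_up i1 (by omega) (by omega), Hist.in_up i1 (by omega) (by omega)⟩
      · exact ⟨Hist.in_up i2 (by omega) (by omega), Hist.in_up i2 (by omega) (by omega)⟩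
    · exact hF.V r x h
  · intro p
    by_cases h1 : p = (s, a - 1)
    · subst h1
      rw [hd1]
      exact ⟨1, rfl⟩
    · by_cases h2 : p = (s, a + 1)
      · subst h2
        rw [hd2]
        exact ⟨2, rfl⟩
      · rw [hdeg p h1 h2]
        exact hF.even p

end MP545
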