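import Pool.Agent.Lib.MP_545c5e_lc.Cut

/-! Transfer of reachability along a ladder. -/

namespace MP545

open Finset

theorem psi_fix {a s i r x : ℤ} (h : ¬ ((x = a ∨ x = a + 1) ∧ s < r ∧ r < i ∧ Even (i - r))) :
    psi a s i (r, x) = (r, x) := by
  unfold psi
  rw [if_neg h]

theorem psi_mv {a s i r x : ℤ} (h : (x = a ∨ x = a + 1) ∧ s < r ∧ r < i ∧ Even (i - r)) :
    psi a s i (r, x) = (r + 1, x) := by
  unfold psi
  rw [if_pos h]

theorem ladKT_row {G : Hist} {F : Cfg} {a i : ℤ} (hc : Ctx G F i a) {p : ℤ × ℤ}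
    (hp : F.Reach (i, a) p) : i ≤ p.1 := by
  by_contra hlt
  push Not at hlt
  have h0 : F.deg (i, a) ≠ 0 := (Cfg.deg_ne_of_H hc.lad.capH).1
  exact hc.sep p (hp.deg_ne h0) hlt hp.symm

/-- see the blueprint -/
theorem ladK_transfer {G : Hist} {F : Cfg} {a s i : ℤ} (hc : Ctx G F i a) (hl : Lad F a s i)
    (hs : 2 ≤ s) (F' : Cfg)
    (hH : ∀ r x, s < r → F'.H r x = (F.ladK a s i).H r x)
    (hV : ∀ r x, s ≤ r → F'.V r x = (F.ladK a s i).V r x) :
    (∀ r, s ≤ r → r < i → Odd (i - r) → F'.Reach (r, a) (r, a + 1)) ∧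
    F'.Reach (i - 1, a) (i, a) ∧
    (∀ r x, s < r → F.H r x = true → F'.Reach (psi a s i (r, x)) (psi a s i (r, x + 1))) ∧
    (∀ r x, s ≤ r → F.V r x = true → F'.Reach (psi a s i (r, x)) (psi a s i (r + 1, x))) ∧
    (∀ r, s < r → r < i → Even (i - r) →
      F'.Reach (r - 1, a) (r, a) ∧ F'.Reach (r - 1, a + 1) (r, a + 1)) := by
  have hsi := hl.lt
  have par := hl.par
  -- horizontal edges that are kept
  have kH : ∀ r x, s < r → ¬ (r = i ∧ x = a) → F.H r x = true → F'.H r x = true := by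
    intro r x hr hne h
    rw [hH r x hr]
    simp only [Cfg.ladK, if_neg hne, h]
  have kV : ∀ r x, s ≤ r → ¬ ((x = a ∨ x = a + 1) ∧ s ≤ r ∧ r < i) → F.V r x = true →
      F'.V r x = true := by
    intro r x hr hne h
    rw [hV r x hr]
    simp only [Cfg.ladK, if_neg hne, h]
  have tV : ∀ r x, s ≤ r → r < i → (x = a ∨ x = a + 1) → F.V r x = false →
      F'.V r x = true := by
    intro r x hr hri hx h
    rw [hV r x hr]
    simp only [Cfg.ladK, if_pos (show (x = a ∨ x = a + 1) ∧ s ≤ r ∧ r < i from ⟨hx, hr, hri⟩), h,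
      Bool.not_false]
  -- (1)
  have hB : F'.Reach (i, a) (i, a + 1) := by
    refine nobridge hc.min.good (Cfg.adj_H hl.capH) F' ?_
    rintro ⟨r, x⟩ ⟨r', x'⟩ hadj hreach hn1 hn2
    have hr : i ≤ r := ladKT_row hc hreach
    have hr' : i ≤ r' := ladKT_row hc (hreach.trans hadj.reach)
    rcases hadj with ⟨h, e⟩ | ⟨h, e⟩ | ⟨h, e⟩ | ⟨h, e⟩ <;> simp only [Prod.mk.injEq] at e h <;>
      obtain ⟨rfl, rfl⟩ := e
    · apply Cfg.reach_H
      apply kH _ _ (by omega) _ h
      rintro ⟨rfl, rfl⟩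
      exact hn1 ⟨rfl, rfl⟩
    · apply Cfg.Reach.symm
      apply Cfg.reach_H
      apply kH _ _ (by omega) _ h
      rintro ⟨rfl, rfl⟩
      exact hn2 ⟨rfl, rfl⟩
    · apply Cfg.reach_V
      exact kV _ _ (by omega) (by rintro ⟨_, _, h3⟩; omega) h
    · apply Cfg.Reach.symm
      apply Cfg.reach_V
      exact kV _ _ (by omega) (by rintro ⟨_, _, h3⟩; omega) h
  have e1 : i - 1 + 1 = i := by ring
  have oddi : Odd (i - (i - 1)) := by
    have : i - (i - 1) = 1 := by ring
    rw [this]; exact odd_one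
  have hD0 : F'.Reach (i - 1, a) (i, a) := by
    have h := Cfg.reach_V (tV (i - 1) a (by omega) (by omega) (Or.inl rfl)
      (hl.T4 (i - 1) (by omega) (by omega) oddi))
    rwa [e1] at h
  have hD0' : F'.Reach (i - 1, a + 1) (i, a + 1) := by
    have h := Cfg.reach_V (tV (i - 1) (a + 1) (by omega) (by omega) (Or.inr rfl)
      (hl.T7 (i - 1) (by omega) (by omega) oddi))
    rwa [e1] at h
  -- (2)
  have hD : ∀ r, s ≤ r → r < i → Odd (i - r) → F'.Reach (r, a) (r, a + 1) := by
    intro r hr hri ho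
    by_cases hr1 : r = i - 1
    · subst hr1
      exact (hD0.trans hB).trans hD0'.symm
    · have hodd := ho
      obtain ⟨k, hk⟩ := ho
      have hev : Even (i - (r + 1)) := ⟨k, by omega⟩
      have h1 := Cfg.reach_V (tV r a hr hri (Or.inl rfl) (hl.T4 r hr hri hodd))
      have h2 := Cfg.reach_V (tV r (a + 1) hr hri (Or.inr rfl) (hl.T7 r hr hri hodd))
      have h3 := Cfg.reach_H (kH (r + 1) a (by omega) (by rintro ⟨h, _⟩; omega)
        (hl.C1 (r + 1) (by omega) (by omega) hev))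
      exact (h1.trans h3).trans h2.symm
  refine ⟨hD, hD0, ?_, ?_, ?_⟩
  · intro r x hr h
    by_cases hra : r = i ∧ x = a
    · obtain ⟨rfl, rfl⟩ := hra
      rw [psi_fix (by rintro ⟨_, _, h3, _⟩; omega), psi_fix (by rintro ⟨_, _, h3, _⟩; omega)]
      exact hB
    · have hr' := Cfg.reach_H (kH r x hr hra h)
      by_cases hcap : s < r ∧ r < i ∧ Even (i - r)
      · obtain ⟨c1, c2, c3⟩ := hcap
        by_cases hx : x = a
        · subst hx
          rw [psi_mv ⟨Or.inl rfl, c1, c2, c3⟩, psi_mv ⟨Or.inr rfl, c1, c2, c3⟩]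
          obtain ⟨k, hk⟩ := c3
          exact hD (r + 1) (by omega) (by omega) ⟨k - 1, by omega⟩
        · have hx1 : x ≠ a - 1 := by
            rintro rfl
            rw [hl.C4 r c1 c2 c3] at h
            exact absurd h (by simp)
          have hx2 : x ≠ a + 1 := by
            rintro rfl
            rw [hl.C5 r c1 c2 c3] at h
            exact absurd h (by simp)
          rw [psi_fix (by rintro ⟨h1, _⟩; omega), psi_fix (by rintro ⟨h1, _⟩; omega)]
          exact hr'
      · rw [psi_fix (fun h => hcap h.2), psi_fix (fun h => hcap h.2)]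
        exact hr'
  · intro r x hr h
    by_cases hx : (x = a ∨ x = a + 1) ∧ s ≤ r ∧ r < i
    · obtain ⟨hx1, _, hri⟩ := hx
      have hev : Even (i - r) := by
        by_contra hne
        rw [Int.not_even_iff_odd] at hne
        rcases hx1 with rfl | rfl
        · rw [hl.T4 r hr hri hne] at h
          exact absurd h (by simp)
        · rw [hl.T7 r hr hri hne] at h
          exact absurd h (by simp)
      obtain ⟨k, hk⟩ := hev
      obtain ⟨l, hl'⟩ := par
      have hsr : s < r := by omega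
      rw [psi_mv ⟨hx1, hsr, hri, ⟨k, hk⟩⟩, psi_fix]
      · exact Cfg.Reach.refl' _ _
      · rintro ⟨_, _, h3, m, hm⟩
        omega
    · have hr' := Cfg.reach_V (kV r x hr hx h)
      have hf : ∀ r', (r' = r ∨ r' = r + 1) →
          ¬ ((x = a ∨ x = a + 1) ∧ s < r' ∧ r' < i ∧ Even (i - r')) := by
        rintro r' hr1 ⟨g1, g2, g3, g4⟩
        apply hx
        exact ⟨g1, hr, by omega⟩
      rw [psi_fix (hf r (Or.inl rfl)), psi_fix (hf (r + 1) (Or.inr rfl))]
      exact hr'
  · intro r hr hri hev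
    obtain ⟨k, hk⟩ := hev
    have ho : Odd (i - (r - 1)) := ⟨k, by omega⟩
    have e : r - 1 + 1 = r := by ring
    have h1 := Cfg.reach_V (tV (r - 1) a (by omega) (by omega) (Or.inl rfl)
      (hl.T4 (r - 1) (by omega) (by omega) ho))
    have h2 := Cfg.reach_V (tV (r - 1) (a + 1) (by omega) (by omega) (Or.inr rfl)
      (hl.T7 (r - 1) (by omega) (by omega) ho))
    rw [e] at h1 h2
    exact ⟨h1, h2⟩

end MP545
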