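import Pool.Agent.Lib.MP_545c5e_lc.Use
import Pool.Agent.Lib.MP_545c5e_lc.Cut
import Pool.Agent.Lib.MP_545c5e_lc.Abs
import Pool.Agent.Lib.MP_545c5e_lc.Flip

/-! A cell with exactly two opposite edges does not separate two components of a minimal configuration. -/

namespace MP545

open Finset

private theorem mg_core {G : Hist} {F F' : Cfg} (hm : G.Minimal F) (hgood : G.Good F')
    (hdeg : ∀ p, F'.deg p = F.deg p) {u1 v1 u2 v2 : ℤ × ℤ} (h1 : F.Adj u1 v1)
    (h2 : F.Adj u2 v2)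
    (hk : ∀ x y, F.Adj x y → ¬ (x = u1 ∧ y = v1) → ¬ (x = v1 ∧ y = u1) →
      ¬ (x = u2 ∧ y = v2) → ¬ (x = v2 ∧ y = u2) → F'.Reach x y)
    (hn : ¬ F.Reach u1 u2) (hr : F'.Reach u1 u2) : False := by
  have e1 : F'.Reach u1 v1 := by
    apply nobridge hm.good h1 F'
    intro x y hxy hx n1 n2
    by_cases c1 : x = u2 ∧ y = v2
    · rw [c1.1] at hx
      exact absurd hx hn
    by_cases c2 : x = v2 ∧ y = u2
    · rw [c2.1] at hx
      exact absurd (hx.trans h2.symm.reach) hn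
    exact hk x y hxy n1 n2 c1 c2
  have e2 : F'.Reach u2 v2 := by
    apply nobridge hm.good h2 F'
    intro x y hxy hx n1 n2
    by_cases c1 : x = u1 ∧ y = v1
    · rw [c1.1] at hx
      exact absurd hx.symm hn
    by_cases c2 : x = v1 ∧ y = u1
    · rw [c2.1] at hx
      exact absurd (h1.reach.trans hx.symm) hn
    exact hk x y hxy c1 c2 n1 n2
  obtain ⟨-, k2⟩ := mono (F' := F') hm.good (fun p => p) (by
    intro x y hxy
    by_cases c1 : x = u1 ∧ y = v1
    · rw [c1.1, c1.2]; exact e1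
    by_cases c2 : x = v1 ∧ y = u1
    · rw [c2.1, c2.2]; exact e1.symm
    by_cases c3 : x = u2 ∧ y = v2
    · rw [c3.1, c3.2]; exact e2
    by_cases c4 : x = v2 ∧ y = u2
    · rw [c4.1, c4.2]; exact e2.symm
    exact hk x y hxy c1 c2 c3 c4) (by
    intro p' hp'
    exact ⟨p', by rw [← hdeg p']; exact hp', Cfg.Reach.refl' _ _⟩)
  have hc := k2 u1 u2 h1.deg_ne.1 h2.deg_ne.1 hn hr
  refine hm.use1 hgood (le_of_eq ?_) hc
  unfold Hist.cost
  exact Finset.sum_congr rfl fun p _ => by rw [hdeg p]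

theorem mergeV {G : Hist} {F : Cfg} (hm : G.Minimal F) {r x : ℤ} (h1 : F.V r x = true)
    (h2 : F.V r (x + 1) = true) (h3 : F.H r x = false) (h4 : F.H (r + 1) x = false) :
    F.Reach (r, x) (r, x + 1) := by
  by_contra hn
  have g1 := hm.good.V r x h1
  have g2 := hm.good.V r (x + 1) h2
  have hgood := flip_good hm.good g1.1 g1.2 g2.2
  have ex : x + 1 - 1 = x := by ring
  have er : r + 1 - 1 = r := by ring
  refine mg_core hm hgood ?_ (u1 := (r, x)) (v1 := (r + 1, x)) (u2 := (r, x + 1))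
    (v2 := (r + 1, x + 1)) (Cfg.adj_V h1) (Cfg.adj_V h2) ?_ hn ?_
  · intro p
    by_cases c1 : p = (r, x)
    · subst c1
      rw [Cfg.flip_deg_tl, Cfg.deg_mk, h1, h3]
      simp
      omega
    by_cases c2 : p = (r, x + 1)
    · subst c2
      rw [Cfg.flip_deg_tr, Cfg.deg_mk, ex, h2, h3]
      simp
      omega
    by_cases c3 : p = (r + 1, x)
    · subst c3
      rw [Cfg.flip_deg_bl, Cfg.deg_mk, er, h1, h4]
      simp
    by_cases c4 : p = (r + 1, x + 1)
    · subst c4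
      rw [Cfg.flip_deg_br, Cfg.deg_mk, er, ex, h2, h4]
      simp
      omega
    exact Cfg.flip_deg_other F r x p c1 c2 c3 c4
  · rintro ⟨r1, x1⟩ ⟨r2, x2⟩ hadj n1 n2 n3 n4
    have keyH : ∀ r' x', F.H r' x' = true → (F.flip r x).Reach (r', x') (r', x' + 1) := by
      intro r' x' h
      apply Cfg.reach_H
      show (if x' = x ∧ (r' = r ∨ r' = r + 1) then !F.H r' x' else F.H r' x') = true
      rw [if_neg]
      · exact h
      · rintro ⟨rfl, rfl | rfl⟩
        · rw [h] at h3; exact absurd h3 (by simp)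
        · rw [h] at h4; exact absurd h4 (by simp)
    have keyV : ∀ r' x', F.V r' x' = true → ¬ (r' = r ∧ (x' = x ∨ x' = x + 1)) →
        (F.flip r x).Reach (r', x') (r' + 1, x') := by
      intro r' x' h hne
      apply Cfg.reach_V
      show (if r' = r ∧ (x' = x ∨ x' = x + 1) then !F.V r' x' else F.V r' x') = true
      rw [if_neg hne]
      exact h
    rcases hadj with ⟨h, e⟩ | ⟨h, e⟩ | ⟨h, e⟩ | ⟨h, e⟩ <;> simp only [Prod.mk.injEq] at e h <;>
      obtain ⟨rfl, rfl⟩ := e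
    · exact keyH _ _ h
    · exact (keyH _ _ h).symm
    · apply keyV _ _ h
      rintro ⟨rfl, rfl | rfl⟩
      · exact n1 ⟨rfl, rfl⟩
      · exact n3 ⟨rfl, rfl⟩
    · refine (keyV _ _ h ?_).symm
      rintro ⟨rfl, rfl | rfl⟩
      · exact n2 ⟨rfl, rfl⟩
      · exact n4 ⟨rfl, rfl⟩
  · apply Cfg.reach_H
    show (if x = x ∧ (r = r ∨ r = r + 1) then !F.H r x else F.H r x) = true
    rw [if_pos ⟨rfl, Or.inl rfl⟩, h3]
    rfl

theorem mergeH {G : Hist} {F : Cfg} (hm : G.Minimal F) {r x : ℤ} (h1 : F.H r x = true)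
    (h2 : F.H (r + 1) x = true) (h3 : F.V r x = false) (h4 : F.V r (x + 1) = false) :
    F.Reach (r, x) (r + 1, x) := by
  by_contra hn
  have g1 := hm.good.H r x h1
  have g2 := hm.good.H (r + 1) x h2
  have hgood := flip_good hm.good g1.1 g2.1 g2.2
  have ex : x + 1 - 1 = x := by ring
  have er : r + 1 - 1 = r := by ring
  refine mg_core hm hgood ?_ (u1 := (r, x)) (v1 := (r, x + 1)) (u2 := (r + 1, x))
    (v2 := (r + 1, x + 1)) (Cfg.adj_H h1) (Cfg.adj_H h2) ?_ hn ?_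
  · intro p
    by_cases c1 : p = (r, x)
    · subst c1
      rw [Cfg.flip_deg_tl, Cfg.deg_mk, h1, h3]
      simp
      omega
    by_cases c2 : p = (r, x + 1)
    · subst c2
      rw [Cfg.flip_deg_tr, Cfg.deg_mk, ex, h1, h4]
      simp
      omega
    by_cases c3 : p = (r + 1, x)
    · subst c3
      rw [Cfg.flip_deg_bl, Cfg.deg_mk, er, h2, h3]
      simp
    by_cases c4 : p = (r + 1, x + 1)
    · subst c4
      rw [Cfg.flip_deg_br, Cfg.deg_mk, er, ex, h2, h4]
      simp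
      omega
    exact Cfg.flip_deg_other F r x p c1 c2 c3 c4
  · rintro ⟨r1, x1⟩ ⟨r2, x2⟩ hadj n1 n2 n3 n4
    have keyV : ∀ r' x', F.V r' x' = true → (F.flip r x).Reach (r', x') (r' + 1, x') := by
      intro r' x' h
      apply Cfg.reach_V
      show (if r' = r ∧ (x' = x ∨ x' = x + 1) then !F.V r' x' else F.V r' x') = true
      rw [if_neg]
      · exact h
      · rintro ⟨rfl, rfl | rfl⟩
        · rw [h] at h3; exact absurd h3 (by simp)
        · rw [h] at h4; exact absurd h4 (by simp)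
    have keyH : ∀ r' x', F.H r' x' = true → ¬ (x' = x ∧ (r' = r ∨ r' = r + 1)) →
        (F.flip r x).Reach (r', x') (r', x' + 1) := by
      intro r' x' h hne
      apply Cfg.reach_H
      show (if x' = x ∧ (r' = r ∨ r' = r + 1) then !F.H r' x' else F.H r' x') = true
      rw [if_neg hne]
      exact h
    rcases hadj with ⟨h, e⟩ | ⟨h, e⟩ | ⟨h, e⟩ | ⟨h, e⟩ <;> simp only [Prod.mk.injEq] at e h <;>
      obtain ⟨rfl, rfl⟩ := e
    · apply keyH _ _ h
      rintro ⟨rfl, rfl | rfl⟩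
      · exact n1 ⟨rfl, rfl⟩
      · exact n3 ⟨rfl, rfl⟩
    · refine (keyH _ _ h ?_).symm
      rintro ⟨rfl, rfl | rfl⟩
      · exact n2 ⟨rfl, rfl⟩
      · exact n4 ⟨rfl, rfl⟩
    · exact keyV _ _ h
    · exact (keyV _ _ h).symm
  · apply Cfg.reach_V
    show (if r = r ∧ (x = x ∨ x = x + 1) then !F.V r x else F.V r x) = true
    rw [if_pos ⟨rfl, Or.inl rfl⟩, h3]
    rfl

end MP545
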