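import Pool.Agent.Lib.MP_545c5e_lc.Basic

/-! Reflection of the columns, configurations. -/

namespace MP545

open Finset

namespace Cfg

theorem mir_mir (F : Cfg) : F.mir.mir = F := by
  obtain ⟨H, V⟩ := F
  simp only [mir, Cfg.mk.injEq]
  constructor
  · funext r x
    have e : -(-x - 1) - 1 = x := by ring
    rw [e]
  · funext r x
    rw [neg_neg]

theorem mir_deg (F : Cfg) (p : ℤ × ℤ) : F.mir.deg p = F.deg (p.1, -p.2) := by
  obtain ⟨r, x⟩ := p
  simp only [deg, mir]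
  have e1 : -(x - 1) - 1 = -x := by ring
  rw [e1]
  ring

private theorem mir1_adj {F : Cfg} {p q : ℤ × ℤ} (h : F.mir.Adj p q) :
    F.Adj (p.1, -p.2) (q.1, -q.2) := by
  obtain ⟨r, x⟩ := p
  obtain ⟨r', x'⟩ := q
  rcases h with ⟨h, e⟩ | ⟨h, e⟩ | ⟨h, e⟩ | ⟨h, e⟩ <;> simp only [Prod.mk.injEq, mir] at e h <;>
    obtain ⟨rfl, rfl⟩ := e
  · refine Or.inr (Or.inl ⟨?_, ?_⟩)
    · have e1 : -(x + 1) = -x - 1 := by ring
      simp only [e1]; exact h
    · simp only [Prod.mk.injEq, true_and]; ring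
  · refine Or.inl ⟨?_, ?_⟩
    · have e1 : -(x' + 1) = -x' - 1 := by ring
      simp only [e1]; exact h
    · simp only [Prod.mk.injEq, true_and]; ring
  · exact Or.inr (Or.inr (Or.inl ⟨h, rfl⟩))
  · exact Or.inr (Or.inr (Or.inr ⟨h, rfl⟩))

private theorem mir1_reach {F : Cfg} {p q : ℤ × ℤ} (h : F.mir.Reach p q) :
    F.Reach (p.1, -p.2) (q.1, -q.2) := by
  induction h with
  | refl => exact Relation.ReflTransGen.refl
  | tail _ hbc ih => exact Relation.ReflTransGen.tail ih (mir1_adj hbc)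

theorem mir_reach (F : Cfg) (p q : ℤ × ℤ) :
    F.mir.Reach p q ↔ F.Reach (p.1, -p.2) (q.1, -q.2) := by
  constructor
  · exact mir1_reach
  · intro h
    have h2 : F.mir.mir.Reach (p.1, -p.2) (q.1, -q.2) := by rw [mir_mir]; exact h
    have h3 := mir1_reach h2
    simpa using h3

private theorem mir1_rep {F : Cfg} {R : Finset (ℤ × ℤ)} (h : F.Rep R) :
    F.mir.Rep (R.image fun p => (p.1, -p.2)) := by
  intro p hp
  rw [mir_deg] at hp
  obtain ⟨q, hq, hr⟩ := h _ hp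
  refine ⟨(q.1, -q.2), Finset.mem_image.2 ⟨q, hq, rfl⟩, ?_⟩
  rw [mir_reach]
  simpa using hr

private theorem mir1_card (R : Finset (ℤ × ℤ)) :
    (R.image fun p => ((p.1, -p.2) : ℤ × ℤ)).card = R.card := by
  refine Finset.card_image_of_injective _ ?_
  intro p q h
  simp only [Prod.mk.injEq, neg_inj] at h
  exact Prod.ext h.1 h.2

theorem mir_c (F : Cfg) : F.mir.c = F.c := by
  unfold c
  congr 1
  ext k
  constructor
  · rintro ⟨R, hc, hR⟩
    refine ⟨_, (mir1_card R).trans hc, ?_⟩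
    have := mir1_rep hR
    rwa [mir_mir] at this
  · rintro ⟨R, hc, hR⟩
    exact ⟨_, (mir1_card R).trans hc, mir1_rep hR⟩

theorem mir_lev (F : Cfg) : F.mir.lev = F.lev := by
  unfold lev
  congr 1
  ext k
  constructor
  · rintro ⟨p, q, h1, h2, h3, h4⟩
    rw [mir_deg] at h1 h2
    rw [mir_reach] at h3
    exact ⟨(p.1, -p.2), (q.1, -q.2), h1, h2, h3, h4⟩
  · rintro ⟨p, q, h1, h2, h3, h4⟩
    refine ⟨(p.1, -p.2), (q.1, -q.2), ?_, ?_, ?_, h4⟩
    · rw [mir_deg]; simpa using h1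
    · rw [mir_deg]; simpa using h2
    · rw [mir_reach]; simpa using h3

theorem mir_conn (F : Cfg) : F.mir.Conn ↔ F.Conn := by
  constructor
  · intro h p q hp hq
    have h1 := h (p.1, -p.2) (q.1, -q.2) (by rw [mir_deg]; simpa using hp)
      (by rw [mir_deg]; simpa using hq)
    rw [mir_reach] at h1
    simpa using h1
  · intro h p q hp hq
    rw [mir_deg] at hp hq
    rw [mir_reach]
    exact h _ _ hp hq

end Cfg

theorem Lad.mir {F : Cfg} {a s i : ℤ} (h : Lad F a s i) : Lad F.mir (-(a + 1)) s i := by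
  have e1 : -(-(a + 1)) - 1 = a := by ring
  have e2 : -(-(a + 1)) = a + 1 := by ring
  have e3 : -(-(a + 1) + 1) = a := by ring
  have e4 : -(-(a + 1) - 1) - 1 = a + 1 := by ring
  have e5 : -(-(a + 1) + 1) - 1 = a - 1 := by ring
  refine ⟨h.lt, h.par, ?_, ?_, ?_, ?_, ?_, ?_, ?_, ?_, ?_, ?_, ?_, ?_, ?_, ?_, ?_, ?_, ?_⟩
  · simp only [Cfg.mir, e1]; exact h.capH
  · simp only [Cfg.mir, e2]; exact h.capV'
  · simp only [Cfg.mir, e3]; exact h.capV
  · simp only [Cfg.mir, e4]; exact h.capR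
  · simp only [Cfg.mir, e5]; exact h.capL
  · intro r h1 h2 h3; simp only [Cfg.mir, e4]; exact h.T5 r h1 h2 h3
  · intro r h1 h2 h3; simp only [Cfg.mir, e2]; exact h.T6 r h1 h2 h3
  · intro r h1 h2 h3; simp only [Cfg.mir, e1]; exact h.T3 r h1 h2 h3
  · intro r h1 h2 h3; simp only [Cfg.mir, e2]; exact h.T7 r h1 h2 h3
  · intro r h1 h2 h3; simp only [Cfg.mir, e5]; exact h.T1 r h1 h2 h3
  · intro r h1 h2 h3; simp only [Cfg.mir, e3]; exact h.T2 r h1 h2 h3
  · intro r h1 h2 h3; simp only [Cfg.mir, e3]; exact h.T4 r h1 h2 h3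
  · intro r h1 h2 h3; simp only [Cfg.mir, e1]; exact h.C1 r h1 h2 h3
  · intro r h1 h2 h3; simp only [Cfg.mir, e2]; exact h.C3 r h1 h2 h3
  · intro r h1 h2 h3; simp only [Cfg.mir, e3]; exact h.C2 r h1 h2 h3
  · intro r h1 h2 h3; simp only [Cfg.mir, e4]; exact h.C5 r h1 h2 h3
  · intro r h1 h2 h3; simp only [Cfg.mir, e5]; exact h.C4 r h1 h2 h3

theorem Full.mir {F : Cfg} {a i : ℤ} (h : Full F a i) : Full F.mir (-(a + 1)) i := by
  have e1 : -(-(a + 1)) - 1 = a := by ring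
  have e2 : -(-(a + 1)) = a + 1 := by ring
  have e3 : -(-(a + 1) + 1) = a := by ring
  have e4 : -(-(a + 1) - 1) - 1 = a + 1 := by ring
  have e5 : -(-(a + 1) + 1) - 1 = a - 1 := by ring
  refine ⟨h.odd, ?_, ?_, ?_, ?_, ?_, ?_, ?_, ?_, ?_, ?_, ?_, ?_⟩
  · intro r h1 h2 h3; simp only [Cfg.mir, e4]; exact h.T5 r h1 h2 h3
  · intro r h1 h2 h3; simp only [Cfg.mir, e2]; exact h.T6 r h1 h2 h3
  · intro r h1 h2 h3; simp only [Cfg.mir, e1]; exact h.T3 r h1 h2 h3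
  · intro r h1 h2 h3; simp only [Cfg.mir, e2]; exact h.T7 r h1 h2 h3
  · intro r h1 h2 h3; simp only [Cfg.mir, e5]; exact h.T1 r h1 h2 h3
  · intro r h1 h2 h3; simp only [Cfg.mir, e3]; exact h.T2 r h1 h2 h3
  · intro r h1 h2 h3; simp only [Cfg.mir, e3]; exact h.T4 r h1 h2 h3
  · intro r h1 h2 h3; simp only [Cfg.mir, e1]; exact h.C1 r h1 h2 h3
  · intro r h1 h2 h3; simp only [Cfg.mir, e2]; exact h.C3 r h1 h2 h3
  · intro r h1 h2 h3; simp only [Cfg.mir, e3]; exact h.C2 r h1 h2 h3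
  · intro r h1 h2 h3; simp only [Cfg.mir, e4]; exact h.C5 r h1 h2 h3
  · intro r h1 h2 h3; simp only [Cfg.mir, e5]; exact h.C4 r h1 h2 h3

end MP545
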