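import Pool.Agent.Lib.MP_545c5e_lc.Iso
import Pool.Agent.Lib.MP_545c5e_lc.Merge

/-! The level is at least two. -/

namespace MP545

open Finset

private theorem row1_deg {G : Hist} {F : Cfg} (hm : G.Minimal F) {z : ℤ} (hz : G.In (1, z)) :
    F.deg (1, z) = 2 ∧ F.V 0 z = false := by
  have hV : F.V 0 z = false := by
    by_contra h
    simp only [Bool.not_eq_false] at h
    have := (hm.good.V _ _ h).1.1
    simp only at this
    omega
  refine ⟨?_, hV⟩
  rcases hm.good.deg_cases (1, z) with h | h | h
  · have h1 := iso_bottom hm (1, z) hz h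
    have h2 := G.two_le_of_pos (x := z) (by have := hz.2; simp only at this; omega)
    simp only at h1
    omega
  · exact h
  · rw [Cfg.deg_mk] at h
    have e : (1 : ℤ) - 1 = 0 := by norm_num
    rw [e, hV] at h
    have h1 := Cfg.toNat_le_one (F.H 1 (z - 1))
    have h2 := Cfg.toNat_le_one (F.H 1 z)
    have h3 := Cfg.toNat_le_one (F.V 1 z)
    simp only [Bool.toNat_false] at h
    omega

private theorem row1_adj {G : Hist} {F : Cfg} (hm : G.Minimal F) {z : ℤ} (hz : G.In (1, z))
    (hz' : G.In (1, z + 1)) : F.Reach (1, z) (1, z + 1) := by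
  by_contra hc
  have hH : F.H 1 z = false := by
    by_contra h
    simp only [Bool.not_eq_false] at h
    exact hc (Cfg.reach_H h)
  obtain ⟨d1, v1⟩ := row1_deg hm hz
  obtain ⟨d2, v2⟩ := row1_deg hm hz'
  rw [Cfg.deg_mk] at d1 d2
  have e : (1 : ℤ) - 1 = 0 := by norm_num
  have e' : z + 1 - 1 = z := by ring
  rw [e, hH, v1] at d1
  rw [e, e', hH, v2] at d2
  have h1 := Cfg.toNat_le_one (F.H 1 (z - 1))
  have h2 := Cfg.toNat_le_one (F.V 1 z)
  have h3 := Cfg.toNat_le_one (F.H 1 (z + 1))
  have h4 := Cfg.toNat_le_one (F.V 1 (z + 1))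
  simp only [Bool.toNat_false] at d1 d2
  have V1 : F.V 1 z = true := by
    by_contra h
    simp only [Bool.not_eq_true] at h
    rw [h] at d1
    simp only [Bool.toNat_false] at d1
    omega
  have V2 : F.V 1 (z + 1) = true := by
    by_contra h
    simp only [Bool.not_eq_true] at h
    rw [h] at d2
    simp only [Bool.toNat_false] at d2
    omega
  have H2 : F.H (1 + 1) z = false := by
    by_contra h
    simp only [Bool.not_eq_false] at h
    exact hc (((Cfg.reach_V V1).trans (Cfg.reach_H h)).trans (Cfg.reach_V V2).symm)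
  exact hc (mergeV hm V1 V2 hH H2)

private theorem row1_all {G : Hist} {F : Cfg} (hm : G.Minimal F) {x : ℤ} (hx : G.In (1, x))
    (n : ℕ) : G.In (1, x + n) → F.Reach (1, x) (1, x + n) := by
  induction n with
  | zero =>
    intro _
    simp only [Nat.cast_zero, add_zero]
    exact Cfg.Reach.refl' F _
  | succ n ih =>
    intro h
    have hc := hx.col
    have hc' := h.col
    simp only at hc hc'
    push_cast at hc' h ⊢
    have hin : G.In (1, x + n) := by
      have := G.two (x + n) (by omega) (by omega)
      exact ⟨le_rfl, by simp only; omega⟩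
    have e : x + ((n : ℤ) + 1) = (x + n) + 1 := by ring
    rw [e] at h ⊢
    exact (ih hin).trans (row1_adj hm hin h)

/-- If the level is 1 (it cannot be 0), the first row contains two points that are not joined;
all points of the first row have degree 2 (they are not isolated as all columns have length at
least two); hence there are adjacent ones `(1, x)`, `(1, x + 1)` that are not joined; the first
one goes left and down, the second one right and down, and `mergeV` applies. -/
theorem two_le_lev {G : Hist} {F : Cfg} (hm : G.Minimal F) (hn : ¬ F.Conn) : 2 ≤ F.lev := by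
  by_contra hlt
  obtain ⟨⟨r, x⟩, ⟨r', y⟩, hp, hq, hpq, hlev⟩ := Cfg.lev_spec hn
  have ip := hm.good.in_of_deg hp
  have iq := hm.good.in_of_deg hq
  have h1 := ip.1
  have h2 := iq.1
  simp only at h1 h2 hlev
  have hr : r = 1 := by omega
  have hr' : r' = 1 := by omega
  subst hr hr'
  apply hpq
  rcases le_total x y with h | h
  · obtain ⟨n, hn⟩ := Int.eq_ofNat_of_zero_le (sub_nonneg.mpr h)
    have e : y = x + n := by omega
    rw [e] at iq ⊢
    exact row1_all hm ip n iq
  · obtain ⟨n, hn⟩ := Int.eq_ofNat_of_zero_le (sub_nonneg.mpr h)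
    have e : x = y + n := by omega
    rw [e] at ip ⊢
    exact (row1_all hm iq n ip).symm

end MP545
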