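import Pool.Agent.Lib.MP_545c5e_lc.Row1

/-! The caps in the row of the level. -/

namespace MP545

open Finset

/-- a point of the row of the level that is joined to no point above -/
private theorem rowi_pt {G : Hist} {F : Cfg} (hm : G.Minimal F) (hn : ¬ F.Conn) {y : ℤ}
    (hy : F.deg ((F.lev : ℤ), y) ≠ 0)
    (hs : ∀ p : ℤ × ℤ, F.deg p ≠ 0 → p.1 < F.lev → ¬ F.Reach p ((F.lev : ℤ), y)) :
    F.V ((F.lev : ℤ) - 1) y = false ∧ F.V (F.lev : ℤ) y = true ∧
    (F.H (F.lev : ℤ) y = true → F.H ((F.lev : ℤ) - 1) y = false ∧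
      F.V ((F.lev : ℤ) - 1) (y + 1) = false) ∧
    ((F.H (F.lev : ℤ) y = true ∧ F.H (F.lev : ℤ) (y - 1) = false) ∨
      (F.H (F.lev : ℤ) y = false ∧ F.H (F.lev : ℤ) (y - 1) = true)) := by
  have h2 := two_le_lev hm hn
  have e : (F.lev : ℤ) - 1 + 1 = F.lev := by ring
  have hV : F.V ((F.lev : ℤ) - 1) y = false := by
    by_contra h
    simp only [Bool.not_eq_false] at h
    have hr := Cfg.reach_V h
    rw [e] at hr
    exact hs _ (Cfg.deg_ne_of_V h).1 (by simp only; omega) hr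
  -- right edge
  have hR : ∀ z : ℤ, F.Reach ((F.lev : ℤ), z) ((F.lev : ℤ), y) →
      F.Reach ((F.lev : ℤ), z + 1) ((F.lev : ℤ), y) → F.H (F.lev : ℤ) z = true →
      F.H ((F.lev : ℤ) - 1) z = false ∧ F.V ((F.lev : ℤ) - 1) z = false ∧
        F.V ((F.lev : ℤ) - 1) (z + 1) = false := by
    intro z hz hz' hHz
    have v1 : F.V ((F.lev : ℤ) - 1) z = false := by
      by_contra h
      simp only [Bool.not_eq_false] at h
      have hr := Cfg.reach_V h
      rw [e] at hr
      exact hs _ (Cfg.deg_ne_of_V h).1 (by simp only; omega) (hr.trans hz)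
    have v2 : F.V ((F.lev : ℤ) - 1) (z + 1) = false := by
      by_contra h
      simp only [Bool.not_eq_false] at h
      have hr := Cfg.reach_V h
      rw [e] at hr
      exact hs _ (Cfg.deg_ne_of_V h).1 (by simp only; omega) (hr.trans hz')
    refine ⟨?_, v1, v2⟩
    by_contra h
    simp only [Bool.not_eq_false] at h
    have hH' : F.H ((F.lev : ℤ) - 1 + 1) z = true := by rw [e]; exact hHz
    have hr := mergeH hm h hH' v1 v2
    rw [e] at hr
    exact hs _ (Cfg.deg_ne_of_H h).1 (by simp only; omega) (hr.trans hz)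
  have ey : y - 1 + 1 = y := by ring
  have hright : F.H (F.lev : ℤ) y = true → F.H ((F.lev : ℤ) - 1) y = false ∧
      F.V ((F.lev : ℤ) - 1) (y + 1) = false := by
    intro h
    have := hR y (Cfg.Reach.refl' F _) (Cfg.reach_H h).symm h
    exact ⟨this.1, this.2.2⟩
  have hleft : F.H (F.lev : ℤ) (y - 1) = true → F.H ((F.lev : ℤ) - 1) (y - 1) = false := by
    intro h
    have h3 := Cfg.reach_H h
    rw [ey] at h3
    have := hR (y - 1) h3 (by rw [ey]; exact Cfg.Reach.refl' F _) h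
    exact this.1
  have hnb : ¬ (F.H (F.lev : ℤ) y = true ∧ F.H (F.lev : ℤ) (y - 1) = true) := by
    rintro ⟨a1, a2⟩
    have b1 := (hright a1).1
    have b2 := hleft a2
    have hin := hm.good.in_of_deg hy
    have hin' : G.In ((F.lev : ℤ) - 1, y) := G.in_up hin (by omega) (by omega)
    have hd : F.deg ((F.lev : ℤ) - 1, y) = 0 := by
      have h3 := hm.good.deg_cases ((F.lev : ℤ) - 1, y)
      rw [Cfg.deg_mk, b1, b2, hV] at h3 ⊢
      have h4 := Cfg.toNat_le_one (F.V ((F.lev : ℤ) - 1 - 1) y)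
      simp only [Bool.toNat_false] at h3 ⊢
      omega
    have h3 := iso_bottom hm _ hin' hd
    have h4 := hin.2
    simp only at h3 h4
    omega
  have hdeg := hm.good.deg_cases ((F.lev : ℤ), y)
  rw [Cfg.deg_mk, hV] at hdeg hy
  simp only [Bool.toNat_false] at hdeg hy
  refine ⟨hV, ?_, hright, ?_⟩
  · by_contra h
    simp only [Bool.not_eq_true] at h
    rw [h] at hdeg hy
    cases h5 : F.H (F.lev : ℤ) y <;> cases h6 : F.H (F.lev : ℤ) (y - 1) <;>
      simp [h5, h6] at hdeg hy hnb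
  · cases h5 : F.H (F.lev : ℤ) y <;> cases h6 : F.H (F.lev : ℤ) (y - 1) <;>
      cases h7 : F.V (F.lev : ℤ) y <;> simp [h5, h6, h7] at hdeg hy hnb ⊢

private theorem rowi_main {G : Hist} {F : Cfg} (hm : G.Minimal F) (hn : ¬ F.Conn) {a : ℤ}
    (hH : F.H (F.lev : ℤ) a = true)
    (hs : ∀ p : ℤ × ℤ, F.deg p ≠ 0 → p.1 < F.lev → ¬ F.Reach p ((F.lev : ℤ), a)) :
    Ctx G F F.lev a := by
  have h2 := two_le_lev hm hn
  have hs' : ∀ p : ℤ × ℤ, F.deg p ≠ 0 → p.1 < F.lev → ¬ F.Reach p ((F.lev : ℤ), a + 1) :=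
    fun p hp hlt hr => hs p hp hlt (hr.trans (Cfg.reach_H hH).symm)
  obtain ⟨u1, d1, r1, l1⟩ := rowi_pt hm hn (Cfg.deg_ne_of_H hH).1 hs
  obtain ⟨u2, d2, r2, l2⟩ := rowi_pt hm hn (Cfg.deg_ne_of_H hH).2 hs'
  have ea : a + 1 - 1 = a := by ring
  rw [ea] at l2
  have L : F.H (F.lev : ℤ) (a - 1) = false := by
    rcases l1 with h | h
    · exact h.2
    · rw [hH] at h
      exact absurd h.1 (by simp)
  have R : F.H (F.lev : ℤ) (a + 1) = false := by
    rcases l2 with h | h
    · rw [hH] at h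
      exact absurd h.2 (by simp)
    · exact h.1
  obtain ⟨t3, -⟩ := r1 hH
  have i1 := hm.good.in_of_deg (Cfg.deg_ne_of_H hH).1
  have i2 := hm.good.in_of_deg (Cfg.deg_ne_of_H hH).2
  have j1 : G.In ((F.lev : ℤ) - 1, a) := G.in_up i1 (by omega) (by omega)
  have j2 : G.In ((F.lev : ℤ) - 1, a + 1) := G.in_up i2 (by omega) (by omega)
  have n1 : F.deg ((F.lev : ℤ) - 1, a) ≠ 0 := by
    intro h
    have h3 := iso_bottom hm _ j1 h
    have h4 := i1.2
    simp only at h3 h4
    omega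
  have n2 : F.deg ((F.lev : ℤ) - 1, a + 1) ≠ 0 := by
    intro h
    have h3 := iso_bottom hm _ j2 h
    have h4 := i2.2
    simp only at h3 h4
    omega
  have c1 := hm.good.deg_cases ((F.lev : ℤ) - 1, a)
  have c2 := hm.good.deg_cases ((F.lev : ℤ) - 1, a + 1)
  rw [Cfg.deg_mk, t3, u1] at c1 n1
  rw [Cfg.deg_mk, ea, t3, u2] at c2 n2
  simp only [Bool.toNat_false] at c1 c2 n1 n2
  have T1 : F.H ((F.lev : ℤ) - 1) (a - 1) = true ∧ F.V ((F.lev : ℤ) - 1 - 1) a = true := by
    cases h5 : F.H ((F.lev : ℤ) - 1) (a - 1) <;> cases h6 : F.V ((F.lev : ℤ) - 1 - 1) a <;>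
      simp [h5, h6] at c1 n1 ⊢
  have T2 : F.H ((F.lev : ℤ) - 1) (a + 1) = true ∧ F.V ((F.lev : ℤ) - 1 - 1) (a + 1) = true := by
    cases h5 : F.H ((F.lev : ℤ) - 1) (a + 1) <;> cases h6 : F.V ((F.lev : ℤ) - 1 - 1) (a + 1) <;>
      simp [h5, h6] at c2 n2 ⊢
  have hr : ∀ r : ℤ, (F.lev : ℤ) - 1 ≤ r → r < F.lev → r = (F.lev : ℤ) - 1 := by
    intro r _ _
    omega
  refine ⟨hm, hn, rfl, ?_, fun p hp h0 => iso_bottom hm p hp h0, ?_, hs, ?_⟩
  · have := (hm.good.V _ _ T1.2).1.1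
    simp only at this
    omega
  · intro p q hp hq h1 h2'
    by_contra hc
    have h3 := Cfg.lev_le hp hq hc
    omega
  · refine ⟨by omega, ?_, hH, d1, d2, L, R, ?_, ?_, ?_, ?_, ?_, ?_, ?_, ?_, ?_, ?_, ?_, ?_⟩
    · exact ⟨0, by ring⟩
    · intro r q1 q2 _
      rw [hr r q1 q2]
      exact T1.1
    · intro r q1 q2 _
      rw [hr r q1 q2]
      exact T1.2
    · intro r q1 q2 _
      rw [hr r q1 q2]
      exact t3
    · intro r q1 q2 _
      rw [hr r q1 q2]
      exact u1
    · intro r q1 q2 _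
      rw [hr r q1 q2]
      exact T2.1
    · intro r q1 q2 _
      rw [hr r q1 q2]
      exact T2.2
    · intro r q1 q2 _
      rw [hr r q1 q2]
      exact u2
    all_goals
      intro r q1 q2 _
      exfalso
      omega

/-- Let `i` be the level and let `b = (i, x)` have positive degree and be joined to no point of
the rows above. The edge up is not used. If the edge from `b` to the right is used, then by
`mergeH` the edge above it is not used (the points above are not isolated by `iso_bottom`); if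
also the edge to the left were used, the point above `b` would have degree at most one. So
`b, b + (0,1)` form a cap; the points above go outwards and up. In particular `i ≥ 3`. -/
theorem ctx_of {G : Hist} {F : Cfg} (hm : G.Minimal F) (hn : ¬ F.Conn) {x : ℤ}
    (hx : F.deg ((F.lev : ℤ), x) ≠ 0)
    (hs : ∀ p : ℤ × ℤ, F.deg p ≠ 0 → p.1 < F.lev → ¬ F.Reach p ((F.lev : ℤ), x)) :
    ∃ a, (x = a ∨ x = a + 1) ∧ Ctx G F F.lev a := by
  obtain ⟨-, -, -, h⟩ := rowi_pt hm hn hx hs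
  rcases h with h | h
  · exact ⟨x, Or.inl rfl, rowi_main hm hn h.1 hs⟩
  · refine ⟨x - 1, Or.inr (by ring), rowi_main hm hn h.2 ?_⟩
    intro p hp hlt hr
    have h3 := Cfg.reach_H h.2
    have e : x - 1 + 1 = x := by ring
    rw [e] at h3
    exact hs p hp hlt (hr.trans h3)

theorem exists_ctx {G : Hist} {F : Cfg} (hm : G.Minimal F) (hn : ¬ F.Conn) :
    ∃ a, Ctx G F F.lev a := by
  have h2 := two_le_lev hm hn
  obtain ⟨⟨r, x⟩, ⟨r', y⟩, hp, hq, hpq, hlev⟩ := Cfg.lev_spec hn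
  simp only at hlev
  have habove : ∀ p q : ℤ × ℤ, F.deg p ≠ 0 → F.deg q ≠ 0 → p.1 < F.lev → q.1 < F.lev →
      F.Reach p q := by
    intro p q hp hq h1 h2'
    by_contra hc
    have h3 := Cfg.lev_le hp hq hc
    omega
  -- the main step, for a point in the row of the level
  have key : ∀ r x r' y : ℤ, F.deg (r, x) ≠ 0 → F.deg (r', y) ≠ 0 → ¬ F.Reach (r, x) (r', y) →
      r = F.lev → r' ≤ F.lev → ∃ a, Ctx G F F.lev a := by
    intro r x r' y hp hq hpq hr hr'
    by_cases hs : ∀ p : ℤ × ℤ, F.deg p ≠ 0 → p.1 < F.lev → ¬ F.Reach p ((F.lev : ℤ), x)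
    · obtain ⟨a, -, ha⟩ := ctx_of hm hn (by rw [← hr]; exact hp) hs
      exact ⟨a, ha⟩
    · push Not at hs
      obtain ⟨p', hp', hlt, hreach⟩ := hs
      rw [← hr] at hreach
      have hr'2 : r' = F.lev := by
        by_contra hne
        have hlt' : (r', y).1 < (F.lev : ℤ) := by
          simp only
          omega
        exact hpq (hreach.symm.trans (habove _ _ hp' hq hlt hlt'))
      have hs' : ∀ p : ℤ × ℤ, F.deg p ≠ 0 → p.1 < F.lev → ¬ F.Reach p ((F.lev : ℤ), y) := by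
        intro p hp2 hlt2 hr2
        rw [← hr'2] at hr2
        exact hpq ((hreach.symm.trans (habove _ _ hp' hp2 hlt hlt2)).trans hr2)
      obtain ⟨a, -, ha⟩ := ctx_of hm hn (by rw [← hr'2]; exact hq) hs'
      exact ⟨a, ha⟩
  have h5 : (max r r') = F.lev := by omega
  rcases le_total r r' with h | h
  · rw [max_eq_right h] at h5
    exact key r' y r x hq hp (fun h' => hpq h'.symm) h5 (by omega)
  · rw [max_eq_left h] at h5
    exact key r x r' y hp hq hpq h5 (by omega)

end MP545
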