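import Pool.Agent.Lib.MP_545c5e_lc.ColL
import Pool.Agent.Lib.MP_545c5e_lc.RowI

/-! One step to the left. -/

namespace MP545

open Finset

/-- the flip of the cell with top left corner `(i - 1, a - 1)` -/
private theorem stepL_flip {G : Hist} {F : Cfg} {i a : ℤ} (hm : G.Minimal F)
    (hin : G.In (i, a - 1)) (hin' : G.In (i, a)) (hi : 2 ≤ i)
    (h1 : F.H (i - 1) (a - 1) = true) (h2 : F.H i (a - 1) = false)
    (h3 : F.V (i - 1) (a - 1) = false) (h4 : F.V (i - 1) a = false)
    (hd : F.deg (i, a - 1) = 0) (hd2 : F.deg (i, a) = 2)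
    (hr : ¬ F.Reach (i - 1, a) (i, a)) : False := by
  have hgood := hm.good
  have e0 : i - 1 + 1 = i := by ring
  have e1 : a - 1 + 1 = a := by ring
  set F' := F.flip (i - 1) (a - 1) with hF'
  have hu : G.In (i - 1, a - 1) := Hist.in_up hin (by omega) (by omega)
  have g' : G.Good F' := flip_good hgood hu (by rw [e0]; exact hin) (by rw [e0, e1]; exact hin')
  -- new edges
  have n1 : F'.H i (a - 1) = true := by
    rw [hF']
    unfold Cfg.flip
    simp only
    rw [if_pos ⟨trivial, Or.inr e0.symm⟩, h2]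
    rfl
  have n2 : F'.V (i - 1) (a - 1) = true := by
    rw [hF']
    unfold Cfg.flip
    simp only
    rw [if_pos ⟨trivial, Or.inl trivial⟩, h3]
    rfl
  have n3 : F'.V (i - 1) a = true := by
    rw [hF']
    unfold Cfg.flip
    simp only
    rw [if_pos ⟨trivial, Or.inr e1.symm⟩, h4]
    rfl
  have r1 : F'.Reach (i - 1, a - 1) (i, a - 1) := by
    have := Cfg.reach_V n2
    rwa [e0] at this
  have r2 : F'.Reach (i, a - 1) (i, a) := by
    have := Cfg.reach_H n1
    rwa [e1] at this
  have r3 : F'.Reach (i - 1, a) (i, a) := by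
    have := Cfg.reach_V n3
    rwa [e0] at this
  have r4 : F'.Reach (i - 1, a - 1) (i - 1, a) := (r1.trans r2).trans r3.symm
  have kH : ∀ r x, F.H r x = true → F'.Reach (r, x) (r, x + 1) := by
    intro r x hx
    by_cases hc : x = a - 1 ∧ (r = i - 1 ∨ r = i - 1 + 1)
    · obtain ⟨rfl, hr' | hr'⟩ := hc
      · subst hr'
        rw [e1]
        exact r4
      · rw [e0] at hr'
        subst hr'
        rw [h2] at hx
        cases hx
    · refine Cfg.reach_H ?_
      rw [hF']
      unfold Cfg.flip
      simp only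
      rw [if_neg hc]
      exact hx
  have kV : ∀ r x, F.V r x = true → F'.Reach (r, x) (r + 1, x) := by
    intro r x hx
    by_cases hc : r = i - 1 ∧ (x = a - 1 ∨ x = a - 1 + 1)
    · obtain ⟨rfl, hx' | hx'⟩ := hc
      · subst hx'
        rw [h3] at hx
        cases hx
      · rw [e1] at hx'
        subst hx'
        rw [h4] at hx
        cases hx
    · refine Cfg.reach_V ?_
      rw [hF']
      unfold Cfg.flip
      simp only
      rw [if_neg hc]
      exact hx
  have ha : ∀ p q, F.Adj p q → F'.Reach (id p) (id q) := by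
    rintro ⟨r, x⟩ ⟨r', x'⟩ hpq
    simp only [id]
    rcases hpq with ⟨h, e⟩ | ⟨h, e⟩ | ⟨h, e⟩ | ⟨h, e⟩ <;> simp only at h e
    · rw [e]
      exact kH _ _ h
    · rw [e]
      exact (kH _ _ h).symm
    · rw [e]
      exact kV _ _ h
    · rw [e]
      exact (kV _ _ h).symm
  -- degrees
  have d1 : F'.deg (i - 1, a - 1) = F.deg (i - 1, a - 1) := by
    rw [hF', Cfg.flip_deg_tl, Cfg.deg_mk, h1, h3]
    simp
    omega
  have d2 : F'.deg (i - 1, a) = F.deg (i - 1, a) := by
    have := Cfg.flip_deg_tr F (i - 1) (a - 1)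
    rw [e1] at this
    rw [hF', this, Cfg.deg_mk, h1, h4]
    simp
    omega
  have d3 : F'.deg (i, a - 1) = 2 := by
    have := Cfg.flip_deg_bl F (i - 1) (a - 1)
    rw [e0] at this
    rw [hF', this, h2, h3]
    rw [Cfg.deg_mk, h2, h3] at hd
    simp at hd ⊢
    rw [hd.1, hd.2]
    rfl
  have d4 : F'.deg (i, a) = F.deg (i, a) + 2 := by
    have := Cfg.flip_deg_br F (i - 1) (a - 1)
    rw [e0, e1] at this
    rw [hF', this, Cfg.deg_mk, h2, h4]
    simp
    omega
  have dother : ∀ p : ℤ × ℤ, p ≠ (i, a - 1) → p ≠ (i, a) → F'.deg p = F.deg p := by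
    intro p hp1 hp2
    by_cases hp3 : p = (i - 1, a - 1)
    · rw [hp3, d1]
    by_cases hp4 : p = (i - 1, a)
    · rw [hp4, d2]
    refine Cfg.flip_deg_other F (i - 1) (a - 1) p hp3 ?_ ?_ ?_
    · rw [e1]
      exact hp4
    · rw [e0]
      exact hp1
    · rw [e0, e1]
      exact hp2
  have hne : (i, a - 1) ≠ (i, a) := by
    intro h
    rw [Prod.mk.injEq] at h
    omega
  have hcost : G.cost F' ≤ G.cost F := by
    unfold Hist.cost
    refine Hist.sum_le_of_change (S := {(i, a - 1), (i, a)}) ?_ ?_ ?_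
    · intro p hp
      rw [Finset.mem_insert, Finset.mem_singleton] at hp
      rcases hp with rfl | rfl
      · exact (G.mem_Vs _).2 hin
      · exact (G.mem_Vs _).2 hin'
    · intro p _ hp
      rw [Finset.mem_insert, Finset.mem_singleton, not_or] at hp
      rw [dother p hp.1 hp.2]
    · rw [Finset.sum_pair hne, Finset.sum_pair hne, d3, d4, hd, hd2]
      simp
  have hb : ∀ p', F'.deg p' ≠ 0 → ∃ p, F.deg p ≠ 0 ∧ F'.Reach (id p) p' := by
    intro p' hp'
    by_cases hp1 : p' = (i, a - 1)
    · refine ⟨(i, a), by rw [hd2]; decide, ?_⟩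
      rw [hp1]
      exact r2.symm
    by_cases hp2 : p' = (i, a)
    · refine ⟨(i, a), by rw [hd2]; decide, ?_⟩
      rw [hp2]
      exact Cfg.Reach.refl' _ _
    · refine ⟨p', ?_, Cfg.Reach.refl' _ _⟩
      rwa [dother p' hp1 hp2] at hp'
  have hq : F.deg (i - 1, a) ≠ 0 := by
    have := (Cfg.deg_ne_of_H h1).2
    rwa [e1] at this
  have hlt := (mono hgood id ha hb).2 (i - 1, a) (i, a) hq (by rw [hd2]; decide) hr r3
  exact hm.use1 g' hcost hlt

/-- If the column `a - 1` has length exactly `i` then `(i, a - 1)` is isolated (its edges up and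
right are not used and there is no point below), and flipping the cell with top left corner
`(i - 1, a - 1)` (whose edge `(i-1, a-1)`, `(i-1, a)` is used and whose three other edges are
not) joins two components: the degree of `(i, a)` goes from 2 to 4. If the column is longer, then
`(i, a - 1)` has degree 2 and goes left and down; by `mergeV` it is joined with `(i, a)`. Then
apply `ctx_of` to the point `(i, a - 1)`. -/
theorem stepL {G : Hist} {F : Cfg} {a i : ℤ} (hc : Ctx G F i a) :
    G.h (a - 1) = i - 1 ∨ Ctx G F i (a - 2) := by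
  have hm := hc.min
  have hgood := hm.good
  have hf := ladder hc
  have hlad := hc.lad
  have h3 := hc.three
  have e0 : i - 1 + 1 = i := by ring
  have e1 : a - 1 + 1 = a := by ring
  have e2 : a - 1 - 1 = a - 2 := by ring
  have hodd1 : Odd (i - (i - 1)) := by
    have : i - (i - 1) = 1 := by ring
    rw [this]
    exact odd_one
  have t1 : F.H (i - 1) (a - 1) = true := hlad.T1 (i - 1) le_rfl (by omega) hodd1
  have t4 : F.V (i - 1) a = false := hlad.T4 (i - 1) le_rfl (by omega) hodd1
  have hin1 : G.In (i - 1, a - 1) := (hgood.H _ _ t1).1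
  have hev : Even (i - 1) := by
    obtain ⟨m, hm'⟩ := hf.odd
    exact ⟨m, by omega⟩
  obtain ⟨c1, c2, c3⟩ := (colL hc hf).2 (i - 1) (by omega) (by omega) hev
  have hh := hin1.2
  simp only at hh
  rcases eq_or_lt_of_le hh with hh' | hh'
  · exact Or.inl hh'.symm
  refine Or.inr ?_
  have hin : G.In (i, a - 1) := ⟨by show (1 : ℤ) ≤ i; omega, by show i ≤ G.h (a - 1); omega⟩
  have hinV : G.In (i, a) := (hgood.V _ _ hlad.capV).1
  have hinV' : G.In (i + 1, a) := (hgood.V _ _ hlad.capV).2
  have hrc : F.deg (i - 1, a) ≠ 0 := by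
    have := (Cfg.deg_ne_of_H t1).2
    rwa [e1] at this
  have hda : F.deg (i, a) = 2 := by
    rw [Cfg.deg_mk, hlad.capL, hlad.capH, t4, hlad.capV]
    rfl
  have hnd : F.deg (i, a - 1) ≠ 0 := by
    intro h0
    exact stepL_flip hm hin hinV (by omega) t1 hlad.capL c2 t4 h0 hda
      (hc.sep (i - 1, a) hrc (by show i - 1 < i; omega))
  have hev2 := hgood.even (i, a - 1)
  rw [Cfg.deg_mk, e2, hlad.capL, c2] at hnd hev2
  have b1 : F.H i (a - 2) = true ∧ F.V i (a - 1) = true := by
    cases hx : F.H i (a - 2) <;> cases hy : F.V i (a - 1) <;> rw [hx, hy] at hnd hev2 <;>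
      simp at hnd hev2 ⊢
  have hjoin : F.Reach (i, a - 1) (i, a) := by
    cases hH : F.H (i + 1) (a - 1)
    · have := mergeV hm (r := i) (x := a - 1) b1.2 (by rw [e1]; exact hlad.capV) hlad.capL hH
      rwa [e1] at this
    · have q1 := Cfg.reach_V b1.2
      have q2 := Cfg.reach_H hH
      have q3 := Cfg.reach_V hlad.capV
      rw [e1] at q2
      exact (q1.trans q2).trans q3.symm
  have hlev := hc.lev
  obtain ⟨a', ha', hc'⟩ := ctx_of hm hc.nconn (x := a - 1)
    (by rw [hlev]; exact (Cfg.deg_ne_of_V b1.2).1)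
    (by
      intro p hp hp1 hr
      rw [hlev] at hp1 hr
      exact hc.sep p hp hp1 (hr.trans hjoin))
  rw [hlev] at hc'
  rcases ha' with ha' | ha'
  · exfalso
    have := hc'.lad.capH
    rw [← ha', hlad.capL] at this
    cases this
  · have : a' = a - 2 := by omega
    rw [← this]
    exact hc'

end MP545
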