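import Pool.Agent.Lib.MP_545c5e_lc.LadKT
import Pool.Agent.Lib.MP_545c5e_lc.LadDeg1
import Pool.Agent.Lib.MP_545c5e_lc.Abs
import Pool.Agent.Lib.MP_545c5e_lc.Use

/-! First stop of a ladder. -/

namespace MP545

open Finset

/-- Otherwise `F' = F.lad1 a s i` has the same degrees as `F`; `split_lev` with
`ψ = psi a s i`, `A = (s, a)`, `B = (i, a)`, `p = (s - 1, a)`, `q = (s, a)`. -/
theorem stop1 {G : Hist} {F : Cfg} {a s i : ℤ} (hc : Ctx G F i a) (hl : Lad F a s i)
    (hs : 2 ≤ s) : F.H (s - 1) a = true := by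
  by_contra hH
  rw [Bool.not_eq_true] at hH
  have hsi := hl.lt
  have par := hl.par
  obtain ⟨hgood, hdeg⟩ := lad1_good hc.min.good hl hs hH
  set F' := F.lad1 a s i with hF'
  have e0 : s - 1 + 1 = s := by ring
  have hkH : ∀ r x, s < r → F'.H r x = (F.ladK a s i).H r x := by
    intro r x hr
    rw [hF']
    simp only [Cfg.lad1]
    rw [if_neg (by omega)]
  have hkV : ∀ r x, s ≤ r → F'.V r x = (F.ladK a s i).V r x := by
    intro r x hr
    rw [hF']
    simp only [Cfg.lad1]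
    rw [if_neg (by omega)]
  obtain ⟨t1, t2, t3, t4, t5⟩ := ladK_transfer hc hl hs F' hkH hkV
  have t2s := hl.T2 s le_rfl hsi par
  have t6s := hl.T6 s le_rfl hsi par
  have dsa : F.deg (s, a) ≠ 0 := by
    have := (Cfg.deg_ne_of_V t2s).2
    rwa [e0] at this
  have dsa' : F.deg (s, a + 1) ≠ 0 := by
    have := (Cfg.deg_ne_of_V t6s).2
    rwa [e0] at this
  have dpa : F.deg (s - 1, a) ≠ 0 := (Cfg.deg_ne_of_V t2s).1
  have dpa' : F.deg (s - 1, a + 1) ≠ 0 := (Cfg.deg_ne_of_V t6s).1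
  have dia : F.deg (i, a) ≠ 0 := (Cfg.deg_ne_of_H hl.capH).1
  have oddi : Odd (i - (i - 1)) := by
    have : i - (i - 1) = 1 := by ring
    rw [this]; exact odd_one
  have dim : F.deg (i - 1, a) ≠ 0 := by
    have := (Cfg.deg_ne_of_V (hl.T2 (i - 1) (by omega) (by omega) oddi)).2
    have e : i - 1 - 1 + 1 = i - 1 := by ring
    rwa [e] at this
  -- the new edge
  have hnew : F'.Reach (s - 1, a) (s - 1, a + 1) := by
    apply Cfg.reach_H
    rw [hF']
    simp [Cfg.lad1]
  have hDs : F'.Reach (s, a) (s, a + 1) := t1 s le_rfl hsi par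
  have psiup : ∀ r x, r ≤ s → psi a s i (r, x) = (r, x) := by
    intro r x hr
    exact psi_fix (by rintro ⟨_, h, _⟩; omega)
  -- edges above
  have upH : ∀ r x, r ≤ s → F.H r x = true → F'.H r x = true := by
    intro r x hr h
    rw [hF']
    simp only [Cfg.lad1, Cfg.ladK]
    by_cases h1 : r = s - 1 ∧ x = a
    · rw [if_pos h1]
    · rw [if_neg h1, if_neg (by omega)]
      exact h
  have upV : ∀ r x, r < s → ¬ (r = s - 1 ∧ (x = a ∨ x = a + 1)) → F.V r x = true →
      F'.V r x = true := by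
    intro r x hr h1 h
    rw [hF']
    simp only [Cfg.lad1, Cfg.ladK]
    rw [if_neg h1, if_neg (by omega)]
    exact h
  have hAx : ∀ p : ℤ × ℤ, F.deg p ≠ 0 → p.1 < i → F.Reach (s, a) p := fun p hp hpi =>
    hc.above (s, a) p dsa hp (by simpa using hsi) hpi
  -- the disjunction for the adjacent pairs
  have keyH : ∀ r x, F.H r x = true →
      F'.Reach (psi a s i (r, x)) (psi a s i (r, x + 1)) := by
    intro r x h
    by_cases hr : s < r
    · exact t3 r x hr h
    · rw [psiup r x (by omega), psiup r (x + 1) (by omega)]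
      exact Cfg.reach_H (upH r x (by omega) h)
  have keyV : ∀ r x, F.V r x = true →
      F'.Reach (psi a s i (r, x)) (psi a s i (r + 1, x)) ∨ (r = s - 1 ∧ (x = a ∨ x = a + 1)) := by
    intro r x h
    by_cases hr : s ≤ r
    · exact Or.inl (t4 r x hr h)
    · by_cases hex : r = s - 1 ∧ (x = a ∨ x = a + 1)
      · exact Or.inr hex
      · refine Or.inl ?_
        rw [psiup r x (by omega), psiup (r + 1) x (by omega)]
        exact Cfg.reach_V (upV r x (by omega) hex h)
  have exV : ∀ x, (x = a ∨ x = a + 1) →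
      (F'.Reach (s - 1, a) (psi a s i (s - 1, x)) ∧ F'.Reach (s, a) (psi a s i (s, x))) := by
    intro x hx
    rw [psiup _ _ (by omega), psiup _ _ le_rfl]
    rcases hx with rfl | rfl
    · exact ⟨Cfg.Reach.refl' _ _, Cfg.Reach.refl' _ _⟩
    · exact ⟨hnew, hDs⟩
  have hfin := split_lev hc.min.good hgood (psi a s i) (s, a) (i, a) (s - 1, a) (s, a)
    dsa dia (hc.sep _ dsa (by simpa using hsi)) ?_ ?_ ?_ (i - 1, a) ?_ ?_ ?_ ?_ ?_ ?_
  · rcases hfin with h | ⟨h1, h2⟩
    · exact hc.min.use1 hgood (Finset.sum_le_sum fun p _ => by rw [hdeg p]) h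
    · exact hc.min.use2 hgood (Finset.sum_le_sum fun p _ => by rw [hdeg p]) h1 h2
  · rintro ⟨r, x⟩ ⟨r', x'⟩ hadj
    rcases hadj with ⟨h, e⟩ | ⟨h, e⟩ | ⟨h, e⟩ | ⟨h, e⟩ <;> simp only [Prod.mk.injEq] at e h <;>
      obtain ⟨rfl, rfl⟩ := e
    · exact Or.inl (keyH _ _ h)
    · exact Or.inl (keyH _ _ h).symm
    · rcases keyV _ _ h with h' | ⟨rfl, hx⟩
      · exact Or.inl h'
      · refine Or.inr ⟨hAx _ (Cfg.deg_ne_of_V h).1 (by simp only; omega), Or.inl (exV _ hx).1, ?_⟩
        rw [e0]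
        exact Or.inr (exV _ hx).2
    · rcases keyV _ _ h with h' | ⟨rfl, hx⟩
      · exact Or.inl h'.symm
      · refine Or.inr ⟨hAx _ (Cfg.deg_ne_of_V h).2 (by simp only; omega), ?_,
          Or.inl (exV _ hx).1⟩
        rw [e0]
        exact Or.inr (exV _ hx).2
  · rintro ⟨r, x⟩ hp
    rw [hdeg] at hp
    by_cases hcap : (x = a ∨ x = a + 1) ∧ s < r ∧ r < i ∧ Even (i - r)
    · obtain ⟨hx, h1, h2, h3⟩ := hcap
      have h5 := t5 r h1 h2 h3
      have hev := h3
      obtain ⟨k, hk⟩ := h3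
      have ho : Odd (i - (r - 1)) := ⟨k, by omega⟩
      have e : r - 1 - 1 + 1 = r - 1 := by ring
      refine ⟨(r - 1, x), ?_, ?_⟩
      · rcases hx with rfl | rfl
        · have := (Cfg.deg_ne_of_V (hl.T2 (r - 1) (by omega) (by omega) ho)).2
          rwa [e] at this
        · have := (Cfg.deg_ne_of_V (hl.T6 (r - 1) (by omega) (by omega) ho)).2
          rwa [e] at this
      · rw [psi_fix]
        · rcases hx with rfl | rfl
          · exact h5.1
          · exact h5.2
        · rintro ⟨_, _, _, m, hm⟩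
          omega
    · exact ⟨(r, x), hp, by rw [psi_fix hcap]; exact Cfg.Reach.refl' _ _⟩
  · refine Or.inr ?_
    rw [psiup _ _ le_rfl]
    exact Cfg.Reach.refl' _ _
  · exact hAx _ dim (by simp only; omega)
  · rw [psi_fix, psi_fix]
    · exact t2
    · rintro ⟨_, _, h, _⟩; omega
    · rintro ⟨_, _, _, m, hm⟩; omega
  · rw [hdeg]; exact dpa
  · rw [hdeg]; exact dsa
  · have := hc.lev
    simp only; omega
  · have := hc.lev
    simp only; omega

end MP545
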