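import Pool.Agent.Lib.MP_545c5e_lc.LadKT
import Pool.Agent.Lib.MP_545c5e_lc.LadDeg4
import Pool.Agent.Lib.MP_545c5e_lc.FullLad
import Pool.Agent.Lib.MP_545c5e_lc.Abs
import Pool.Agent.Lib.MP_545c5e_lc.Use

/-! Fourth stop of a ladder. -/

namespace MP545

open Finset

private theorem st4_edges {F : Cfg} {P : ℤ × ℤ → ℤ × ℤ → Prop}
    (hH : ∀ r x, F.H r x = true → P (r, x) (r, x + 1) ∧ P (r, x + 1) (r, x))
    (hV : ∀ r x, F.V r x = true → P (r, x) (r + 1, x) ∧ P (r + 1, x) (r, x)) :
    ∀ p q, F.Adj p q → P p q := by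
  rintro ⟨r, x⟩ ⟨r', x'⟩ h
  rcases h with ⟨h, e⟩ | ⟨h, e⟩ | ⟨h, e⟩ | ⟨h, e⟩ <;> simp only [Prod.mk.injEq] at e h <;>
    obtain ⟨rfl, rfl⟩ := e
  · exact (hH _ _ h).1
  · exact (hH _ _ h).2
  · exact (hV _ _ h).1
  · exact (hV _ _ h).2

private theorem st4_psi_low {a s i : ℤ} {p : ℤ × ℤ} (h : p.1 ≤ s) : psi a s i p = p := by
  unfold psi
  rw [if_neg]
  rintro ⟨-, h2, -⟩
  omega

private theorem st4_psi_not {a s i : ℤ} {p : ℤ × ℤ}
    (h : ¬ ((p.2 = a ∨ p.2 = a + 1) ∧ s < p.1 ∧ p.1 < i ∧ Even (i - p.1))) : psi a s i p = p := by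
  unfold psi
  rw [if_neg h]

/-- Otherwise the degree is four. With `s = r + 1`, `F' = F.lad4 a s i` has the same cost: the
degree of `(s, a - 1)` goes from 4 to 2 and that of `(s, a + 1)` from 2 to 4. `split_lev` with
`ψ = psi a s i`, `A = (s, a)`, `B = (i, a)`, `p = (s, a - 1)`, `q = (s - 1, a - 1)`. -/
theorem stop4 {G : Hist} {F : Cfg} {a i : ℤ} (hc : Ctx G F i a) (hf : Full F a i) {r : ℤ}
    (h1 : 1 ≤ r) (h2 : r + 2 ≤ i) (ho : Odd r) (hV : F.V r (a - 1) = true) :
    F.deg (r + 1, a - 1) = 2 := by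
  classical
  obtain ⟨s, rfl⟩ : ∃ s, r = s - 1 := ⟨r + 1, by ring⟩
  have hs2 : 2 ≤ s := by omega
  have hsi : s < i := by omega
  have hse : Even s := by
    obtain ⟨k, hk⟩ := ho
    exact ⟨k + 1, by omega⟩
  rw [sub_add_cancel]
  have hl : Lad F a s i := hf.lad hs2 hsi hse
  by_contra hdeg
  have hH : F.H (s - 1) a = true := hf.C1 (s - 1) h1 (by omega) ho
  have hH' : F.H (s - 1) (a - 1) = false := hf.C4 (s - 1) h1 (by omega) ho
  have hdV := Cfg.deg_ne_of_V hV
  rw [sub_add_cancel] at hdV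
  have h4 : F.deg (s, a - 1) = 4 := by
    rcases hc.min.good.deg_cases (s, a - 1) with h | h | h
    · exact absurd h hdV.2
    · exact absurd h hdeg
    · exact h
  obtain ⟨hgood, d1, d2, d3, dother⟩ := lad4_good hc.min.good hl hs2 hH hH' hV h4
  set F' := F.lad4 a s i with hF'
  -- cost
  have hne : ((s, a - 1) : ℤ × ℤ) ≠ (s, a + 1) := by
    intro h; rw [Prod.mk.injEq] at h; omega
  have hcost : G.cost F' ≤ G.cost F := by
    unfold Hist.cost
    apply Hist.sum_le_of_change (S := {(s, a - 1), (s, a + 1)})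
    · intro p hp
      rw [Finset.mem_insert, Finset.mem_singleton] at hp
      rw [G.mem_Vs]
      rcases hp with rfl | rfl
      · exact hc.min.good.in_of_deg hdV.2
      · exact hc.min.good.in_of_deg (by rw [d3]; norm_num)
    · intro p _ hp
      rw [Finset.mem_insert, Finset.mem_singleton, not_or] at hp
      rw [dother p hp.1 hp.2]
    · rw [Finset.sum_pair hne, Finset.sum_pair hne, d1, d2, d3, h4]
      norm_num
  -- values of F'
  have hFH : ∀ r x, ¬ (r = s ∧ x = a) → ¬ (r = s ∧ x = a - 1) → ¬ (r = s - 1 ∧ x = a - 1) →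
      F'.H r x = (F.ladK a s i).H r x := by
    intro r x e1 e2 e3
    show (if r = s ∧ x = a then true else if r = s ∧ x = a - 1 then false
      else if r = s - 1 ∧ x = a - 1 then true else (F.ladK a s i).H r x) = _
    rw [if_neg e1, if_neg e2, if_neg e3]
  have hFH1 : F'.H s a = true := by
    show (if s = s ∧ a = a then true else if s = s ∧ a = a - 1 then false
      else if s = s - 1 ∧ a = a - 1 then true else (F.ladK a s i).H s a) = _
    rw [if_pos ⟨rfl, rfl⟩]
  have hFH2 : F'.H (s - 1) (a - 1) = true := by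
    show (if s - 1 = s ∧ a - 1 = a then true else if s - 1 = s ∧ a - 1 = a - 1 then false
      else if s - 1 = s - 1 ∧ a - 1 = a - 1 then true else (F.ladK a s i).H (s - 1) (a - 1)) = _
    rw [if_neg (by omega), if_neg (by omega), if_pos ⟨rfl, rfl⟩]
  have hFV : ∀ r x, ¬ (r = s - 1 ∧ (x = a ∨ x = a - 1)) →
      F'.V r x = (F.ladK a s i).V r x := by
    intro r x e
    show (if r = s - 1 ∧ (x = a ∨ x = a - 1) then false else (F.ladK a s i).V r x) = _
    rw [if_neg e]
  have hKH : ∀ r x, r ≤ s → (F.ladK a s i).H r x = F.H r x := by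
    intro r x h
    show (if r = i ∧ x = a then false else F.H r x) = _
    rw [if_neg (by omega)]
  have hKV : ∀ r x, r < s → (F.ladK a s i).V r x = F.V r x := by
    intro r x h
    show (if (x = a ∨ x = a + 1) ∧ s ≤ r ∧ r < i then !F.V r x else F.V r x) = _
    rw [if_neg (by omega)]
  obtain ⟨K1, K2, K3, K4, K5⟩ := ladK_transfer hc hl hs2 F'
    (fun r x h => hFH r x (by omega) (by omega) (by omega))
    (fun r x h => hFV r x (by omega))
  -- degrees
  have hpar := hl.par
  have dA : F.deg (s, a) ≠ 0 := by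
    have := (Cfg.deg_ne_of_H (hl.T1 s le_rfl hsi hpar)).2
    rwa [sub_add_cancel] at this
  have dB : F.deg (i, a) ≠ 0 := (Cfg.deg_ne_of_H hl.capH).1
  have hi1 : Odd (i - (i - 1)) := ⟨0, by ring⟩
  have dA' : F.deg (i - 1, a) ≠ 0 := by
    have := (Cfg.deg_ne_of_H (hl.T1 (i - 1) (by omega) (by omega) hi1)).2
    rwa [sub_add_cancel] at this
  -- a path in F'
  have e1 : F'.Reach (s - 1, a - 1) (s - 1, a) := by
    have := Cfg.reach_H hFH2
    rwa [sub_add_cancel] at this
  have e2 : F'.Reach (s - 1, a) (s - 1, a + 1) := by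
    apply Cfg.reach_H
    rw [hFH _ _ (by omega) (by omega) (by omega), hKH _ _ (by omega)]
    exact hH
  have e3 : F'.Reach (s - 1, a + 1) (s, a + 1) := by
    have : F'.V (s - 1) (a + 1) = true := by
      rw [hFV _ _ (by omega), hKV _ _ (by omega)]
      exact hl.T6 s le_rfl hsi hpar
    have := Cfg.reach_V this
    rwa [sub_add_cancel] at this
  have e4 : F'.Reach (s, a + 1) (s, a) := (Cfg.reach_H hFH1).symm
  have e5 : F'.Reach (s - 1, a) (s, a) := (e2.trans e3).trans e4
  have e6 : F'.Reach (s - 1, a - 1) (s, a) := e1.trans e5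
  have hsplit := split_lev hc.min.good hgood (psi a s i) (s, a) (i, a) (s, a - 1) (s - 1, a - 1)
    dA dB (hc.sep (s, a) dA hsi) ?_ ?_ ?_ (i - 1, a)
    (hc.above (s, a) (i - 1, a) dA dA' hsi (by simp)) ?_ (by rw [d1]; norm_num) ?_
    (by rw [hc.lev]; exact hsi) (by rw [hc.lev]; simp only; omega)
  · rcases hsplit with h | ⟨h, h'⟩
    · exact hc.min.use1 hgood hcost h
    · exact hc.min.use2 hgood hcost h h'
  · -- edges
    apply st4_edges
    · intro r x h
      by_cases hr : s < r
      · exact ⟨Or.inl (K3 r x hr h), Or.inl (K3 r x hr h).symm⟩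
      · have f1 : psi a s i (r, x) = (r, x) := st4_psi_low (by simp only; omega)
        have f2 : psi a s i (r, x + 1) = (r, x + 1) := st4_psi_low (by simp only; omega)
        rw [f1, f2]
        by_cases c1 : r = s ∧ x = a - 1
        · obtain ⟨rfl, rfl⟩ := c1
          rw [sub_add_cancel]
          have hr1 : F.Reach (r, a) (r, a - 1) :=
            hc.above (r, a) (r, a - 1) dA hdV.2 hsi hsi
          exact ⟨Or.inr ⟨hr1, Or.inl (Cfg.Reach.refl' _ _), Or.inr e6⟩,
            Or.inr ⟨Cfg.Reach.refl' _ _, Or.inr e6, Or.inl (Cfg.Reach.refl' _ _)⟩⟩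
        · have c2 : ¬ (r = s ∧ x = a) := by
            rintro ⟨rfl, rfl⟩
            rw [hl.T3 r le_rfl hsi hpar] at h
            exact absurd h (by simp)
          have c3 : ¬ (r = s - 1 ∧ x = a - 1) := by
            rintro ⟨rfl, rfl⟩
            rw [hH'] at h
            exact absurd h (by simp)
          have h5 : F'.H r x = true := by
            rw [hFH r x c2 c1 c3, hKH r x (by omega)]
            exact h
          exact ⟨Or.inl (Cfg.reach_H h5), Or.inl (Cfg.reach_H h5).symm⟩
    · intro r x h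
      by_cases hr : s ≤ r
      · exact ⟨Or.inl (K4 r x hr h), Or.inl (K4 r x hr h).symm⟩
      · have f1 : psi a s i (r, x) = (r, x) := st4_psi_low (by simp only; omega)
        have f2 : psi a s i (r + 1, x) = (r + 1, x) := st4_psi_low (by simp only; omega)
        rw [f1, f2]
        by_cases c1 : r = s - 1 ∧ x = a - 1
        · obtain ⟨rfl, rfl⟩ := c1
          rw [sub_add_cancel]
          have hr1 : F.Reach (s, a) (s - 1, a - 1) :=
            hc.above (s, a) (s - 1, a - 1) dA hdV.1 hsi (by simp only; omega)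
          have hr2 : F.Reach (s, a) (s, a - 1) :=
            hc.above (s, a) (s, a - 1) dA hdV.2 hsi hsi
          exact ⟨Or.inr ⟨hr1, Or.inr (Cfg.Reach.refl' _ _), Or.inl (Cfg.Reach.refl' _ _)⟩,
            Or.inr ⟨hr2, Or.inl (Cfg.Reach.refl' _ _), Or.inr (Cfg.Reach.refl' _ _)⟩⟩
        by_cases c2 : r = s - 1 ∧ x = a
        · obtain ⟨rfl, rfl⟩ := c2
          rw [sub_add_cancel]
          exact ⟨Or.inl e5, Or.inl e5.symm⟩
        have h5 : F'.V r x = true := by
          rw [hFV r x (by omega), hKV r x (by omega)]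
          exact h
        exact ⟨Or.inl (Cfg.reach_V h5), Or.inl (Cfg.reach_V h5).symm⟩
  · -- every point of positive degree is reached
    rintro ⟨r, x⟩ hp'
    by_cases hold : (x = a ∨ x = a + 1) ∧ s < r ∧ r < i ∧ Even (i - r)
    · obtain ⟨hx, h5, h6, h7⟩ := hold
      have hodd : Odd (i - (r - 1)) := by
        obtain ⟨k, hk⟩ := h7
        exact ⟨k, by omega⟩
      have hnot : ∀ x', psi a s i (r - 1, x') = (r - 1, x') := by
        intro x'
        apply st4_psi_not
        rintro ⟨-, -, -, h8⟩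
        simp only at h8
        exact (Int.not_even_iff_odd.2 hodd) h8
      rcases hx with rfl | rfl
      · refine ⟨(r - 1, x), ?_, ?_⟩
        · have := (Cfg.deg_ne_of_H (hl.T1 (r - 1) (by omega) (by omega) hodd)).2
          rwa [sub_add_cancel] at this
        · rw [hnot]
          exact (K5 r h5 h6 h7).1
      · refine ⟨(r - 1, a + 1), ?_, ?_⟩
        · exact (Cfg.deg_ne_of_H (hl.T5 (r - 1) (by omega) (by omega) hodd)).1
        · rw [hnot]
          exact (K5 r h5 h6 h7).2
    · refine ⟨(r, x), ?_, ?_⟩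
      · by_cases c1 : ((r, x) : ℤ × ℤ) = (s, a - 1)
        · rw [c1, h4]; norm_num
        by_cases c2 : ((r, x) : ℤ × ℤ) = (s, a + 1)
        · rw [c2, d3]; norm_num
        rw [← dother _ c1 c2]
        exact hp'
      · rw [st4_psi_not hold]
        exact Cfg.Reach.refl' _ _
  · right
    rw [st4_psi_low (by simp only; omega)]
    exact e6
  · have f1 : psi a s i (i - 1, a) = (i - 1, a) := by
      apply st4_psi_not
      rintro ⟨-, -, -, h8⟩
      simp only at h8
      exact (Int.not_even_iff_odd.2 hi1) h8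
    have f2 : psi a s i (i, a) = (i, a) := by
      apply st4_psi_not
      rintro ⟨-, -, h8, -⟩
      simp at h8
    rw [f1, f2]
    exact K2
  · rw [dother]
    · exact hdV.1
    · intro h; rw [Prod.mk.injEq] at h; omega
    · intro h; rw [Prod.mk.injEq] at h; omega

end MP545
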