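import Pool.Agent.Lib.MP_545c5e_lc.CutDefs

/-! A configuration that does not cross a tie is divided by it. -/

namespace MP545

open Finset

private theorem tg_H0 {G : Hist} {F : Cfg} (hF : G.Good F) {x0 x1 : ℤ} {r : ℤ}
    (hr : G.h (x0 - 1) < r) : F.H r (x0 - 1) = false := by
  by_contra h
  have h1 := (hF.H r (x0 - 1) (by simpa using h)).1.2
  simp only at h1
  omega

private theorem tg_H1 {G : Hist} {F : Cfg} (hF : G.Good F) {x0 x1 : ℤ} (ht : G.Tie x0 x1)
    {r : ℤ} (hr : G.h (x0 - 1) < r) : F.H r x1 = false := by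
  by_contra h
  have h1 := (hF.H r x1 (by simpa using h)).2.2
  obtain ⟨t1, t2, t3, t4, t5, t6⟩ := ht
  simp only at h1
  omega

private theorem tg_up_in {G : Hist} {F : Cfg} (hF : G.Good F) {x0 x1 : ℤ} (ht : G.Tie x0 x1)
    (hu : ∀ x, x0 ≤ x → x ≤ x1 → F.V (G.h (x0 - 1)) x = false) (r x : ℤ)
    (h : ¬ (x0 ≤ x ∧ x ≤ x1 ∧ G.h (x0 - 1) < r)) :
    (F.up (G.h (x0 - 1)) x0 x1).deg (r, x) = F.deg (r, x) := by
  have e1 : (F.up (G.h (x0 - 1)) x0 x1).H r (x - 1) = F.H r (x - 1) := by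
    simp only [Cfg.up]
    split_ifs with hc
    · have hx : x = x1 + 1 := by omega
      subst hx
      have : x1 + 1 - 1 = x1 := by ring
      rw [this, tg_H1 hF ht hc.2.2]
    · rfl
  have e2 : (F.up (G.h (x0 - 1)) x0 x1).H r x = F.H r x := by
    simp only [Cfg.up]
    split_ifs with hc
    · have hx : x = x0 - 1 := by omega
      subst hx
      rw [tg_H0 (x1 := x1) hF hc.2.2]
    · rfl
  have e3 : (F.up (G.h (x0 - 1)) x0 x1).V (r - 1) x = F.V (r - 1) x := by
    simp only [Cfg.up]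
    split_ifs with hc
    · exfalso
      omega
    · rfl
  have e4 : (F.up (G.h (x0 - 1)) x0 x1).V r x = F.V r x := by
    simp only [Cfg.up]
    split_ifs with hc
    · have hr : r = G.h (x0 - 1) := by omega
      rw [hr, hu x hc.1 hc.2.1]
    · rfl
  rw [Cfg.deg_mk, Cfg.deg_mk, e1, e2, e3, e4]

private theorem tg_up_out {G : Hist} {F : Cfg} {x0 x1 : ℤ} (r x : ℤ)
    (h : x0 ≤ x ∧ x ≤ x1 ∧ G.h (x0 - 1) < r) :
    (F.up (G.h (x0 - 1)) x0 x1).deg (r, x) = 0 := by
  have e1 : (F.up (G.h (x0 - 1)) x0 x1).H r (x - 1) = false := by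
    simp only [Cfg.up]
    rw [if_pos (by omega)]
  have e2 : (F.up (G.h (x0 - 1)) x0 x1).H r x = false := by
    simp only [Cfg.up]
    rw [if_pos (by omega)]
  have e3 : (F.up (G.h (x0 - 1)) x0 x1).V (r - 1) x = false := by
    simp only [Cfg.up]
    rw [if_pos (by omega)]
  have e4 : (F.up (G.h (x0 - 1)) x0 x1).V r x = false := by
    simp only [Cfg.up]
    rw [if_pos (by omega)]
  rw [Cfg.deg_mk, e1, e2, e3, e4]
  rfl

private theorem tg_down_in {G : Hist} {F : Cfg} (hF : G.Good F) {x0 x1 : ℤ} (ht : G.Tie x0 x1)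
    (hu : ∀ x, x0 ≤ x → x ≤ x1 → F.V (G.h (x0 - 1)) x = false) (r x : ℤ)
    (h : x0 ≤ x ∧ x ≤ x1 ∧ 1 ≤ r) :
    (F.down (G.h (x0 - 1)) x0 x1).deg (r, x) = F.deg (r + G.h (x0 - 1), x) := by
  have e1 : (F.down (G.h (x0 - 1)) x0 x1).H r (x - 1) = F.H (r + G.h (x0 - 1)) (x - 1) := by
    simp only [Cfg.down]
    split_ifs with hc
    · rfl
    · have hx : x = x0 := by omega
      subst hx
      rw [tg_H0 (x1 := x1) hF (by omega)]
  have e2 : (F.down (G.h (x0 - 1)) x0 x1).H r x = F.H (r + G.h (x0 - 1)) x := by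
    simp only [Cfg.down]
    split_ifs with hc
    · rfl
    · have hx : x = x1 := by omega
      subst hx
      rw [tg_H1 hF ht (by omega)]
  have e3 : (F.down (G.h (x0 - 1)) x0 x1).V (r - 1) x = F.V (r + G.h (x0 - 1) - 1) x := by
    simp only [Cfg.down]
    have er : r - 1 + G.h (x0 - 1) = r + G.h (x0 - 1) - 1 := by ring
    split_ifs with hc
    · rw [er]
    · have hr : r = 1 := by omega
      subst hr
      have er' : 1 + G.h (x0 - 1) - 1 = G.h (x0 - 1) := by ring
      rw [er', hu x h.1 h.2.1]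
  have e4 : (F.down (G.h (x0 - 1)) x0 x1).V r x = F.V (r + G.h (x0 - 1)) x := by
    simp only [Cfg.down]
    rw [if_pos (by omega)]
  rw [Cfg.deg_mk, Cfg.deg_mk, e1, e2, e3, e4]

private theorem tg_down_out {F : Cfg} {t x0 x1 : ℤ} (r x : ℤ)
    (h : ¬ (x0 ≤ x ∧ x ≤ x1 ∧ 1 ≤ r)) :
    (F.down t x0 x1).deg (r, x) = 0 := by
  have e1 : (F.down t x0 x1).H r (x - 1) = false := by
    simp only [Cfg.down]
    rw [if_neg (by omega)]
  have e2 : (F.down t x0 x1).H r x = false := by
    simp only [Cfg.down]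
    rw [if_neg (by omega)]
  have e3 : (F.down t x0 x1).V (r - 1) x = false := by
    simp only [Cfg.down]
    rw [if_neg (by omega)]
  have e4 : (F.down t x0 x1).V r x = false := by
    simp only [Cfg.down]
    rw [if_neg (by omega)]
  rw [Cfg.deg_mk, e1, e2, e3, e4]
  rfl

/-- The degree of a point outside the hanging part is its degree in `F.up`, the degree of a point
`(r + t, x)` of the hanging part is the degree of `(r, x)` in `F.down`. -/
theorem tie_good {G : Hist} {F : Cfg} (hF : G.Good F) {x0 x1 : ℤ} (ht : G.Tie x0 x1)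
    (hu : ∀ x, x0 ≤ x → x ≤ x1 → F.V (G.h (x0 - 1)) x = false) :
    (G.cutUp x0 x1 ht).Good (F.up (G.h (x0 - 1)) x0 x1) ∧
      (G.cutDown x0 x1 ht).Good (F.down (G.h (x0 - 1)) x0 x1) ∧
      (∀ p, (G.cutUp x0 x1 ht).In p → (F.up (G.h (x0 - 1)) x0 x1).deg p = F.deg p) ∧
      ∀ p, (G.cutDown x0 x1 ht).In p →
        (F.down (G.h (x0 - 1)) x0 x1).deg p = F.deg (p.1 + G.h (x0 - 1), p.2) := by
  refine ⟨⟨?_, ?_, ?_⟩, ⟨?_, ?_, ?_⟩, ?_, ?_⟩
  · intro r x h
    simp only [Cfg.up] at h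
    split_ifs at h with hc
    obtain ⟨h1, h2⟩ := hF.H r x h
    have a1 := h1.1
    have a2 := h1.2
    have a3 := h2.2
    simp only at a1 a2 a3
    constructor
    · refine ⟨a1, ?_⟩
      simp only [Hist.cutUp]
      split_ifs with hd
      · omega
      · exact a2
    · refine ⟨a1, ?_⟩
      simp only [Hist.cutUp]
      split_ifs with hd
      · omega
      · exact a3
  · intro r x h
    simp only [Cfg.up] at h
    split_ifs at h with hc
    obtain ⟨h1, h2⟩ := hF.V r x h
    have a1 := h1.1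
    have a2 := h1.2
    have a3 := h2.1
    have a4 := h2.2
    simp only at a1 a2 a3 a4
    constructor
    · refine ⟨a1, ?_⟩
      simp only [Hist.cutUp]
      split_ifs with hd
      · omega
      · exact a2
    · refine ⟨a3, ?_⟩
      simp only [Hist.cutUp]
      split_ifs with hd
      · omega
      · exact a4
  · rintro ⟨r, x⟩
    by_cases h : x0 ≤ x ∧ x ≤ x1 ∧ G.h (x0 - 1) < r
    · rw [tg_up_out r x h]
      exact ⟨0, rfl⟩
    · rw [tg_up_in hF ht hu r x h]
      exact hF.even _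
  · intro r x h
    simp only [Cfg.down] at h
    split_ifs at h with hc
    obtain ⟨h1, h2⟩ := hF.H (r + G.h (x0 - 1)) x h
    have a2 := h1.2
    have a3 := h2.2
    simp only at a2 a3
    constructor
    · refine ⟨hc.2.2, ?_⟩
      simp only [Hist.cutDown]
      rw [if_pos (by omega)]
      omega
    · refine ⟨hc.2.2, ?_⟩
      simp only [Hist.cutDown]
      rw [if_pos (by omega)]
      omega
  · intro r x h
    simp only [Cfg.down] at h
    split_ifs at h with hc
    obtain ⟨h1, h2⟩ := hF.V (r + G.h (x0 - 1)) x h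
    have a2 := h1.2
    have a4 := h2.2
    simp only at a2 a4
    constructor
    · refine ⟨hc.2.2, ?_⟩
      simp only [Hist.cutDown]
      rw [if_pos (by omega)]
      omega
    · refine ⟨by simp only; omega, ?_⟩
      simp only [Hist.cutDown]
      rw [if_pos (by omega)]
      omega
  · rintro ⟨r, x⟩
    by_cases h : x0 ≤ x ∧ x ≤ x1 ∧ 1 ≤ r
    · rw [tg_down_in hF ht hu r x h]
      exact hF.even _
    · rw [tg_down_out r x h]
      exact ⟨0, rfl⟩
  · rintro ⟨r, x⟩ hp
    apply tg_up_in hF ht hu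
    have h2 := hp.2
    simp only [Hist.cutUp] at h2
    intro hc
    rw [if_pos ⟨hc.1, hc.2.1⟩] at h2
    omega
  · rintro ⟨r, x⟩ hp
    apply tg_down_in hF ht hu
    have h1 := hp.1
    have h2 := hp.2
    simp only [Hist.cutDown] at h1 h2
    split_ifs at h2 with hc
    · exact ⟨hc.1, hc.2, h1⟩
    · exfalso
      omega

end MP545
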