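import Pool.Agent.Lib.MP_545c5e_lc.GDefs

/-! Edges used an odd number of times by a tour. -/

namespace MP545

open Classical in
private theorem wlow1_sum_count {α : Type*} [Fintype α] (v : α) (l : List (Sym2 α)) :
    ∑ u : α, l.count s(v, u) = l.countP (fun e => decide (v ∈ e)) := by
  induction l with
  | nil => simp
  | cons e l ih =>
    simp only [List.count_cons, List.countP_cons, Finset.sum_add_distrib, ih]
    congr 1
    by_cases hv : v ∈ e
    · obtain ⟨u, rfl⟩ := Sym2.mem_iff_exists.mp hv
      rw [Finset.sum_eq_single u]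
      · simp
      · intro b _ hb
        have : s(v, u) ≠ s(v, b) := by
          intro h
          exact hb (Sym2.congr_right.mp h).symm
        simp [this]
      · intro h
        exact absurd (Finset.mem_univ _) h
    · rw [Finset.sum_eq_zero]
      · simp [hv]
      · intro u _
        have : e ≠ s(v, u) := by
          rintro rfl
          exact hv (Sym2.mem_mk_left v u)
        simp [this]

open Classical in
private theorem wlow1_parity {α : Type*} (Γ : SimpleGraph α) {u v : α} (w : Γ.Walk u v) (x : α) :
    Even (w.edges.countP (fun e => decide (x ∈ e)) + (if x = u then 1 else 0) +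
      (if x = v then 1 else 0)) := by
  induction w with
  | nil =>
    simp only [SimpleGraph.Walk.edges_nil, List.countP_nil, zero_add]
    split_ifs <;> decide
  | @cons u w' v h p ih =>
    rw [SimpleGraph.Walk.edges_cons, List.countP_cons]
    have hne : u ≠ w' := h.ne
    have e : (if decide (x ∈ s(u, w')) = true then 1 else 0) =
        (if x = u then 1 else 0) + (if x = w' then 1 else 0) := by
      by_cases h1 : x = u
      · have h2 : x ≠ w' := by rw [h1]; exact hne
        simp [h1, hne]
      · by_cases h2 : x = w'
        · simp [h2, hne.symm]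
        · simp [h1, h2]
    rw [e]
    obtain ⟨k, hk⟩ := ih
    refine ⟨k + (if x = u then 1 else 0), ?_⟩
    omega

/-- `F`: the edges that the closed walk uses an odd number of times, `D`: the edges that it uses
a positive even number of times. -/
theorem tour_split {α : Type*} [Finite α] (Γ : SimpleGraph α) {L : ℕ}
    (hL : IsTourLength Γ L) :
    ∃ F D : SimpleGraph α, IsEvenSub Γ F ∧ D ≤ Γ ∧ (F ⊔ D).Connected ∧
      F.edgeSet.ncard + 2 * D.edgeSet.ncard ≤ L := by
  classical
  haveI := Fintype.ofFinite α
  obtain ⟨v, w, hw, rfl⟩ := hL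
  have hΓ : ∀ e ∈ w.edges, e ∈ Γ.edgeSet := fun e he => w.edges_subset_edgeSet he
  set SF : Set (Sym2 α) := {e | Odd (w.edges.count e)} with hSF
  set SD : Set (Sym2 α) := {e | e ∈ w.edges ∧ ¬ Odd (w.edges.count e)} with hSD
  have hmem : ∀ e, Odd (w.edges.count e) → e ∈ w.edges := by
    intro e he
    rw [← List.count_pos_iff]
    exact he.pos
  have hFle : SimpleGraph.fromEdgeSet SF ≤ Γ := by
    intro a b hab
    rw [SimpleGraph.fromEdgeSet_adj] at hab
    exact hΓ _ (hmem _ hab.1)
  have hDle : SimpleGraph.fromEdgeSet SD ≤ Γ := by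
    intro a b hab
    rw [SimpleGraph.fromEdgeSet_adj] at hab
    exact hΓ _ hab.1.1
  refine ⟨SimpleGraph.fromEdgeSet SF, SimpleGraph.fromEdgeSet SD, ⟨hFle, ?_⟩, hDle, ?_, ?_⟩
  · intro x
    have hset : (SimpleGraph.fromEdgeSet SF).neighborSet x =
        ((Finset.univ.filter fun u => Odd (w.edges.count s(x, u)) : Finset α) : Set α) := by
      ext u
      simp only [SimpleGraph.mem_neighborSet, SimpleGraph.fromEdgeSet_adj, Finset.coe_filter,
        Finset.mem_univ, true_and, Set.mem_setOf_eq, hSF]
      constructor
      · exact fun h => h.1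
      · intro h
        refine ⟨h, ?_⟩
        have := hΓ _ (hmem _ h)
        exact Γ.ne_of_adj this
    rw [hset, Set.ncard_coe_finset, ← Finset.even_sum_iff_even_card_odd, wlow1_sum_count]
    have hp := wlow1_parity Γ w x
    rw [add_assoc] at hp
    refine (Nat.even_add.mp hp).mpr ?_
    split_ifs <;> decide
  · haveI : Nonempty α := ⟨v⟩
    have htr : ∀ e ∈ w.edges,
        e ∈ (SimpleGraph.fromEdgeSet SF ⊔ SimpleGraph.fromEdgeSet SD).edgeSet := by
      intro e he
      have h1 := hΓ e he
      induction e with
      | _ a b =>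
        have hne : a ≠ b := Γ.ne_of_adj h1
        rw [SimpleGraph.mem_edgeSet, SimpleGraph.sup_adj, SimpleGraph.fromEdgeSet_adj,
          SimpleGraph.fromEdgeSet_adj]
        by_cases ho : Odd (w.edges.count s(a, b))
        · exact Or.inl ⟨ho, hne⟩
        · exact Or.inr ⟨⟨he, ho⟩, hne⟩
    have hreach : ∀ u, (SimpleGraph.fromEdgeSet SF ⊔ SimpleGraph.fromEdgeSet SD).Reachable v u := by
      intro u
      have hu : u ∈ (w.transfer _ htr).support := by
        rw [SimpleGraph.Walk.support_transfer]
        exact hw u
      exact ⟨(w.transfer _ htr).takeUntil u hu⟩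
    exact ⟨fun a b => (hreach a).symm.trans (hreach b)⟩
  · have hFe : (SimpleGraph.fromEdgeSet SF).edgeSet =
        ((w.edges.toFinset.filter fun e => Odd (w.edges.count e) : Finset (Sym2 α)) :
          Set (Sym2 α)) := by
      rw [SimpleGraph.edgeSet_fromEdgeSet]
      ext e
      simp only [Set.mem_sdiff, Finset.coe_filter, List.mem_toFinset, Set.mem_setOf_eq, hSF]
      constructor
      · exact fun h => ⟨hmem e h.1, h.1⟩
      · intro h
        exact ⟨h.2, Γ.not_isDiag_of_mem_edgeSet (hΓ e h.1)⟩
    have hDe : (SimpleGraph.fromEdgeSet SD).edgeSet =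
        ((w.edges.toFinset.filter fun e => ¬ Odd (w.edges.count e) : Finset (Sym2 α)) :
          Set (Sym2 α)) := by
      rw [SimpleGraph.edgeSet_fromEdgeSet]
      ext e
      simp only [Set.mem_sdiff, Finset.coe_filter, List.mem_toFinset, Set.mem_setOf_eq, hSD]
      constructor
      · exact fun h => h.1
      · intro h
        exact ⟨h, Γ.not_isDiag_of_mem_edgeSet (hΓ e h.1)⟩
    rw [hFe, hDe, Set.ncard_coe_finset, Set.ncard_coe_finset, ← w.length_edges,
      ← List.sum_toFinset_count_eq_length,
      ← Finset.sum_filter_add_sum_filter_not w.edges.toFinset (fun e => Odd (w.edges.count e))]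
    refine Nat.add_le_add ?_ ?_
    · rw [Finset.card_eq_sum_ones]
      refine Finset.sum_le_sum fun e he => ?_
      rw [Finset.mem_filter] at he
      exact he.2.pos
    · rw [Finset.card_eq_sum_ones, Finset.mul_sum]
      refine Finset.sum_le_sum fun e he => ?_
      rw [Finset.mem_filter, List.mem_toFinset] at he
      have h1 : 0 < w.edges.count e := List.count_pos_iff.mpr he.1
      have h2 := Nat.not_odd_iff_even.mp he.2
      obtain ⟨k, hk⟩ := h2
      omega

end MP545
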